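import Mathlib

/-!
# NG8 / LnkP: the sign as a quartic power residue

PROOF IN WORDS. `q = card F`, write `z, m` for the images in `E`. `2z(m+i) = (z+i)^2`, `2z(m-i) = (z-i)^2`, `(z+i)(z-i) = z^2+1 ≠ 0`, `2z ≠ 0` (`q` is odd by `hn`). So it is enough that `(z+i)^(2n) = χ (z-i)^(2n)`, `χ = (z^2+1)^((q-1)/2)` (`quadraticChar_eq_pow_of_char_ne_two'`, mapped to `E`). The `q`-th power is additive on `E` and fixes `F`.
If `4n + 1 = q`: `i^q = i`, `(z-i)^(q-1) = 1`, `χ (z-i)^(2n) = (z+i)^(2n) (z-i)^(4n) = (z+i)^(2n)`. If `4n = q + 1`: `i^q = -i`, `z - i = (z+i)^q`, `z^2+1 = (z+i)^(q+1)`, `χ (z-i)^(2n) = (z+i)^((q+1)(q-1)/2 + q(q+1)/2)`, and `(z+i)^(q^2-1) = 1`, the exponent is `(q+1)/2 + (q^2 - 1)`.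
-/

set_option autoImplicit false

namespace Pool.Agent.Lib.NG8

theorem link {F E : Type} [Field F] [Fintype F] [DecidableEq F] [Field E] [Algebra F E] (i : E) (hi : i ^ 2 = -1) (n : ℕ)
    (hn : 4 * n + 1 = Fintype.card F ∨ 4 * n = Fintype.card F + 1) (z m : F) (hz : z ≠ 0) (hzm : z ^ 2 - 1 = 2 * z * m)
    (h1 : z ^ 2 + 1 ≠ 0) :
    (algebraMap F E m + i) ^ n = ((quadraticChar F (z ^ 2 + 1) : ℤ) : E) * (algebraMap F E m - i) ^ n := by
  classical
  obtain ⟨q, hqdef⟩ : ∃ q, q = Fintype.card F := ⟨_, rfl⟩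
  rw [← hqdef] at hn
  have hchar : ringChar F ≠ 2 := by
    intro h
    have h3 := FiniteField.even_card_of_char_two h
    rw [← hqdef] at h3
    omega
  have h2F : (2 : F) ≠ 0 := Ring.two_ne_zero hchar
  obtain ⟨Z, hZ⟩ : ∃ Z : E, Z = algebraMap F E z := ⟨_, rfl⟩
  obtain ⟨M, hM⟩ : ∃ M : E, M = algebraMap F E m := ⟨_, rfl⟩
  have hinj : ∀ x : F, x ≠ 0 → algebraMap F E x ≠ 0 := fun x hx h =>
    hx ((map_eq_zero (algebraMap F E)).1 h)
  have h2E : (2 : E) ≠ 0 := by
    have h3 := hinj 2 h2F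
    rwa [map_ofNat] at h3
  have hZ0 : Z ≠ 0 := by
    rw [hZ]
    exact hinj z hz
  have hZM : Z ^ 2 - 1 = 2 * Z * M := by
    have h3 := congrArg (algebraMap F E) hzm
    rw [map_sub, map_pow, map_one, map_mul, map_mul, map_ofNat, ← hZ, ← hM] at h3
    exact h3
  have hZ1 : Z ^ 2 + 1 ≠ 0 := by
    have h3 := hinj _ h1
    rwa [map_add, map_pow, map_one, ← hZ] at h3
  have hchi : ((quadraticChar F (z ^ 2 + 1) : ℤ) : E) = (Z ^ 2 + 1) ^ (q / 2) := by
    have h3 := congrArg (algebraMap F E) (quadraticChar_eq_pow_of_char_ne_two' hchar (z ^ 2 + 1))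
    have h4 : algebraMap F E (z ^ 2 + 1) = Z ^ 2 + 1 := by
      rw [map_add, map_pow, map_one, ← hZ]
    rw [map_intCast, map_pow (algebraMap F E), h4, ← hqdef] at h3
    exact h3
  have huv : (Z + i) * (Z - i) = Z ^ 2 + 1 := by linear_combination (-1) * hi
  have hv0 : Z - i ≠ 0 := fun h => hZ1 (by rw [← huv, h, mul_zero])
  have hfrob : ∀ x : E, (Z + x) ^ q = Z + x ^ q := by
    intro x
    have hφ : ∀ y : E, FiniteField.frobeniusAlgHom F E y = y ^ q := fun y => by
      rw [hqdef]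
      rfl
    rw [← hφ, map_add, hφ x, hZ, AlgHom.commutes]
  have hi4 : i ^ 4 = 1 := by
    have h3 : i ^ 4 = (i ^ 2) ^ 2 := by ring
    rw [h3, hi]
    ring
  have key : (Z + i) ^ (2 * n) = (Z ^ 2 + 1) ^ (q / 2) * (Z - i) ^ (2 * n) := by
    rcases hn with hn | hn
    · have e1 : q / 2 = 2 * n := by omega
      have e2 : i ^ q = i := by
        rw [← hn, pow_succ, pow_mul, hi4, one_pow, one_mul]
      have e3 : (Z - i) ^ q = Z - i := by
        have h3 := hfrob (-i)
        have h4 : (-i) ^ q = -i := by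
          have h5 : Odd q := ⟨2 * n, by omega⟩
          rw [h5.neg_pow, e2]
        rw [h4] at h3
        rw [sub_eq_add_neg]
        exact h3
      have e4 : (Z - i) ^ (4 * n) = 1 := by
        rw [← hn, pow_succ] at e3
        exact mul_right_cancel₀ hv0 (by rw [e3, one_mul])
      rw [e1, ← huv, mul_pow, mul_assoc, ← pow_add, show 2 * n + 2 * n = 4 * n by ring, e4, mul_one]
    · obtain ⟨k, rfl⟩ : ∃ k, n = k + 1 := ⟨n - 1, by omega⟩
      have e1 : q / 2 = 2 * k + 1 := by omega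
      have e2 : i ^ q = -i := by
        have h3 : i ^ q * i = 1 := by
          rw [← pow_succ, ← hn, pow_mul, hi4, one_pow]
        have h4 : i ≠ 0 := by
          intro h
          rw [h] at h3
          simp at h3
        apply mul_right_cancel₀ h4
        rw [h3]
        linear_combination hi
      have e3 : (Z - i) ^ q = Z + i := by
        have h3 := hfrob (-i)
        have h4 : (-i) ^ q = i := by
          have h5 : Odd q := ⟨2 * k + 1, by omega⟩
          rw [h5.neg_pow, e2, neg_neg]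
        rw [h4] at h3
        rw [sub_eq_add_neg]
        exact h3
      rw [e1, ← huv, mul_pow, mul_assoc, ← pow_add,
        show 2 * k + 1 + 2 * (k + 1) = q by omega, e3, ← pow_succ]
      congr 1
  have hM1 : 2 * Z * (M + i) = (Z + i) ^ 2 := by linear_combination (-1) * hZM - hi
  have hM2 : 2 * Z * (M - i) = (Z - i) ^ 2 := by linear_combination (-1) * hZM - hi
  have hne : (2 * Z) ^ n ≠ 0 := pow_ne_zero _ (mul_ne_zero h2E hZ0)
  rw [← hM]
  apply mul_left_cancel₀ hne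
  rw [← mul_pow, hM1, hchi, mul_left_comm, ← mul_pow, hM2, ← pow_mul, ← pow_mul]
  exact key

end Pool.Agent.Lib.NG8
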