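import Pool.Agent.Lib.NG8.Defs

/-!
# NG8 / NsqP: no product of the four polynomials is a constant times a square

PROOF IN WORDS (adapt `NG5/NonSq.lean`, landed). (a) `1 ∈ T`: `X` divides the product exactly once (the other values at `0` are `1`, `-1`). (b) `1 ∉ T`, `0 ∈ T`: `D E = C c g^2`, `D = 4X^4+1` is squarefree (`4 D - X D' = 4`), `deg E ≤ 3`: `D ∣ g`, `D^2 ∣ D E`, `D ∣ E`, impossible. (c) `T = {2}`, `{2, 3}`: odd degree. (d) `T = {3}`: `1 + X^2` is
squarefree, not constant. `nonsq_m`: `(X (2X^2+1))^2 + 1 = (4X^4+1)(1+X^2)`, that is `T = {0, 3}`.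
-/

set_option autoImplicit false

namespace Pool.Agent.Lib.NG8

open Polynomial

private theorem ns_ne (F : Type) [Field F] (i : Fin 4) : PP2 F i ≠ 0 := by
  have h01 : ∀ p : F[X], p.eval 0 ≠ 0 → p ≠ 0 := by
    rintro p hp rfl
    exact hp eval_zero
  fin_cases i
  · refine h01 _ ?_
    simp [PP2]
  · have e : PP2 F 1 = X * (-((2 * X ^ 2 + 1) * (2 * X ^ 2 + 2 * X + 1))) := by
      simp only [PP2, Matrix.cons_val_one, Matrix.cons_val_zero]
      ring
    show PP2 F 1 ≠ 0
    rw [e]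
    refine mul_ne_zero X_ne_zero (h01 _ ?_)
    simp
  · refine h01 _ ?_
    simp [PP2]
  · refine h01 _ ?_
    simp [PP2]

private theorem ns_eval (F : Type) [Field F] (i : Fin 4) (hi : i ≠ 1) : (PP2 F i).eval 0 ≠ 0 := by
  fin_cases i
  · simp [PP2]
  · exact absurd rfl hi
  · simp [PP2]
  · simp [PP2]

private theorem ns_deg2 (F : Type) [Field F] : (PP2 F 2).natDegree = 1 := by
  show (-(1 + X : F[X])).natDegree = 1
  rw [natDegree_neg]
  compute_degree!

private theorem ns_deg3 (F : Type) [Field F] : (PP2 F 3).natDegree = 2 := by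
  show (1 + X ^ 2 : F[X]).natDegree = 2
  compute_degree!

private theorem ns_sep3 (F : Type) [Field F] (h2 : (2 : F) ≠ 0) : (1 + X ^ 2 : F[X]).Separable := by
  refine ⟨1, -(C (2 : F)⁻¹ * X), ?_⟩
  have hC : (2 : F[X]) = C (2 : F) := (map_ofNat (C : F →+* F[X]) 2).symm
  have e : derivative (1 + X ^ 2 : F[X]) = 2 * X := by
    simp only [derivative_add, derivative_X_pow, derivative_one, zero_add]
    norm_num
    exact hC.symm
  rw [e]
  have h5 : C (2 : F)⁻¹ * (2 : F[X]) = 1 := by
    rw [hC, ← C_mul, inv_mul_cancel₀ h2, C_1]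
  linear_combination (-(X ^ 2)) * h5

private theorem ns_sep (F : Type) [Field F] (h2 : (2 : F) ≠ 0) : (4 * X ^ 4 + 1 : F[X]).Separable := by
  have h4 : (4 : F) ≠ 0 := by
    have : (4 : F) = 2 * 2 := by norm_num
    rw [this]
    exact mul_ne_zero h2 h2
  refine ⟨1, -(C (4 : F)⁻¹ * X), ?_⟩
  have hC : (4 : F[X]) = C (4 : F) := (map_ofNat (C : F →+* F[X]) 4).symm
  have e : derivative (4 * X ^ 4 + 1 : F[X]) = 4 * (4 * X ^ 3) := by
    rw [hC]
    simp only [derivative_add, derivative_C_mul, derivative_X_pow, derivative_one, add_zero]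
    norm_num
  rw [e]
  have h5 : C (4 : F)⁻¹ * (4 : F[X]) = 1 := by
    rw [hC, ← C_mul, inv_mul_cancel₀ h4, C_1]
  linear_combination (-(4 * X ^ 4)) * h5

private theorem ns_degD (F : Type) [Field F] (h2 : (2 : F) ≠ 0) : (4 * X ^ 4 + 1 : F[X]).natDegree = 4 := by
  have h4 : (4 : F) ≠ 0 := by
    have : (4 : F) = 2 * 2 := by norm_num
    rw [this]
    exact mul_ne_zero h2 h2
  have hC : (4 : F[X]) = C (4 : F) := (map_ofNat (C : F →+* F[X]) 4).symm
  rw [hC]
  compute_degree!

theorem nonsq2 (F : Type) [Field F] (h2 : (2 : F) ≠ 0) (T : Finset (Fin 4)) (hT : T.Nonempty) (c : F) (g : F[X]) :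
    ∏ i ∈ T, PP2 F i ≠ C c * g ^ 2 := by
  intro h
  have hne : ∏ i ∈ T, PP2 F i ≠ 0 := Finset.prod_ne_zero_iff.mpr fun i _ => ns_ne F i
  have hc : c ≠ 0 := by
    rintro rfl
    rw [h] at hne
    simp at hne
  have hg : g ≠ 0 := by
    rintro rfl
    rw [h] at hne
    simp at hne
  by_cases h1 : (1 : Fin 4) ∈ T
  · -- the root `0` is simple
    rw [← Finset.mul_prod_erase T _ h1] at h
    have e : PP2 F 1 = X * (-((2 * X ^ 2 + 1) * (2 * X ^ 2 + 2 * X + 1))) := by
      simp only [PP2, Matrix.cons_val_one, Matrix.cons_val_zero]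
      ring
    rw [e, mul_assoc] at h
    set k : F[X] := -((2 * X ^ 2 + 1) * (2 * X ^ 2 + 2 * X + 1)) * ∏ i ∈ T.erase 1, PP2 F i with hk
    have hk0 : k.eval 0 ≠ 0 := by
      rw [hk, eval_mul, eval_prod]
      refine mul_ne_zero ?_ (Finset.prod_ne_zero_iff.mpr fun i hi => ns_eval F i (Finset.ne_of_mem_erase hi))
      simp
    have h3 : c * g.eval 0 ^ 2 = 0 := by
      have h4 := congrArg (eval 0) h
      simp only [eval_mul, eval_X, zero_mul, eval_C, eval_pow] at h4
      exact h4.symm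
    have h4 : g.eval 0 = 0 := by
      rcases mul_eq_zero.mp h3 with h5 | h5
      · exact absurd h5 hc
      · exact pow_eq_zero_iff (two_ne_zero) |>.mp h5
    obtain ⟨g', rfl⟩ := (dvd_iff_isRoot (p := g) (a := 0)).mpr h4
    rw [C_0, sub_zero] at h
    have h5 : k = C c * X * g' ^ 2 := by
      have h6 : X * k = X * (C c * X * g' ^ 2) := by rw [h]; ring
      exact mul_left_cancel₀ X_ne_zero h6
    apply hk0
    rw [h5]
    simp
  · by_cases h0 : (0 : Fin 4) ∈ T
    · rw [← Finset.mul_prod_erase T _ h0] at h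
      have e : PP2 F 0 = 4 * X ^ 4 + 1 := rfl
      rw [e] at h
      have hE : ∏ i ∈ T.erase 0, PP2 F i ≠ 0 := Finset.prod_ne_zero_iff.mpr fun i _ => ns_ne F i
      have hsub : T.erase 0 ⊆ {2, 3} := by
        intro i hi
        have hi0 := Finset.ne_of_mem_erase hi
        have hiT := Finset.mem_of_mem_erase hi
        fin_cases i
        · exact absurd rfl hi0
        · exact absurd hiT h1
        · decide
        · decide
      have hdeg : (∏ i ∈ T.erase 0, PP2 F i).natDegree ≤ 3 := by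
        refine (natDegree_prod_le _ _).trans ?_
        refine (Finset.sum_le_sum_of_subset hsub).trans ?_
        rw [Finset.sum_pair (by decide), ns_deg2, ns_deg3]
      set D : F[X] := 4 * X ^ 4 + 1 with hD
      have hD4 : D.natDegree = 4 := ns_degD F h2
      have hD0 : D ≠ 0 := by
        intro h3
        rw [h3] at hD4
        simp at hD4
      have hsq : Squarefree D := (ns_sep F h2).squarefree
      have h3 : D ∣ g ^ 2 := by
        have h4 : D ∣ C c * g ^ 2 := ⟨_, h.symm⟩
        exact (IsUnit.dvd_mul_left (isUnit_C.mpr hc.isUnit)).mp h4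
      have h4 : D ∣ g := (hsq.dvd_pow_iff_dvd two_ne_zero).mp h3
      obtain ⟨g', rfl⟩ := h4
      have h5 : ∏ i ∈ T.erase 0, PP2 F i = D * (C c * g' ^ 2) := by
        have h6 : D * ∏ i ∈ T.erase 0, PP2 F i = D * (D * (C c * g' ^ 2)) := by rw [h]; ring
        exact mul_left_cancel₀ hD0 h6
      have h6 := natDegree_le_of_dvd ⟨_, h5⟩ hE
      omega
    · have key : ∀ T : Finset (Fin 4), T.Nonempty → 0 ∉ T → 1 ∉ T → T = {2} ∨ T = {3} ∨ T = {2, 3} := by
        decide
      have hdg : (C c * g ^ 2).natDegree = 2 * g.natDegree := by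
        rw [natDegree_C_mul hc, natDegree_pow]
      rcases key T hT h0 h1 with rfl | rfl | rfl
      · rw [Finset.prod_singleton] at h
        have h3 := ns_deg2 F
        rw [h, hdg] at h3
        omega
      · rw [Finset.prod_singleton] at h
        have h3 := ns_deg3 F
        have hsq : Squarefree (1 + X ^ 2 : F[X]) := (ns_sep3 F h2).squarefree
        have e : PP2 F 3 = 1 + X ^ 2 := rfl
        have hu : IsUnit g := hsq g ⟨C c, by rw [← e, h]; ring⟩
        rw [h, hdg, natDegree_eq_zero_of_isUnit hu] at h3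
        omega
      · rw [Finset.prod_pair (by decide)] at h
        have h3 : (PP2 F 2 * PP2 F 3).natDegree = 3 := by
          rw [natDegree_mul (ns_ne F 2) (ns_ne F 3), ns_deg2, ns_deg3]
        rw [h, hdg] at h3
        omega

theorem nonsq_m (F : Type) [Field F] (h2 : (2 : F) ≠ 0) (c : F) (g : F[X]) :
    (X * (2 * X ^ 2 + 1)) ^ 2 + 1 ≠ C c * g ^ 2 := by
  intro h
  refine nonsq2 F h2 {0, 3} ⟨0, by decide⟩ c g ?_
  rw [Finset.prod_pair (by decide), ← h]
  have e0 : PP2 F 0 = 4 * X ^ 4 + 1 := rfl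
  have e3 : PP2 F 3 = 1 + X ^ 2 := rfl
  rw [e0, e3]
  ring

end Pool.Agent.Lib.NG8
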