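import Pool.Agent.Lib.NG8.CntP
import Pool.Agent.Lib.NG8.LnkP
import Pool.Agent.Lib.NG8.NsqP
import Pool.Agent.Lib.NG5.Weil

/-!
# NG8 / TauP: the quartic character sum

PROOF IN WORDS. `q = card F`, `m = X (2X^2+1)`, `E` = algebraic closure of `F`, `i^2 = -1` in `E`, `n` with `4n ± 1 = q`. For `κ = ±1` let `s_κ` be the set of `α` with `τ α * χ(g α) = κ`. For `α` in it `τ α ≠ 0`, take `z`: by `link` `(m(α)+i)^n = τ (m(α)-i)^n`, and `g(α)^((q-1)/2) = χ(g α)`, so `(m+i)^n g^h = κ (m-i)^n`: `count4` with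
`f₁ = m + i`, `f₂ = m - i`, `η = κ` after a translation `X + c` with `g(c) ≠ 0`, `m(c)^2 + 1 ≠ 0` (exists if `q > d + 6`; for smaller `q` the trivial bound), `v = 2d + 6`; `f₁ f₂ = m^2 + 1` is not a constant times a square in `E[X]` (`nonsq_m`, composed with `X + c`). So `card s_κ ≤ q/4 + C √q`. On the other hand `card s_1 + card s_(-1)` is at least the number of `α`
with `χ(m^2+1) = 1`, `g ≠ 0`, at least `(q - 6 - |∑ χ(m^2+1)|)/2 - d ≥ q/2 - C √q` by `NG5.weil`. So both are `≥ q/4 - C √q` and the difference is `O(√q)`.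
-/

set_option autoImplicit false

namespace Pool.Agent.Lib.NG8

open Polynomial

private theorem tau_tri {F : Type} [Field F] [Fintype F] [DecidableEq F] (a : F) :
    quadraticChar F a = 0 ∨ quadraticChar F a = 1 ∨ quadraticChar F a = -1 := by
  by_cases ha : a = 0
  · exact Or.inl (quadraticChar_eq_zero_iff.mpr ha)
  · exact Or.inr (quadraticChar_dichotomy ha)

private theorem tau_roots {F : Type} [Field F] [Fintype F] [DecidableEq F] {f : F[X]} (hf : f ≠ 0) :
    (Finset.univ.filter fun x : F => f.eval x = 0).card ≤ f.natDegree := by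
  have h1 : (Finset.univ.filter fun x : F => f.eval x = 0) ⊆ f.roots.toFinset := by
    intro x hx
    rw [Multiset.mem_toFinset, mem_roots hf]
    exact (Finset.mem_filter.mp hx).2
  exact (Finset.card_le_card h1).trans ((Multiset.toFinset_card_le _).trans (card_roots' f))

private theorem tau_nonroot {F : Type} [Field F] [Fintype F] [DecidableEq F] {f : F[X]} (hf : f ≠ 0)
    (hlt : f.natDegree < Fintype.card F) : ∃ c : F, f.eval c ≠ 0 := by
  by_contra hcon
  push Not at hcon
  have h1 := tau_roots hf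
  rw [Finset.filter_true_of_mem fun x _ => hcon x, Finset.card_univ] at h1
  omega

private theorem tau_pow {F E : Type} [Field F] [Fintype F] [DecidableEq F] [Field E] [Algebra F E]
    (hodd : Fintype.card F % 2 = 1) (a : F) :
    algebraMap F E a ^ ((Fintype.card F - 1) / 2) = ((quadraticChar F a : ℤ) : E) := by
  have hchar : ringChar F ≠ 2 := by
    intro h
    have := FiniteField.even_card_of_char_two h
    omega
  have h1 := quadraticChar_eq_pow_of_char_ne_two' hchar a
  have h2 : (Fintype.card F - 1) / 2 = Fintype.card F / 2 := by omega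
  rw [h2, ← map_pow, ← h1, map_intCast]

/-- the upper bound for one of the two sets -/
private theorem tau_upper (d : ℕ) : ∃ K : ℝ, 0 ≤ K ∧ ∀ (F E : Type) [Field F] [Fintype F] [DecidableEq F]
    [Field E] [Algebra F E] (i : E), i ^ 2 = -1 →
    Fintype.card F % 2 = 1 → d + 6 < Fintype.card F →
    ∀ τ : F → ℤ, (∀ α, τ α = 0 ∨ ∃ z : F, z ≠ 0 ∧ z ^ 2 - 1 = 2 * z * (α * (2 * α ^ 2 + 1)) ∧ z ^ 2 + 1 ≠ 0 ∧
      τ α = quadraticChar F (z ^ 2 + 1)) → ∀ g : F[X], g ≠ 0 → g.natDegree ≤ d → ∀ κ : ℤ, κ ≠ 0 →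
        ((Finset.univ.filter fun α : F => τ α * quadraticChar F (g.eval α) = κ).card : ℝ) ≤
          (Fintype.card F : ℝ) / 4 + K * Real.sqrt (Fintype.card F) := by
  obtain ⟨K, hK0, hK⟩ := count4 (2 * d + 6)
  refine ⟨K, hK0, ?_⟩
  intro F E _ _ _ _ _ i hi hodd hq τ hτ g hg hgd κ hκ
  have h2F : (2 : F) ≠ 0 := by
    intro h
    have hchar : ringChar F = 2 := by
      have h1 : ringChar F ∣ 2 := (ringChar.spec F 2).mp (by exact_mod_cast h)
      have h3 : ringChar F ≠ 1 := CharP.ringChar_ne_one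
      exact (Nat.dvd_prime Nat.prime_two).mp h1 |>.resolve_left h3
    have := FiniteField.even_card_of_char_two hchar
    omega
  have h2E : (2 : E) ≠ 0 := by
    intro h
    apply h2F
    have h1 : algebraMap F E 2 = 0 := by rw [map_ofNat]; exact h
    exact (map_eq_zero _).mp h1
  have hi0 : i ≠ 0 := by
    rintro rfl
    norm_num at hi
  -- the translation
  set hF : F[X] := (X * (2 * X ^ 2 + 1)) ^ 2 + 1 with hhF
  have hh0 : hF ≠ 0 := by
    intro h
    exact nonsq_m F h2F 0 0 (by rw [← hhF, h]; simp)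
  have hhd : hF.natDegree ≤ 6 := by
    rw [hhF]
    compute_degree
  obtain ⟨c, hc⟩ : ∃ c : F, (g * hF).eval c ≠ 0 := by
    refine tau_nonroot (mul_ne_zero hg hh0) ?_
    have := natDegree_mul_le (p := g) (q := hF)
    omega
  rw [eval_mul] at hc
  have hgc : g.eval c ≠ 0 := left_ne_zero_of_mul hc
  have hhc : hF.eval c ≠ 0 := right_ne_zero_of_mul hc
  -- the polynomials
  set a : E := algebraMap F E c with ha
  set m : E[X] := X * (2 * X ^ 2 + 1) with hm
  have hmev : ∀ x : F, m.eval (algebraMap F E x) = algebraMap F E (x * (2 * x ^ 2 + 1)) := by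
    intro x
    have e2 : algebraMap F E 2 = 2 := map_ofNat _ 2
    rw [hm]
    simp [e2]
  set f₁ : E[X] := (m + C i).comp (X + C a) with hf1
  set f₂ : E[X] := (m - C i).comp (X + C a) with hf2
  set G : E[X] := (g.map (algebraMap F E)).comp (X + C a) with hG
  have hf1e : ∀ x : F, f₁.eval (algebraMap F E x) = algebraMap F E ((x + c) * (2 * (x + c) ^ 2 + 1)) + i := by
    intro x
    rw [hf1, eval_comp, eval_add, eval_C, eval_add, eval_X, eval_C, ha, ← map_add, hmev]
  have hf2e : ∀ x : F, f₂.eval (algebraMap F E x) = algebraMap F E ((x + c) * (2 * (x + c) ^ 2 + 1)) - i := by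
    intro x
    rw [hf2, eval_comp, eval_sub, eval_C, eval_add, eval_X, eval_C, ha, ← map_add, hmev]
  have hGe : ∀ x : F, G.eval (algebraMap F E x) = algebraMap F E (g.eval (x + c)) := by
    intro x
    rw [hG, eval_comp, eval_add, eval_X, eval_C, ha, ← map_add, eval_map, eval₂_at_apply]
  have hprod : (algebraMap F E (c * (2 * c ^ 2 + 1)) + i) * (algebraMap F E (c * (2 * c ^ 2 + 1)) - i) ≠ 0 := by
    have e : (algebraMap F E (c * (2 * c ^ 2 + 1)) + i) * (algebraMap F E (c * (2 * c ^ 2 + 1)) - i) =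
        algebraMap F E (hF.eval c) := by
      have e1 : hF.eval c = (c * (2 * c ^ 2 + 1)) ^ 2 + 1 := by
        rw [hhF]
        simp
      rw [e1, map_add, map_pow, map_one]
      linear_combination -hi
    rw [e]
    exact (_root_.map_ne_zero _).mpr hhc
  have h10 : f₁.eval 0 ≠ 0 := by
    have h := hf1e 0
    rw [map_zero, zero_add] at h
    rw [h]
    exact left_ne_zero_of_mul hprod
  have h20 : f₂.eval 0 ≠ 0 := by
    have h := hf2e 0
    rw [map_zero, zero_add] at h
    rw [h]
    exact right_ne_zero_of_mul hprod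
  have hG0 : G.eval 0 ≠ 0 := by
    have h := hGe 0
    rw [map_zero, zero_add] at h
    rw [h]
    exact (_root_.map_ne_zero _).mpr hgc
  have hns : ∀ (b : E) (H : E[X]), f₁ * f₂ ≠ Polynomial.C b * H ^ 2 := by
    intro b H h
    refine nonsq_m E h2E b (H.comp (X - C a)) ?_
    have e1 : (f₁ * f₂).comp (X - C a) = (m + C i) * (m - C i) := by
      have e2 : (X + C a : E[X]).comp (X - C a) = X := by
        simp
      rw [hf1, hf2, ← mul_comp, comp_assoc, e2, comp_X]
    have e3 : (m + C i) * (m - C i) = m ^ 2 + 1 := by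
      have e4 : (C i : E[X]) ^ 2 = -1 := by
        rw [← C_pow, hi, C_neg, C_1]
      linear_combination -e4
    have h5 := congrArg (fun p => p.comp (X - C a)) h
    simp only [mul_comp, C_comp, pow_comp] at h5
    rw [← mul_comp, e1, e3] at h5
    exact h5
  have hX1 : (X + C a : E[X]).natDegree = 1 := natDegree_X_add_C a
  have hd1 : f₁.natDegree ≤ 3 := by
    rw [hf1, natDegree_comp, hX1, mul_one, hm]
    compute_degree
  have hd2 : f₂.natDegree ≤ 3 := by
    rw [hf2, natDegree_comp, hX1, mul_one, hm]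
    compute_degree
  have hd3 : G.natDegree ≤ d := by
    rw [hG, natDegree_comp, hX1, mul_one]
    exact natDegree_map_le.trans hgd
  obtain ⟨n, hn⟩ : ∃ n : ℕ, 4 * n + 1 = Fintype.card F ∨ 4 * n = Fintype.card F + 1 := by
    rcases (show Fintype.card F % 4 = 1 ∨ Fintype.card F % 4 = 3 by omega) with h | h
    · exact ⟨Fintype.card F / 4, Or.inl (by omega)⟩
    · exact ⟨(Fintype.card F + 1) / 4, Or.inr (by omega)⟩
  set s : Finset F := Finset.univ.filter fun α : F => τ α * quadraticChar F (g.eval α) = κ with hs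
  have hcard : (s.image fun α => α - c).card = s.card :=
    Finset.card_image_of_injective _ fun x y h => sub_left_injective h
  rw [← hcard]
  refine hK F E f₁ f₂ G h10 h20 hG0 hns (by omega) n hn (κ : E) _ ?_
  intro x hx
  rw [Finset.mem_image] at hx
  obtain ⟨α, hα, rfl⟩ := hx
  rw [hs, Finset.mem_filter] at hα
  rw [hf1e, hf2e, hGe, sub_add_cancel, tau_pow hodd]
  rcases hτ α with h0 | ⟨z, hz, hzm, hz1, hzt⟩
  · exact absurd (by rw [← hα.2, h0, zero_mul]) hκ
  · have h1 := link i hi n hn z (α * (2 * α ^ 2 + 1)) hz hzm hz1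
    rw [h1, ← hzt, ← hα.2]
    push_cast
    ring

theorem tau_sum (d : ℕ) : ∃ C : ℝ, 0 ≤ C ∧ ∀ (F : Type) [Field F] [Fintype F] [DecidableEq F], Fintype.card F % 2 = 1 →
    ∀ τ : F → ℤ, (∀ α, τ α = 0 ∨ ∃ z : F, z ≠ 0 ∧ z ^ 2 - 1 = 2 * z * (α * (2 * α ^ 2 + 1)) ∧ z ^ 2 + 1 ≠ 0 ∧
      τ α = quadraticChar F (z ^ 2 + 1)) → (∀ α, quadraticChar F ((α * (2 * α ^ 2 + 1)) ^ 2 + 1) = 1 → τ α ≠ 0) →
        ∀ g : F[X], g ≠ 0 → g.natDegree ≤ d →
          |∑ α : F, (τ α : ℝ) * ((quadraticChar F (g.eval α) : ℤ) : ℝ)| ≤ C * Real.sqrt (Fintype.card F) := by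
  obtain ⟨K, hK0, hK⟩ := tau_upper d
  refine ⟨2 * K + 2 * d + 226, by positivity, ?_⟩
  intro F _ _ _ hodd τ hτ hτ1 g hg hgd
  set q : ℝ := (Fintype.card F : ℝ) with hqd
  have hq1 : (1 : ℝ) ≤ q := by
    have : 1 ≤ Fintype.card F := Fintype.card_pos
    rw [hqd]
    exact_mod_cast this
  have hs1 : 1 ≤ Real.sqrt q := Real.one_le_sqrt.mpr hq1
  have hsq : Real.sqrt q * Real.sqrt q = q := Real.mul_self_sqrt (by linarith)
  have hτtri : ∀ α, τ α = 0 ∨ τ α = 1 ∨ τ α = -1 := by
    intro α
    rcases hτ α with h0 | ⟨z, -, -, -, hzt⟩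
    · exact Or.inl h0
    · rw [hzt]
      exact tau_tri _
  have hptri : ∀ α, τ α * quadraticChar F (g.eval α) = 0 ∨ τ α * quadraticChar F (g.eval α) = 1 ∨
      τ α * quadraticChar F (g.eval α) = -1 := by
    intro α
    rcases hτtri α with h | h | h <;> rcases tau_tri (g.eval α) with h' | h' | h' <;> rw [h, h'] <;> norm_num
  set s₁ : Finset F := Finset.univ.filter fun α : F => τ α * quadraticChar F (g.eval α) = 1 with hs₁
  set s₂ : Finset F := Finset.univ.filter fun α : F => τ α * quadraticChar F (g.eval α) = -1 with hs₂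
  have hsum : ∑ α : F, (τ α : ℝ) * ((quadraticChar F (g.eval α) : ℤ) : ℝ) = s₁.card - s₂.card := by
    have e1 : ∀ α : F, (τ α : ℝ) * ((quadraticChar F (g.eval α) : ℤ) : ℝ) =
        (if τ α * quadraticChar F (g.eval α) = 1 then (1 : ℝ) else 0) -
          (if τ α * quadraticChar F (g.eval α) = -1 then (1 : ℝ) else 0) := by
      intro α
      rw [← Int.cast_mul]
      rcases hptri α with h | h | h <;> rw [h] <;> norm_num
    rw [Finset.sum_congr rfl fun α _ => e1 α, Finset.sum_sub_distrib, Finset.sum_boole, Finset.sum_boole]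
  by_cases hbig : d + 200 ≤ Fintype.card F
  · obtain ⟨i, hi⟩ : ∃ i : AlgebraicClosure F, i ^ 2 = -1 := IsAlgClosed.exists_pow_nat_eq (-1) (by norm_num)
    have hu1 := hK F (AlgebraicClosure F) i hi hodd (by omega) τ hτ g hg hgd 1 one_ne_zero
    have hu2 := hK F (AlgebraicClosure F) i hi hodd (by omega) τ hτ g hg hgd (-1) (by norm_num)
    rw [← hs₁, ← hqd] at hu1
    rw [← hs₂, ← hqd] at hu2
    -- the lower bound
    have h2F : (2 : F) ≠ 0 := by
      intro h
      have hchar : ringChar F = 2 := by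
        have h1 : ringChar F ∣ 2 := (ringChar.spec F 2).mp (by exact_mod_cast h)
        have h3 : ringChar F ≠ 1 := CharP.ringChar_ne_one
        exact (Nat.dvd_prime Nat.prime_two).mp h1 |>.resolve_left h3
      have := FiniteField.even_card_of_char_two hchar
      omega
    set hF : F[X] := (X * (2 * X ^ 2 + 1)) ^ 2 + 1 with hhF
    have hev : ∀ α : F, hF.eval α = (α * (2 * α ^ 2 + 1)) ^ 2 + 1 := by
      intro α
      rw [hhF]
      simp
    have hh0 : hF ≠ 0 := by
      intro h
      exact nonsq_m F h2F 0 0 (by rw [← hhF, h]; simp)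
    have hhd : hF.natDegree ≤ 6 := by
      rw [hhF]
      compute_degree
    have hw := NG5.weil hodd hF (fun c G => nonsq_m F h2F c G) (by
      have : 4 * (hF.natDegree + 1) ^ 2 ≤ 4 * 7 ^ 2 := by
        have := Nat.pow_le_pow_left (show hF.natDegree + 1 ≤ 7 by omega) 2
        omega
      omega)
    have hw2 : |∑ x : F, ((quadraticChar F (hF.eval x) : ℤ) : ℝ)| ≤ 46 * Real.sqrt q := by
      refine hw.trans (mul_le_mul_of_nonneg_right ?_ (Real.sqrt_nonneg _))
      have : (hF.natDegree : ℝ) ≤ 6 := by exact_mod_cast hhd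
      linarith
    set A : Finset F := Finset.univ.filter fun α : F => quadraticChar F (hF.eval α) = 1 with hA
    set Z : Finset F := Finset.univ.filter fun α : F => hF.eval α = 0 with hZ
    set Zg : Finset F := Finset.univ.filter fun α : F => g.eval α = 0 with hZg
    have hZc : (Z.card : ℝ) ≤ 6 := by exact_mod_cast (tau_roots hh0).trans hhd
    have hZgc : (Zg.card : ℝ) ≤ d := by exact_mod_cast (tau_roots hg).trans hgd
    have hAc : ∑ x : F, ((quadraticChar F (hF.eval x) : ℤ) : ℝ) = 2 * A.card - q + Z.card := by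
      have e1 : ∀ α : F, ((quadraticChar F (hF.eval α) : ℤ) : ℝ) =
          2 * (if quadraticChar F (hF.eval α) = 1 then (1 : ℝ) else 0) - 1 + (if hF.eval α = 0 then (1 : ℝ) else 0) := by
        intro α
        by_cases h0 : hF.eval α = 0
        · rw [h0, quadraticChar_zero]
          norm_num
        · rw [if_neg h0]
          rcases quadraticChar_dichotomy h0 with h | h <;> rw [h] <;> norm_num
      rw [Finset.sum_congr rfl fun α _ => e1 α, Finset.sum_add_distrib, Finset.sum_sub_distrib, ← Finset.mul_sum,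
        Finset.sum_boole, Finset.sum_boole, Finset.sum_const, Finset.card_univ, nsmul_eq_mul, mul_one]
    have hsub : A ⊆ (s₁ ∪ s₂) ∪ Zg := by
      intro α hα
      rw [hA, Finset.mem_filter, hev] at hα
      have h1 := hτ1 α hα.2
      rw [Finset.mem_union, Finset.mem_union, hs₁, hs₂, hZg, Finset.mem_filter, Finset.mem_filter, Finset.mem_filter]
      by_cases h3 : g.eval α = 0
      · exact Or.inr ⟨Finset.mem_univ _, h3⟩
      · left
        have h4 : quadraticChar F (g.eval α) ≠ 0 := fun h => h3 (quadraticChar_eq_zero_iff.mp h)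
        rcases hptri α with h | h | h
        · exact absurd h (mul_ne_zero h1 h4)
        · exact Or.inl ⟨Finset.mem_univ _, h⟩
        · exact Or.inr ⟨Finset.mem_univ _, h⟩
    have hle : (A.card : ℝ) ≤ s₁.card + s₂.card + Zg.card := by
      have h1 := (Finset.card_le_card hsub).trans (Finset.card_union_le _ _)
      have h2 := Finset.card_union_le s₁ s₂
      have h3 : A.card ≤ s₁.card + s₂.card + Zg.card := by omega
      exact_mod_cast h3
    have hw3 := (abs_le.mp hw2).1
    rw [hAc] at hw3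
    rw [hsum, abs_le]
    have hd0 : (0 : ℝ) ≤ d := Nat.cast_nonneg d
    have hds : (d : ℝ) ≤ d * Real.sqrt q := by nlinarith
    constructor <;> nlinarith
  · -- small fields
    have hqs : q ≤ d + 200 := by
      have : Fintype.card F ≤ d + 200 := by omega
      rw [hqd]
      exact_mod_cast this
    have h1 : |∑ α : F, (τ α : ℝ) * ((quadraticChar F (g.eval α) : ℤ) : ℝ)| ≤ q := by
      refine (Finset.abs_sum_le_sum_abs _ _).trans ?_
      have h2 : ∀ α ∈ (Finset.univ : Finset F), |(τ α : ℝ) * ((quadraticChar F (g.eval α) : ℤ) : ℝ)| ≤ 1 := by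
        intro α _
        rw [← Int.cast_mul]
        rcases hptri α with h | h | h <;> rw [h] <;> norm_num
      refine (Finset.sum_le_sum h2).trans ?_
      rw [Finset.sum_const, Finset.card_univ, nsmul_eq_mul, mul_one]
    refine h1.trans ?_
    have hd0 : (0 : ℝ) ≤ d := Nat.cast_nonneg d
    have h3 : q ≤ (d + 200) * Real.sqrt q := by nlinarith
    refine h3.trans (mul_le_mul_of_nonneg_right ?_ (Real.sqrt_nonneg _))
    linarith

end Pool.Agent.Lib.NG8
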