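import Pool.Agent.Lib.NG8.MulP
import Pool.Agent.Lib.NG8.TauP

/-!
# NG8 / AlpP: good parameters exist

PROOF IN WORDS (adapt `NG5/Alpha.lean`, landed). `C` from `tau_sum 20`, `q0` from `multi_tau 4 5 C`. `τ α = χ(z^2+1)` for a chosen `z ≠ 0` with `z^2 - 1 = 2 z m(α)`, `z^2 + 1 ≠ 0` if there is one, otherwise `0`. If `m^2 + 1 = w^2 ≠ 0` then `z = w + m`: `z (w - m) = 1`, `z^2 - 1 = 2 m z`, `z^2 + 1 = 2 w z ≠ 0`. `multi_tau` for `PP2 F` (`nonsq2`),
`ε = ![-1, 1, -1, -1]` gives `α`, `τ α ≠ 1`. `m^2 + 1 = (4α^4+1)(1+α^2)` is a product of two non-squares, so a nonzero square: `τ α ≠ 0`, `τ α = -1`: `z^2+1` is not a square.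
-/

set_option autoImplicit false

namespace Pool.Agent.Lib.NG8

open Polynomial

private theorem alp_deg (F : Type) [Field F] (i : Fin 4) : (PP2 F i).natDegree ≤ 5 := by
  fin_cases i
  · show (4 * X ^ 4 + 1 : F[X]).natDegree ≤ 5
    compute_degree
    all_goals norm_num
  · show (-(X * (2 * X ^ 2 + 1) * (2 * X ^ 2 + 2 * X + 1)) : F[X]).natDegree ≤ 5
    have e : (-(X * (2 * X ^ 2 + 1) * (2 * X ^ 2 + 2 * X + 1)) : F[X]) =
        -(4 * X ^ 5) - 4 * X ^ 4 - 4 * X ^ 3 - 2 * X ^ 2 - X := by ring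
    rw [e]
    compute_degree
  · show (-(1 + X) : F[X]).natDegree ≤ 5
    compute_degree
    all_goals norm_num
  · show (1 + X ^ 2 : F[X]).natDegree ≤ 5
    compute_degree
    all_goals norm_num

theorem exists_alpha2 : ∃ q0 : ℕ, ∀ (F : Type) [Field F] [Fintype F], Fintype.card F % 2 = 1 → q0 ≤ Fintype.card F →
    ∃ α : F, Good2 F α := by
  classical
  obtain ⟨C, hC0, hC⟩ := tau_sum 20
  obtain ⟨q0, hq0⟩ := multi_tau 4 5 C hC0
  refine ⟨q0, ?_⟩
  intro F _ _ hodd hq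
  have h2 : (2 : F) ≠ 0 := by
    apply Ring.two_ne_zero
    intro hc
    have := FiniteField.even_card_iff_char_two.mp hc
    omega
  obtain ⟨τ, hτ⟩ : ∃ τ : F → ℤ, τ = fun α =>
      if h : ∃ z : F, z ≠ 0 ∧ z ^ 2 - 1 = 2 * z * (α * (2 * α ^ 2 + 1)) ∧ z ^ 2 + 1 ≠ 0 then
        quadraticChar F (h.choose ^ 2 + 1) else 0 := ⟨_, rfl⟩
  have hpos : ∀ α : F, ∀ h : (∃ z : F, z ≠ 0 ∧ z ^ 2 - 1 = 2 * z * (α * (2 * α ^ 2 + 1)) ∧ z ^ 2 + 1 ≠ 0),
      τ α = quadraticChar F (h.choose ^ 2 + 1) := by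
    intro α h
    rw [hτ]
    exact dif_pos h
  have hneg : ∀ α : F, (¬ ∃ z : F, z ≠ 0 ∧ z ^ 2 - 1 = 2 * z * (α * (2 * α ^ 2 + 1)) ∧ z ^ 2 + 1 ≠ 0) →
      τ α = 0 := by
    intro α h
    rw [hτ]
    exact dif_neg h
  have hτ1 : ∀ α, τ α = 0 ∨ ∃ z : F, z ≠ 0 ∧ z ^ 2 - 1 = 2 * z * (α * (2 * α ^ 2 + 1)) ∧ z ^ 2 + 1 ≠ 0 ∧
      τ α = quadraticChar F (z ^ 2 + 1) := by
    intro α
    by_cases h : ∃ z : F, z ≠ 0 ∧ z ^ 2 - 1 = 2 * z * (α * (2 * α ^ 2 + 1)) ∧ z ^ 2 + 1 ≠ 0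
    · obtain ⟨k1, k2, k3⟩ := h.choose_spec
      exact Or.inr ⟨h.choose, k1, k2, k3, hpos α h⟩
    · exact Or.inl (hneg α h)
  have hτ2 : ∀ α, quadraticChar F ((α * (2 * α ^ 2 + 1)) ^ 2 + 1) = 1 → τ α ≠ 0 := by
    intro α hα
    obtain ⟨m, hm⟩ : ∃ m : F, m = α * (2 * α ^ 2 + 1) := ⟨_, rfl⟩
    rw [← hm] at hα
    have ha0 : m ^ 2 + 1 ≠ 0 := by
      intro h0
      rw [h0, quadraticChar_zero] at hα
      exact absurd hα (by norm_num)
    obtain ⟨w, hw⟩ := (quadraticChar_one_iff_isSquare ha0).mp hα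
    have hw0 : w ≠ 0 := by
      rintro rfl
      exact ha0 (by rw [hw]; ring)
    have hz : (w + m) * (w - m) = 1 := by linear_combination -hw
    have hz0 : w + m ≠ 0 := by
      intro h0
      rw [h0, zero_mul] at hz
      exact zero_ne_one hz
    have h : ∃ z : F, z ≠ 0 ∧ z ^ 2 - 1 = 2 * z * (α * (2 * α ^ 2 + 1)) ∧ z ^ 2 + 1 ≠ 0 := by
      refine ⟨w + m, hz0, ?_, ?_⟩
      · rw [← hm]
        linear_combination hz
      · have e : (w + m) ^ 2 + 1 = 2 * w * (w + m) := by linear_combination hw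
        rw [e]
        exact mul_ne_zero (mul_ne_zero h2 hw0) hz0
    rw [hpos α h]
    intro h0
    exact h.choose_spec.2.2 (quadraticChar_eq_zero_iff.mp h0)
  have hτ3 : ∀ x, τ x = 0 ∨ τ x = 1 ∨ τ x = -1 := by
    intro x
    rcases hτ1 x with h | ⟨z, _, _, h3, h4⟩
    · exact Or.inl h
    · rw [h4]
      exact Or.inr (quadraticChar_dichotomy h3)
  obtain ⟨α, hα, hα1⟩ := hq0 F hodd hq (PP2 F) (alp_deg F) (fun T hT c g => nonsq2 F h2 T hT c g)
    ![-1, 1, -1, -1] (by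
      intro i
      fin_cases i
      · right; rfl
      · left; rfl
      · right; rfl
      · right; rfl) τ hτ3 (fun g hg hgd => hC F hodd τ hτ1 hτ2 g hg (by omega))
  have a0 : quadraticChar F (4 * α ^ 4 + 1) = -1 := by
    have h := hα 0
    have e : (PP2 F 0).eval α = 4 * α ^ 4 + 1 := by
      show (4 * Polynomial.X ^ 4 + 1 : Polynomial F).eval α = _
      simp
    rw [e] at h
    exact h
  have a1 : quadraticChar F (-(α * (2 * α ^ 2 + 1) * (2 * α ^ 2 + 2 * α + 1))) = 1 := by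
    have h := hα 1
    have e : (PP2 F 1).eval α = -(α * (2 * α ^ 2 + 1) * (2 * α ^ 2 + 2 * α + 1)) := by
      show (-(Polynomial.X * (2 * Polynomial.X ^ 2 + 1) *
        (2 * Polynomial.X ^ 2 + 2 * Polynomial.X + 1)) : Polynomial F).eval α = _
      simp
    rw [e] at h
    exact h
  have a2 : quadraticChar F (-(1 + α)) = -1 := by
    have h := hα 2
    have e : (PP2 F 2).eval α = -(1 + α) := by
      show (-(1 + Polynomial.X) : Polynomial F).eval α = _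
      simp only [Polynomial.eval_neg, Polynomial.eval_add, Polynomial.eval_one, Polynomial.eval_X]
    rw [e] at h
    exact h
  have a3 : quadraticChar F (1 + α ^ 2) = -1 := by
    have h := hα 3
    have e : (PP2 F 3).eval α = 1 + α ^ 2 := by
      show (1 + Polynomial.X ^ 2 : Polynomial F).eval α = _
      simp
    rw [e] at h
    exact h
  have key : ∀ a : F, quadraticChar F a = 1 → ∃ e : F, e ≠ 0 ∧ e ^ 2 = a := by
    intro a ha
    have ha0 : a ≠ 0 := by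
      rintro rfl
      rw [quadraticChar_zero] at ha
      exact absurd ha (by norm_num)
    obtain ⟨e, he⟩ := (quadraticChar_one_iff_isSquare ha0).mp ha
    refine ⟨e, ?_, by rw [he]; ring⟩
    rintro rfl
    exact ha0 (by rw [he]; ring)
  have hne : τ α ≠ 0 := by
    apply hτ2
    have e : (α * (2 * α ^ 2 + 1)) ^ 2 + 1 = (4 * α ^ 4 + 1) * (1 + α ^ 2) := by ring
    rw [e, map_mul, a0, a3]
    norm_num
  have hm1 : τ α = -1 := ((hτ3 α).resolve_left hne).resolve_left hα1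
  obtain ⟨z, k1, k2, _, k4⟩ := (hτ1 α).resolve_left hne
  refine ⟨α, ⟨h2, quadraticChar_neg_one_iff_not_isSquare.mp a0, key _ a1⟩,
    quadraticChar_neg_one_iff_not_isSquare.mp a2, quadraticChar_neg_one_iff_not_isSquare.mp a3,
    z, k1, k2, quadraticChar_neg_one_iff_not_isSquare.mp (k4.symm.trans hm1)⟩

end Pool.Agent.Lib.NG8
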