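import Pool.Agent.Lib.NG8.Defs
import Pool.Agent.Lib.NG5.Rel

/-!
# NG8 / EigP: eight points with the same norm

PROOF IN WORDS. Copy of `NG5/Eight.lean` (landed) without its first line (the data of `dir` are hypotheses here), with the additional conclusion `σ (σ y) ≠ -y` (`σ^2 y = ± y` is excluded there for `y`: `σ^2 y = f(s+ω) - u`, `u ≠ 0`, `f (s+ω) ≠ 0`; the other seven by applying `σ` and negation).
-/

set_option autoImplicit false

namespace Pool.Agent.Lib.NG8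

open Pool.Agent.Lib

theorem eight2 {F K : Type} [Field F] [Field K] [Algebra F K] (σ : K ≃ₐ[F] K) (hσ : NG5.Cyc F K σ) (α : F) (hg : GoodA F α)
    (f : F) (ω u : K) (hf : 16 * α ^ 5 * (2 * α ^ 2 + 2 * α + 1) * f ^ 2 = -(2 * α ^ 2 + 1))
    (hω : ω ^ 2 = algebraMap F K (4 * α ^ 4 + 1)) (hσω : σ ω = -ω) (hu0 : u ≠ 0)
    (hu : algebraMap F K (2 * α ^ 2 + 1) * u ^ 2 =
        algebraMap F K (2 * f ^ 2 * (2 * α ^ 2 + 2 * α + 1)) * (ω ^ 2 - algebraMap F K (2 * α ^ 2 - 1) * ω))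
    (hσu : σ u = (algebraMap F K (2 * α ^ 2 - 1) + ω) / algebraMap F K (2 * α) * u) :
    ∃ E : Finset K, E.card = 8 ∧ (∀ y ∈ E, Algebra.norm F y = -(1 / α ^ 2)) ∧
      ∀ y ∈ E, y ≠ 0 ∧ σ y = algebraMap F K α * y + y⁻¹ ∧ σ (σ y) ≠ y ∧ σ (σ y) ≠ -y := by
  classical
  obtain ⟨h2F, hns, ⟨e0, he0, he⟩⟩ := hg
  have he1 : α * (2 * α ^ 2 + 1) * (2 * α ^ 2 + 2 * α + 1) ≠ 0 := by
    intro h
    rw [h, neg_zero] at he
    exact he0 (pow_eq_zero_iff (two_ne_zero)|>.1 he)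
  have hα : α ≠ 0 := by
    rintro rfl
    exact he1 (by ring)
  have hd : 2 * α ^ 2 + 1 ≠ 0 := by
    intro h
    exact he1 (by rw [h]; ring)
  have hf0 : f ≠ 0 := by
    rintro rfl
    apply hd
    have h3 : -(2 * α ^ 2 + 1) = 0 := by rw [← hf]; ring
    exact neg_eq_zero.1 h3
  have hinj : Function.Injective (algebraMap F K) := (algebraMap F K).injective
  have h2K : (2 : K) ≠ 0 := by
    intro h
    apply h2F
    apply hinj
    rw [map_ofNat, map_zero]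
    exact h
  obtain ⟨a, ha⟩ : ∃ a, a = algebraMap F K α := ⟨_, rfl⟩
  obtain ⟨g, hg'⟩ : ∃ g, g = algebraMap F K f := ⟨_, rfl⟩
  have ha0 : a ≠ 0 := by
    rw [ha]
    exact (map_ne_zero (algebraMap F K)).2 hα
  have hg0 : g ≠ 0 := by
    rw [hg']
    exact (map_ne_zero (algebraMap F K)).2 hf0
  have hdK : 2 * a ^ 2 + 1 ≠ 0 := by
    have h3 := (map_ne_zero (algebraMap F K)).2 hd
    simpa only [map_add, map_mul, map_pow, map_ofNat, map_one, ← ha] using h3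
  have hfK : 16 * a ^ 5 * (2 * a ^ 2 + 2 * a + 1) * g ^ 2 = -(2 * a ^ 2 + 1) := by
    have h3 := congrArg (algebraMap F K) hf
    simpa only [map_add, map_mul, map_pow, map_ofNat, map_one, map_neg, ← ha, ← hg'] using h3
  have hωK : ω ^ 2 = 4 * a ^ 4 + 1 := by
    simpa only [map_add, map_mul, map_pow, map_ofNat, map_one, ← ha] using hω
  have huK : (2 * a ^ 2 + 1) * u ^ 2 =
      2 * g ^ 2 * (2 * a ^ 2 + 2 * a + 1) * (ω ^ 2 - (2 * a ^ 2 - 1) * ω) := by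
    simpa only [map_add, map_sub, map_mul, map_pow, map_ofNat, map_one, ← ha, ← hg'] using hu
  have hσuK : σ u = (2 * a ^ 2 - 1 + ω) / (2 * a) * u := by
    simpa only [map_add, map_sub, map_mul, map_pow, map_ofNat, map_one, ← ha] using hσu
  obtain ⟨r1, r3⟩ := NG5.rel h2K a g ω u ha0 hdK hfK hωK huK
  have hσa : σ a = a := by
    rw [ha]
    exact σ.commutes α
  have hσg : σ g = g := by
    rw [hg']
    exact σ.commutes f
  have e1 : σ (g * (2 * a ^ 2 + 2 * a + 1 + ω) + u) =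
      g * (2 * a ^ 2 + 2 * a + 1 - ω) + (2 * a ^ 2 - 1 + ω) / (2 * a) * u := by
    simp only [map_add, map_mul, map_pow, map_ofNat, map_one, hσa, hσg, hσω, hσuK]
    ring
  have e2 : σ (g * (2 * a ^ 2 + 2 * a + 1 - ω) + (2 * a ^ 2 - 1 + ω) / (2 * a) * u) =
      g * (2 * a ^ 2 + 2 * a + 1 + ω) - u := by
    simp only [map_add, map_sub, map_mul, map_pow, map_div₀, map_ofNat, map_one, hσa, hσg, hσω,
      hσuK]
    have h3 : (2 * a ^ 2 - 1 + -ω) / (2 * a) * ((2 * a ^ 2 - 1 + ω) / (2 * a) * u) = -u := by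
      field_simp
      linear_combination (-1 : K) * hωK
    rw [h3]
    ring
  have e3 : σ (g * (2 * a ^ 2 + 2 * a + 1 + ω) - u) =
      g * (2 * a ^ 2 + 2 * a + 1 - ω) - (2 * a ^ 2 - 1 + ω) / (2 * a) * u := by
    simp only [map_add, map_sub, map_mul, map_pow, map_ofNat, map_one, hσa, hσg, hσω, hσuK]
    ring
  obtain ⟨y, hy⟩ : ∃ y, y = g * (2 * a ^ 2 + 2 * a + 1 + ω) + u := ⟨_, rfl⟩
  have E1 : σ y = g * (2 * a ^ 2 + 2 * a + 1 - ω) + (2 * a ^ 2 - 1 + ω) / (2 * a) * u := by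
    rw [hy, e1]
  have E2 : σ (σ y) = g * (2 * a ^ 2 + 2 * a + 1 + ω) - u := by
    rw [E1, e2]
  have E3 : σ (σ (σ y)) = g * (2 * a ^ 2 + 2 * a + 1 - ω) - (2 * a ^ 2 - 1 + ω) / (2 * a) * u := by
    rw [E2, e3]
  rw [← hy, ← E1] at r1
  rw [← hy, ← E1, ← E2, ← E3] at r3
  have hy0 : y ≠ 0 := by
    intro h
    rw [h] at r1
    simp at r1
  have hrel : σ y = a * y + y⁻¹ := by
    field_simp
    linear_combination r1
  have hN : Algebra.norm F y = -(1 / α ^ 2) := by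
    apply hinj
    rw [hσ.norm y, map_neg, map_div₀, map_one, map_pow, ← ha, ← r3]
    ring
  -- inequalities
  have hω0 : ω ≠ 0 := by
    rintro rfl
    apply hns
    have h3 : algebraMap F K (4 * α ^ 4 + 1) = 0 := by
      rw [← hω]
      ring
    have h4 : (4 * α ^ 4 + 1 : F) = 0 := hinj (by rw [h3, map_zero])
    rw [h4]
    exact ⟨0, by ring⟩
  have hsω : 2 * a ^ 2 + 2 * a + 1 + ω ≠ 0 := by
    intro h
    have h3 : ω = -(2 * a ^ 2 + 2 * a + 1) := by linear_combination h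
    have h4 : σ ω = ω := by
      rw [h3]
      simp only [map_add, map_neg, map_mul, map_pow, map_ofNat, map_one, hσa]
    rw [hσω] at h4
    have h5 : 2 * ω = 0 := by linear_combination (-1 : K) * h4
    rcases mul_eq_zero.1 h5 with h6 | h6
    · exact h2K h6
    · exact hω0 h6
  have p02 : σ (σ y) ≠ y := by
    intro h
    rw [E2, hy] at h
    have h3 : 2 * u = 0 := by linear_combination (-1 : K) * h
    rcases mul_eq_zero.1 h3 with h6 | h6
    · exact h2K h6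
    · exact hu0 h6
  have q02 : σ (σ y) ≠ -y := by
    intro h
    rw [E2, hy] at h
    have h3 : 2 * (g * (2 * a ^ 2 + 2 * a + 1 + ω)) = 0 := by linear_combination h
    rcases mul_eq_zero.1 h3 with h6 | h6
    · exact h2K h6
    · rcases mul_eq_zero.1 h6 with h7 | h7
      · exact hg0 h7
      · exact hsω h7
  have q00 : y ≠ -y := by
    intro h
    have h3 : 2 * y = 0 := by linear_combination h
    rcases mul_eq_zero.1 h3 with h6 | h6
    · exact h2K h6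
    · exact hy0 h6
  have p01 : σ y ≠ y := by
    intro h
    exact p02 (by rw [h, h])
  have q01 : σ y ≠ -y := by
    intro h
    exact p02 (by rw [h, map_neg, h, neg_neg])
  have p03 : σ (σ (σ y)) ≠ y := by
    intro h
    have h3 := hσ.four y
    rw [h] at h3
    exact p01 h3
  have q03 : σ (σ (σ y)) ≠ -y := by
    intro h
    have h3 := hσ.four y
    rw [h, map_neg] at h3
    exact q01 (neg_eq_iff_eq_neg.1 h3)
  have map2 : ∀ b c : K, b ≠ c → σ b ≠ σ c := fun b c h h' => h (σ.injective h')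
  have map2n : ∀ b c : K, b ≠ -c → σ b ≠ -σ c := fun b c h h' => h (σ.injective (by rw [h', map_neg]))
  have neg2 : ∀ b c : K, b ≠ -c → c ≠ -b := fun b c h h' => h (by rw [h', neg_neg])
  have p12 := map2 _ _ p01
  have q12 := map2n _ _ q01
  have p13 := map2 _ _ p02
  have q13 := map2n _ _ q02
  have p23 := map2 _ _ p12
  have q23 := map2n _ _ q12
  have q11 := map2n _ _ q00
  have q22 := map2n _ _ q11
  have q33 := map2n _ _ q22
  have n01 := neg2 _ _ q01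
  have n02 := neg2 _ _ q02
  have n03 := neg2 _ _ q03
  have n12 := neg2 _ _ q12
  have n13 := neg2 _ _ q13
  have n23 := neg2 _ _ q23
  -- the properties
  have Qσ : ∀ z : K, (Algebra.norm F z = -(1 / α ^ 2) ∧ z ≠ 0 ∧ σ z = a * z + z⁻¹ ∧ σ (σ z) ≠ z ∧ σ (σ z) ≠ -z) →
      (Algebra.norm F (σ z) = -(1 / α ^ 2) ∧ σ z ≠ 0 ∧ σ (σ z) = a * σ z + (σ z)⁻¹ ∧
        σ (σ (σ z)) ≠ σ z ∧ σ (σ (σ z)) ≠ -σ z) := by
    rintro z ⟨c1, c2, c3, c4, c5⟩
    refine ⟨?_, ?_, ?_, map2 _ _ c4, map2n _ _ c5⟩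
    · rw [← c1]
      apply hinj
      rw [hσ.norm, hσ.norm, hσ.four]
      ring
    · exact (map_ne_zero σ).2 c2
    · have h3 := congrArg σ c3
      rwa [map_add, map_mul, map_inv₀, hσa] at h3
  have Qn : ∀ z : K, (Algebra.norm F z = -(1 / α ^ 2) ∧ z ≠ 0 ∧ σ z = a * z + z⁻¹ ∧ σ (σ z) ≠ z ∧ σ (σ z) ≠ -z) →
      (Algebra.norm F (-z) = -(1 / α ^ 2) ∧ -z ≠ 0 ∧ σ (-z) = a * (-z) + (-z)⁻¹ ∧
        σ (σ (-z)) ≠ -z ∧ σ (σ (-z)) ≠ -(-z)) := by
    rintro z ⟨c1, c2, c3, c4, c5⟩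
    refine ⟨?_, neg_ne_zero.2 c2, ?_, ?_, ?_⟩
    · rw [← c1]
      apply hinj
      rw [hσ.norm, hσ.norm]
      simp only [map_neg]
      ring
    · rw [map_neg, c3, inv_neg]
      ring
    · rw [map_neg, map_neg]
      intro h
      exact c4 (neg_injective h)
    · rw [map_neg, map_neg]
      intro h
      exact c5 (neg_injective h)
  have Q0 : Algebra.norm F y = -(1 / α ^ 2) ∧ y ≠ 0 ∧ σ y = a * y + y⁻¹ ∧ σ (σ y) ≠ y ∧ σ (σ y) ≠ -y :=
    ⟨hN, hy0, hrel, p02, q02⟩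
  have Q1 := Qσ _ Q0
  have Q2 := Qσ _ Q1
  have Q3 := Qσ _ Q2
  have hQ : ∀ z ∈ ([y, σ y, σ (σ y), σ (σ (σ y)), -y, -σ y, -σ (σ y), -σ (σ (σ y))] : List K),
      Algebra.norm F z = -(1 / α ^ 2) ∧ z ≠ 0 ∧ σ z = a * z + z⁻¹ ∧ σ (σ z) ≠ z ∧ σ (σ z) ≠ -z := by
    intro z hz
    simp only [List.mem_cons, List.not_mem_nil, or_false] at hz
    rcases hz with rfl | rfl | rfl | rfl | rfl | rfl | rfl | rfl
    · exact Q0
    · exact Q1
    · exact Q2
    · exact Q3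
    · exact Qn _ Q0
    · exact Qn _ Q1
    · exact Qn _ Q2
    · exact Qn _ Q3
  refine ⟨([y, σ y, σ (σ y), σ (σ (σ y)), -y, -σ y, -σ (σ y), -σ (σ (σ y))] : List K).toFinset,
    ?_, fun z hz => (hQ z (List.mem_toFinset.1 hz)).1, fun z hz => ?_⟩
  · rw [List.toFinset_card_of_nodup]
    · rfl
    · simp only [List.nodup_cons, List.mem_cons, List.not_mem_nil, or_false, not_or, neg_inj,
        not_false_eq_true, List.nodup_nil, and_true]
      exact ⟨⟨p01.symm, p02.symm, p03.symm, q00, n01, n02, n03⟩,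
        ⟨p12.symm, p13.symm, q01, q11, n12, n13⟩, ⟨p23.symm, q02, q12, q22, n23⟩,
        ⟨q03, q13, q23, q33⟩, ⟨p01.symm, p02.symm, p03.symm⟩, ⟨p12.symm, p13.symm⟩, p23.symm⟩
  · have h3 := (hQ z (List.mem_toFinset.1 hz)).2
    rw [ha] at h3
    exact h3

end Pool.Agent.Lib.NG8
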