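import Pool.Agent.Lib.NG8.Defs

/-!
# NG8 / SymP: four points with `σ^2 y = -y`

PROOF IN WORDS (all computed in `K`, `α, z, t` are images). `e = 2α^2-1`, `d = 2α^2+1`, `m = α d ≠ 0`, `α, d ≠ 0` by `GoodA`. `z ≠ 1` (`m ≠ 0`, `2 ≠ 0`). `w = (z^2+1)/(2z)`: `w^2 = m^2 + 1 = (4α^4+1)(1+α^2)`. `ω^2 - e^2 = 4α^2`, `ω ≠ 0`, `ρ = w/ω`: `ρ^2 = 1+α^2`, `σ ρ = -ρ`, `ρ ≠ ± 1`.
`u^2 = -ω(ω-e)/(8α^5)` (from `hu`, `hf`), `c = (e+ω)/(2α)`, `σ u = c u`. `μ = (e+ω)/(2(1-ρ))`, `σ μ = (e-ω)/(2(1+ρ))`, `μ σ(μ) = 1`. `h = 1 + σ μ`: `σ h = 1 + μ = μ h`, `h σ(h) = (1-w)/α^2 ≠ 0` (`ωρ = w`). `θ = t/(2α(1+α^2)(z-1))` in `F`, `θ^2 = w/(4α^2(1+α^2)(w-1))` (`w/(w-1) = (z^2+1)/(z-1)^2`).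
`y = θ h/u`: `y^2 = (1-ρ)/(αρ)` (`h^2 = h σ(h)/μ`), `σ y = θ μ h/(c u) = α y/(1-ρ) = α y + 1/y`, `σ^2 y = α^2 y/(1-ρ^2) = -y`. `Q = {y, -y, σ y, -σ y}`: `σ y ≠ ± y` since `σ^2 y = -y ≠ y`; all satisfy the relation (apply `σ`, negate). `t ≠ 0` as `z^2+1 ≠ 0`, `1+α^2 ≠ 0`.
-/

set_option autoImplicit false

namespace Pool.Agent.Lib.NG8

open Pool.Agent.Lib

private theorem core {K : Type} [Field K] (σ : K →+* K) (a z t f ω u : K) (sa : σ a = a) (sz : σ z = z)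
    (st : σ t = t) (h2 : (2 : K) ≠ 0) (ha0 : a ≠ 0) (hd : 2 * a ^ 2 + 1 ≠ 0) (hω0 : ω ≠ 0)
    (hf : 16 * a ^ 5 * (2 * a ^ 2 + 2 * a + 1) * f ^ 2 = -(2 * a ^ 2 + 1))
    (hω : ω ^ 2 = 4 * a ^ 4 + 1) (sω : σ ω = -ω) (hu0 : u ≠ 0)
    (hu : (2 * a ^ 2 + 1) * u ^ 2 = (2 * f ^ 2 * (2 * a ^ 2 + 2 * a + 1)) * (ω ^ 2 - (2 * a ^ 2 - 1) * ω))
    (su : σ u = ((2 * a ^ 2 - 1) + ω) / (2 * a) * u) (hz : z ≠ 0)
    (hzm : z ^ 2 - 1 = 2 * z * (a * (2 * a ^ 2 + 1))) (hz1 : z ^ 2 + 1 ≠ 0) (hα1 : 1 + a ^ 2 ≠ 0)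
    (ht : t ^ 2 = (z ^ 2 + 1) * (1 + a ^ 2)) :
    ∃ y : K, y ≠ 0 ∧ σ y = a * y + y⁻¹ ∧ σ (σ y) = -y := by
  have s2 : σ 2 = 2 := map_ofNat σ 2
  have ht0 : t ≠ 0 := by
    intro h
    rw [h] at ht
    exact mul_ne_zero hz1 hα1 (by rw [← ht]; ring)
  have hz1' : z - 1 ≠ 0 := by
    intro h
    have hz' : z = 1 := sub_eq_zero.mp h
    rw [hz'] at hzm
    have : 2 * (a * (2 * a ^ 2 + 1)) = 0 := by linear_combination -hzm
    exact mul_ne_zero h2 (mul_ne_zero ha0 hd) this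
  -- the square of `u`
  have hu2 : u ^ 2 * (8 * a ^ 5) = -(ω * (ω - (2 * a ^ 2 - 1))) := by
    apply mul_left_cancel₀ hd
    linear_combination 8 * a ^ 5 * hu + (ω ^ 2 - (2 * a ^ 2 - 1) * ω) * hf
  obtain ⟨w, hw⟩ : ∃ w, w = (z ^ 2 + 1) / (2 * z) := ⟨_, rfl⟩
  have h2z : 2 * z ≠ 0 := mul_ne_zero h2 hz
  have hwz : w * (2 * z) = z ^ 2 + 1 := by rw [hw]; field_simp
  have sw : σ w = w := by
    rw [hw]
    simp only [map_div₀, map_add, map_mul, map_pow, map_one, s2, sz]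
  have hw2 : w ^ 2 = (4 * a ^ 4 + 1) * (1 + a ^ 2) := by
    have h4 : (2 * z) ^ 2 ≠ 0 := pow_ne_zero 2 h2z
    apply mul_left_cancel₀ h4
    linear_combination (w * (2 * z) + (z ^ 2 + 1)) * hwz + (z ^ 2 - 1 + 2 * z * (a * (2 * a ^ 2 + 1))) * hzm
  have hw0 : w ≠ 0 := by
    intro h
    rw [h] at hwz
    exact hz1 (by rw [← hwz]; ring)
  have hw1 : (w - 1) * (2 * z) = (z - 1) ^ 2 := by linear_combination hwz
  have hw1' : w - 1 ≠ 0 := by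
    intro h
    rw [h, zero_mul] at hw1
    exact pow_ne_zero 2 hz1' hw1.symm
  obtain ⟨ρ, hρ⟩ : ∃ ρ, ρ = w / ω := ⟨_, rfl⟩
  have hρω : ρ * ω = w := by rw [hρ]; field_simp
  have hρ2 : ρ ^ 2 = 1 + a ^ 2 := by
    apply mul_left_cancel₀ (pow_ne_zero 2 hω0)
    linear_combination (ρ * ω + w) * hρω + hw2 - (1 + a ^ 2) * hω
  have sρ : σ ρ = -ρ := by
    rw [hρ, map_div₀, sw, sω, div_neg]
  have hp : (1 - ρ) * (1 + ρ) = -a ^ 2 := by linear_combination -hρ2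
  have ha2 : -a ^ 2 ≠ 0 := neg_ne_zero.mpr (pow_ne_zero 2 ha0)
  have h1m : 1 - ρ ≠ 0 := by
    intro h
    rw [h, zero_mul] at hp
    exact ha2 hp.symm
  have h1p : 1 + ρ ≠ 0 := by
    intro h
    rw [h, mul_zero] at hp
    exact ha2 hp.symm
  obtain ⟨μ, hμ⟩ : ∃ μ, μ = ((2 * a ^ 2 - 1) + ω) / (2 * (1 - ρ)) := ⟨_, rfl⟩
  obtain ⟨ν, hν⟩ : ∃ ν, ν = ((2 * a ^ 2 - 1) - ω) / (2 * (1 + ρ)) := ⟨_, rfl⟩
  have hμ' : μ * (2 * (1 - ρ)) = (2 * a ^ 2 - 1) + ω := by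
    rw [hμ]; exact div_mul_cancel₀ _ (mul_ne_zero h2 h1m)
  have hν' : ν * (2 * (1 + ρ)) = (2 * a ^ 2 - 1) - ω := by
    rw [hν]; exact div_mul_cancel₀ _ (mul_ne_zero h2 h1p)
  have sν : σ ν = μ := by
    rw [hν, hμ]
    simp only [map_div₀, map_add, map_sub, map_mul, map_pow, map_one, s2, sa, sω, sρ]
    congr 1 <;> ring
  have hμν : μ * ν = 1 := by
    have h4 : (4 : K) * (-a ^ 2) ≠ 0 := by
      have : (4 : K) = 2 * 2 := by norm_num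
      rw [this]
      exact mul_ne_zero (mul_ne_zero h2 h2) ha2
    apply mul_left_cancel₀ h4
    linear_combination (-4 * μ * ν) * hp + (ν * (2 * (1 + ρ))) * hμ' + ((2 * a ^ 2 - 1) + ω) * hν' - hω
  have hμ0 : μ ≠ 0 := left_ne_zero_of_mul_eq_one hμν
  obtain ⟨h, hh⟩ : ∃ h, h = 1 + ν := ⟨_, rfl⟩
  have sh : σ h = μ * h := by
    rw [hh, map_add, map_one, sν]
    linear_combination -hμν
  have hsum : (μ + ν) * a ^ 2 = -((2 * a ^ 2 - 1) + w) := by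
    apply mul_left_cancel₀ h2
    linear_combination (2 * (μ + ν)) * hp - (1 + ρ) * hμ' - (1 - ρ) * hν' - 2 * hρω
  have hhh : h ^ 2 * μ * a ^ 2 = 1 - w := by
    rw [hh]
    linear_combination (2 * a ^ 2 + ν * a ^ 2) * hμν + hsum
  have hh0 : h ≠ 0 := by
    intro h0
    rw [h0] at hhh
    exact hw1' (by linear_combination hhh)
  obtain ⟨θ, hθ⟩ : ∃ θ, θ = t / (2 * a * (1 + a ^ 2) * (z - 1)) := ⟨_, rfl⟩
  have hden : 2 * a * (1 + a ^ 2) * (z - 1) ≠ 0 :=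
    mul_ne_zero (mul_ne_zero (mul_ne_zero h2 ha0) hα1) hz1'
  have hθ' : θ * (2 * a * (1 + a ^ 2) * (z - 1)) = t := by rw [hθ]; exact div_mul_cancel₀ _ hden
  have hθ0 : θ ≠ 0 := by
    intro h0
    rw [h0, zero_mul] at hθ'
    exact ht0 hθ'.symm
  have sθ : σ θ = θ := by
    rw [hθ]
    simp only [map_div₀, map_add, map_sub, map_mul, map_pow, map_one, s2, sa, sz, st]
  have hθ2 : θ ^ 2 * (4 * a ^ 2 * (1 + a ^ 2) * (w - 1)) = w := by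
    apply mul_left_cancel₀ (mul_ne_zero hα1 h2z)
    linear_combination (4 * a ^ 2 * (1 + a ^ 2) ^ 2 * θ ^ 2) * hw1 +
      (θ * (2 * a * (1 + a ^ 2) * (z - 1)) + t) * hθ' + ht - (1 + a ^ 2) * hwz
  have h4 : (4 : K) ≠ 0 := by
    have : (4 : K) = 2 * 2 := by norm_num
    rw [this]
    exact mul_ne_zero h2 h2
  have key : θ ^ 2 * h ^ 2 * (a * ρ) = (1 - ρ) * u ^ 2 := by
    have c1 : θ ^ 2 * h ^ 2 * (a * ρ) * (4 * a ^ 3 * μ) = -ω := by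
      apply mul_left_cancel₀ (mul_ne_zero (mul_ne_zero hα1 hw1') ha0)
      linear_combination (h ^ 2 * μ * ρ * a ^ 3) * hθ2 + (w * a * ρ) * hhh + ((w - 1) * a * ρ) * hρω -
        ((w - 1) * a * ω) * hρ2
    have c2 : (1 - ρ) * u ^ 2 * (4 * a ^ 3 * μ) = -ω := by
      apply mul_left_cancel₀ (mul_ne_zero h4 (pow_ne_zero 2 ha0))
      linear_combination (2 * (1 - ρ) * μ) * hu2 - (ω * (ω - (2 * a ^ 2 - 1))) * hμ' - ω * hω
    exact mul_right_cancel₀ (mul_ne_zero (mul_ne_zero h4 (pow_ne_zero 3 ha0)) hμ0) (c1.trans c2.symm)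
  obtain ⟨y, hy⟩ : ∃ y, y = θ * h / u := ⟨_, rfl⟩
  have hyu : y * u = θ * h := by rw [hy]; exact div_mul_cancel₀ _ hu0
  have hy0 : y ≠ 0 := by
    rw [hy]
    exact div_ne_zero (mul_ne_zero hθ0 hh0) hu0
  have hy2 : y ^ 2 * (a * ρ) = 1 - ρ := by
    apply mul_right_cancel₀ (pow_ne_zero 2 hu0)
    linear_combination ((y * u + θ * h) * (a * ρ)) * hyu + key
  have hsy : σ y * (1 - ρ) = a * y := by
    have h1 : σ y * σ u = θ * (μ * h) := by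
      rw [← map_mul, hyu, map_mul, sθ, sh]
    rw [su] at h1
    have h3 : σ y * (((2 * a ^ 2 - 1) + ω) / (2 * a) * u) * (2 * a) = σ y * ((2 * a ^ 2 - 1) + ω) * u := by
      field_simp
    rw [h1] at h3
    apply mul_left_cancel₀ (mul_ne_zero (mul_ne_zero h2 hμ0) hu0)
    linear_combination (σ y * u) * hμ' - h3 - (2 * a * μ) * hyu
  refine ⟨y, hy0, ?_, ?_⟩
  · apply mul_right_cancel₀ h1m
    rw [hsy]
    have hyy : y⁻¹ * y = 1 := inv_mul_cancel₀ hy0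
    linear_combination y⁻¹ * hy2 - (y * a * ρ) * hyy
  · have h1 : σ (σ y) * (1 + ρ) = a * σ y := by
      have := congrArg σ hsy
      rw [map_mul, map_mul, map_sub, map_one, sρ, sa, sub_neg_eq_add] at this
      exact this
    apply mul_left_cancel₀ ha2
    linear_combination (-σ (σ y)) * hp + (1 - ρ) * h1 + a * hsy

theorem sym4 {F K : Type} [Field F] [Field K] [Algebra F K] (σ : K ≃ₐ[F] K) (hσ : NG5.Cyc F K σ) (α : F) (hg : GoodA F α)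
    (f : F) (ω u : K) (hf : 16 * α ^ 5 * (2 * α ^ 2 + 2 * α + 1) * f ^ 2 = -(2 * α ^ 2 + 1))
    (hω : ω ^ 2 = algebraMap F K (4 * α ^ 4 + 1)) (hσω : σ ω = -ω) (hu0 : u ≠ 0)
    (hu : algebraMap F K (2 * α ^ 2 + 1) * u ^ 2 =
        algebraMap F K (2 * f ^ 2 * (2 * α ^ 2 + 2 * α + 1)) * (ω ^ 2 - algebraMap F K (2 * α ^ 2 - 1) * ω))
    (hσu : σ u = (algebraMap F K (2 * α ^ 2 - 1) + ω) / algebraMap F K (2 * α) * u) (z t : F) (hz : z ≠ 0)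
    (hzm : z ^ 2 - 1 = 2 * z * (α * (2 * α ^ 2 + 1))) (hz1 : z ^ 2 + 1 ≠ 0) (hα1 : 1 + α ^ 2 ≠ 0)
    (ht : t ^ 2 = (z ^ 2 + 1) * (1 + α ^ 2)) :
    ∃ Q : Finset K, Q.card = 4 ∧ ∀ y ∈ Q, y ≠ 0 ∧ σ y = algebraMap F K α * y + y⁻¹ ∧ σ (σ y) = -y := by
  classical
  obtain ⟨h2, hns, e', he', hee⟩ := hg
  have hprod : α * (2 * α ^ 2 + 1) * (2 * α ^ 2 + 2 * α + 1) ≠ 0 := by
    intro h
    rw [h, neg_zero] at hee
    exact pow_ne_zero 2 he' hee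
  have hα0 : α ≠ 0 := left_ne_zero_of_mul (left_ne_zero_of_mul hprod)
  have hd : 2 * α ^ 2 + 1 ≠ 0 := right_ne_zero_of_mul (left_ne_zero_of_mul hprod)
  have h41 : 4 * α ^ 4 + 1 ≠ 0 := by
    intro h
    exact hns (by rw [h]; exact IsSquare.zero)
  have inj : ∀ x : F, x ≠ 0 → algebraMap F K x ≠ 0 := fun x hx =>
    (map_ne_zero (algebraMap F K)).mpr hx
  have h2K : (2 : K) ≠ 0 := by
    have := inj 2 h2
    rwa [map_ofNat] at this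
  have hω0 : ω ≠ 0 := by
    intro h
    rw [h] at hω
    exact inj _ h41 (by rw [← hω]; ring)
  have sF : ∀ x : F, (σ : K →+* K) (algebraMap F K x) = algebraMap F K x := fun x => σ.commutes x
  have hfK := congrArg (algebraMap F K) hf
  have hzmK := congrArg (algebraMap F K) hzm
  have htK := congrArg (algebraMap F K) ht
  have hdK := inj _ hd
  have hz1K := inj _ hz1
  have hα1K := inj _ hα1
  simp only [map_mul, map_add, map_sub, map_neg, map_pow, map_one, map_ofNat] at hfK hzmK htK hdK hz1K hα1K hω hu hσu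
  obtain ⟨y, hy0, hy1, hy2⟩ := core (σ : K →+* K) (algebraMap F K α) (algebraMap F K z) (algebraMap F K t)
    (algebraMap F K f) ω u (sF α) (sF z) (sF t) h2K (inj _ hα0) hdK hω0 hfK hω hσω hu0 hu hσu (inj _ hz) hzmK
    hz1K hα1K htK
  replace hy1 : σ y = algebraMap F K α * y + y⁻¹ := hy1
  replace hy2 : σ (σ y) = -y := hy2
  have hyn : y ≠ -y := by
    intro h
    have : 2 * y = 0 := by linear_combination h
    exact mul_ne_zero h2K hy0 this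
  have hs0 : σ y ≠ 0 := (map_ne_zero σ).mpr hy0
  have hsn : σ y ≠ -σ y := by
    intro h
    have : 2 * σ y = 0 := by linear_combination h
    exact mul_ne_zero h2K hs0 this
  have n1 : y ≠ σ y := by
    intro h
    have h' : σ (σ y) = y := by rw [← h, ← h]
    exact hyn (h'.symm.trans hy2)
  have n2 : y ≠ -σ y := by
    intro h
    have h1 : σ y = y := by
      have := congrArg σ h
      rw [map_neg, hy2, neg_neg] at this
      exact this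
    rw [h1] at h
    exact hyn h
  have n3 : -y ≠ σ y := fun h => n2 (by rw [← h, neg_neg])
  have n4 : -y ≠ -σ y := fun h => n1 (neg_injective h)
  refine ⟨{y, -y, σ y, -σ y}, ?_, ?_⟩
  · rw [Finset.card_insert_of_notMem, Finset.card_insert_of_notMem, Finset.card_pair hsn]
    · simp only [Finset.mem_insert, Finset.mem_singleton, not_or]
      exact ⟨n3, n4⟩
    · simp only [Finset.mem_insert, Finset.mem_singleton, not_or]
      exact ⟨hyn, n1, n2⟩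
  · have neg : ∀ x : K, (x ≠ 0 ∧ σ x = algebraMap F K α * x + x⁻¹ ∧ σ (σ x) = -x) →
        (-x ≠ 0 ∧ σ (-x) = algebraMap F K α * (-x) + (-x)⁻¹ ∧ σ (σ (-x)) = -(-x)) := by
      rintro x ⟨h0, h1, h2⟩
      refine ⟨neg_ne_zero.mpr h0, ?_, ?_⟩
      · rw [map_neg, h1, inv_neg]
        ring
      · rw [map_neg, map_neg, h2]
    have P1 : y ≠ 0 ∧ σ y = algebraMap F K α * y + y⁻¹ ∧ σ (σ y) = -y := ⟨hy0, hy1, hy2⟩
    have P2 : σ y ≠ 0 ∧ σ (σ y) = algebraMap F K α * σ y + (σ y)⁻¹ ∧ σ (σ (σ y)) = -σ y := by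
      refine ⟨hs0, ?_, ?_⟩
      · have := congrArg σ hy1
        rw [map_add, map_mul, map_inv₀, σ.commutes] at this
        exact this
      · rw [hy2, map_neg]
    intro x hx
    simp only [Finset.mem_insert, Finset.mem_singleton] at hx
    rcases hx with rfl | rfl | rfl | rfl
    · exact P1
    · exact neg _ P1
    · exact P2
    · exact neg _ P2

end Pool.Agent.Lib.NG8
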