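import Pool.Agent.Lib.NG8.Defs

/-!
# NG8 / TwoP: two more points

PROOF IN WORDS. Second half of `NG5/Four.lean` (landed): `-(1+α)` is not a square of `F`, its image in `K` is a square `t0^2` (`Cyc.sq`), `σ t0 = -t0` (`Cyc.fix`); `t = t0⁻¹`: `σ t = -t`, `α t + t⁻¹ = -t`. `W = {t, -t}`.
-/

set_option autoImplicit false

namespace Pool.Agent.Lib.NG8

open Pool.Agent.Lib

theorem two_points {F K : Type} [Field F] [Field K] [Algebra F K] (σ : K ≃ₐ[F] K) (h1 : NG5.Cyc F K σ) (α : F)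
    (h2 : (2 : F) ≠ 0) (hns : ¬ IsSquare (-(1 + α))) :
    ∃ W : Finset K, W.card = 2 ∧ ∀ y ∈ W, y ≠ 0 ∧ σ y = algebraMap F K α * y + y⁻¹ ∧ σ (σ y) = y := by
  classical
  have h2K : (2 : K) ≠ 0 := by
    have h3 : algebraMap F K 2 ≠ 0 := by
      rw [Ne, map_eq_zero]
      exact h2
    rwa [map_ofNat] at h3
  have hfx : σ (σ (algebraMap F K (-(1 + α)))) = algebraMap F K (-(1 + α)) := by
    rw [AlgEquiv.commutes, AlgEquiv.commutes]
  obtain ⟨t0, ht0⟩ := h1.sq _ hfx
  have ht00 : t0 ≠ 0 := by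
    intro h
    rw [h, mul_zero, map_eq_zero] at ht0
    exact hns ⟨0, by rw [ht0, mul_zero]⟩
  have hσt0 : σ t0 = -t0 := by
    have h3 : σ t0 * σ t0 = t0 * t0 := by
      rw [← map_mul, ← ht0, AlgEquiv.commutes]
    rcases mul_self_eq_mul_self_iff.1 h3 with h | h
    · exfalso
      obtain ⟨c, hc⟩ := h1.fix t0 h
      apply hns
      refine ⟨c, ?_⟩
      apply (algebraMap F K).injective
      rw [ht0, map_mul, hc]
    · exact h
  have ht2 : t0 ^ 2 = -(1 + algebraMap F K α) := by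
    rw [sq, ← ht0, map_neg, map_add, map_one]
  obtain ⟨t, htdef⟩ : ∃ t : K, t = t0⁻¹ := ⟨_, rfl⟩
  have ht0' : t ≠ 0 := by
    rw [htdef]
    exact inv_ne_zero ht00
  have hσt : σ t = -t := by
    rw [htdef, map_inv₀, hσt0, inv_neg]
  have htr : algebraMap F K α * t + t⁻¹ = -t := by
    rw [htdef, inv_inv]
    have h3 : algebraMap F K α = -t0 ^ 2 - 1 := by
      rw [ht2]
      ring
    rw [h3]
    field_simp
    ring
  have htt : t ≠ -t := by
    intro h
    have h3 : 2 * t = 0 := by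
      calc 2 * t = t + t := by ring
        _ = t + -t := by rw [← h]
        _ = 0 := by ring
    rcases mul_eq_zero.1 h3 with h4 | h4
    · exact h2K h4
    · exact ht0' h4
  refine ⟨{t, -t}, Finset.card_pair htt, ?_⟩
  intro y hy
  rw [Finset.mem_insert, Finset.mem_singleton] at hy
  rcases hy with h | h
  · rw [h]
    exact ⟨ht0', by rw [hσt, htr], by rw [hσt, map_neg, hσt, neg_neg]⟩
  · rw [h]
    refine ⟨neg_ne_zero.2 ht0', ?_, by rw [map_neg, hσt, neg_neg, hσt]⟩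
    rw [map_neg, hσt, inv_neg, mul_neg, ← neg_add, htr]

end Pool.Agent.Lib.NG8
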