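import Pool.Agent.Lib.NG8.DirP
import Pool.Agent.Lib.NG8.EigP
import Pool.Agent.Lib.NG8.SymP
import Pool.Agent.Lib.NG8.TwoP
import Pool.Agent.Lib.NG5.Key
import Pool.Agent.Lib.NG5.Bic
import Pool.Agent.Lib.NG5.Norm

/-!
# NG8 / AsmP: the bicliques for a good parameter

PROOF IN WORDS (adapt `NG5/Asm.lean`, landed). `φ` from `exists_cyc`, `σ` and the data from `dir2`, `E` from `eight2`, `Q` from `sym4` (`(z^2+1)(1+α^2)` is a product of two non-squares of a finite field, so a square `t^2`), `W` from `two_points`; pairwise disjoint (`σ^2 y` is `≠ ± y`, `= -y`, `= y`, `2 ≠ 0`, `y ≠ 0`): `U = E ∪ Q ∪ W` has 14 elements. `A ⊆ E` with `a` elements,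
`B = (U \ A).image ι ∪ {0}`, `ι y = (α y)⁻¹`, `card B = 15 - a`; `key`, `bic`: `K_{a, 16-a}`; `a + (15-a) + a (15-a) ≤ 15 + 56 = 71 < 81 ≤ card K`.
-/

set_option autoImplicit false

namespace Pool.Agent.Lib.NG8

open SimpleGraph Pool.Agent.Lib Pool.Agent.Lib.MP_f4a4e4_co.NGX

theorem asm2 {F K : Type} [Field F] [Field K] [Finite K] [Algebra F K] (hK : Module.finrank F K = 4) (α : F)
    (hg : Good2 F α) (a b : ℕ) (ha : a ≤ 8) (hab : a + b = 16) :
    completeBipartiteGraph (Fin a) (Fin b) ⊑ NormGraph F K := by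
  classical
  obtain ⟨φ, c1, c2⟩ := NG5.exists_cyc F K hK
  obtain ⟨hgA, hns1, hns2, z, hz, hzm, hns3⟩ := hg
  obtain ⟨σ, hσ, f, ω, u, hf, hω, hσω, hu0, hu, hσu⟩ := dir2 φ c1 c2 α hgA
  obtain ⟨E, hE8, hEn, hE⟩ := eight2 σ hσ α hgA f ω u hf hω hσω hu0 hu hσu
  have h2 := hgA.1
  have hz1 : z ^ 2 + 1 ≠ 0 := fun h => hns3 (by rw [h]; exact IsSquare.zero)
  have hα1 : 1 + α ^ 2 ≠ 0 := fun h => hns2 (by rw [h]; exact IsSquare.zero)
  obtain ⟨t, ht⟩ : ∃ t : F, t ^ 2 = (z ^ 2 + 1) * (1 + α ^ 2) := by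
    haveI : Finite F := Finite.of_injective (algebraMap F K) (algebraMap F K).injective
    haveI := Fintype.ofFinite F
    have e1 : quadraticChar F ((z ^ 2 + 1) * (1 + α ^ 2)) = 1 := by
      rw [map_mul, quadraticChar_neg_one_iff_not_isSquare.2 hns3,
        quadraticChar_neg_one_iff_not_isSquare.2 hns2]
      norm_num
    obtain ⟨t, ht⟩ := (quadraticChar_one_iff_isSquare (mul_ne_zero hz1 hα1)).1 e1
    exact ⟨t, by rw [ht, sq]⟩
  obtain ⟨Q, hQ4, hQ⟩ := sym4 σ hσ α hgA f ω u hf hω hσω hu0 hu hσu z t hz hzm hz1 hα1 ht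
  obtain ⟨W, hW2, hW⟩ := two_points σ hσ α h2 hns1
  have hα : α ≠ 0 := by
    intro h0
    obtain ⟨e, he0, he⟩ := hgA.2.2
    rw [h0, zero_mul, zero_mul, neg_zero] at he
    exact he0 ((pow_eq_zero_iff two_ne_zero).1 he)
  have hα' : algebraMap F K α ≠ 0 := fun h => hα ((algebraMap F K).injective (by rw [h, map_zero]))
  have h2K : (2 : K) ≠ 0 := by
    intro h
    apply h2
    apply (algebraMap F K).injective
    rw [map_ofNat, map_zero, h]
  have hdisj1 : Disjoint E Q := Finset.disjoint_left.2 fun y h1 h2 => (hE y h1).2.2.2 (hQ y h2).2.2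
  have hdisj2 : Disjoint (E ∪ Q) W := by
    refine Finset.disjoint_left.2 fun y h1 h3 => ?_
    rcases Finset.mem_union.1 h1 with h | h
    · exact (hE y h).2.2.1 (hW y h3).2.2
    · have e1 := (hQ y h).2.2
      rw [(hW y h3).2.2] at e1
      have e2 : 2 * y = 0 := by linear_combination e1
      rcases mul_eq_zero.1 e2 with h5 | h5
      · exact h2K h5
      · exact (hQ y h).1 h5
  have hU : (E ∪ Q ∪ W).card = 14 := by
    rw [Finset.card_union_of_disjoint hdisj2, Finset.card_union_of_disjoint hdisj1, hE8, hQ4, hW2]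
  have hUy : ∀ y ∈ E ∪ Q ∪ W, y ≠ 0 ∧ σ y = algebraMap F K α * y + y⁻¹ := by
    intro y hy
    rcases Finset.mem_union.1 hy with h | h
    · rcases Finset.mem_union.1 h with h | h
      · exact ⟨(hE y h).1, (hE y h).2.1⟩
      · exact ⟨(hQ y h).1, (hQ y h).2.1⟩
    · exact ⟨(hW y h).1, (hW y h).2.1⟩
  obtain ⟨A, hAE, hAc⟩ := Finset.exists_subset_card_eq (show a ≤ E.card by rw [hE8]; exact ha)
  have hAU : A ⊆ E ∪ Q ∪ W :=
    hAE.trans (Finset.subset_union_left.trans Finset.subset_union_left)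
  set ι : K → K := fun y => (algebraMap F K α * y)⁻¹ with hι
  have hinj : Function.Injective ι := by
    intro x y hxy
    exact mul_left_cancel₀ hα' (inv_injective hxy)
  have hι0 : ∀ y, y ≠ 0 → ι y ≠ 0 := fun y hy => inv_ne_zero (mul_ne_zero hα' hy)
  set B : Finset K := insert 0 (((E ∪ Q ∪ W) \ A).image ι) with hB
  have h0B : (0 : K) ∉ ((E ∪ Q ∪ W) \ A).image ι := by
    intro h
    obtain ⟨y, hy, hy0⟩ := Finset.mem_image.1 h
    exact hι0 y (hUy y (Finset.mem_sdiff.1 hy).1).1 hy0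
  have hBc : B.card = 15 - a := by
    rw [hB, Finset.card_insert_of_notMem h0B, Finset.card_image_of_injective _ hinj,
      Finset.card_sdiff_of_subset hAU, hU, hAc]
    omega
  have hkey : ∀ x ∈ A, ∀ y ∈ (E ∪ Q ∪ W) \ A,
      x ≠ ι y ∧ Algebra.norm F (x - ι y) = Algebra.norm F x * (α ^ 4)⁻¹ := by
    intro x hx y hy
    have hy' := Finset.mem_sdiff.1 hy
    have hxU := hUy x (hAU hx)
    have hyU := hUy y hy'.1
    exact NG5.key σ hσ α hα x y hxU.1 hyU.1 hxU.2 hyU.2 (fun h => hy'.2 (h ▸ hx))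
  have hF3 : 3 ≤ Nat.card F := by
    haveI : Finite F := Finite.of_injective (algebraMap F K) (algebraMap F K).injective
    haveI := Fintype.ofFinite F
    rw [Nat.card_eq_fintype_card]
    have h3 : ({0, 1, -1} : Finset F).card = 3 := by
      refine Finset.card_eq_three.2 ⟨0, 1, -1, zero_ne_one, (neg_ne_zero.2 one_ne_zero).symm, ?_, rfl⟩
      intro h
      apply h2
      have h5 : (1 : F) + 1 = 0 := by
        nth_rewrite 1 [h]
        exact neg_add_cancel 1
      rw [← one_add_one_eq_two]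
      exact h5
    rw [← h3]
    exact Finset.card_le_univ _
  have hK81 : 81 ≤ Nat.card K := by
    haveI : Module.Finite F K := Module.finite_of_finrank_pos (by rw [hK]; norm_num)
    rw [Module.natCard_eq_pow_finrank (K := F), hK]
    calc 81 = 3 ^ 4 := by norm_num
      _ ≤ Nat.card F ^ 4 := Nat.pow_le_pow_left hF3 4
  have h56 : ∀ a ≤ 8, a * (15 - a) ≤ 56 := by decide
  have main := NG5.bic hK A B (-(1 / α ^ 2)) (fun y => if y = 0 then 1 else (α ^ 4)⁻¹)
    (neg_ne_zero.2 (one_div_ne_zero (pow_ne_zero 2 hα)))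
    (by
      intro y _
      beta_reduce
      split_ifs
      · exact one_ne_zero
      · exact inv_ne_zero (pow_ne_zero 4 hα))
    (by
      intro x hx y hy
      rcases Finset.mem_insert.1 hy with h | h
      · rw [h]
        exact (hUy x (hAU hx)).1
      · obtain ⟨u, hu, rfl⟩ := Finset.mem_image.1 h
        exact (hkey x hx u hu).1)
    (by
      intro x hx y hy
      rcases Finset.mem_insert.1 hy with h | h
      · rw [h, sub_zero, hEn x (hAE hx), if_pos rfl, mul_one]
      · obtain ⟨u, hu, rfl⟩ := Finset.mem_image.1 h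
        rw [(hkey x hx u hu).2, hEn x (hAE hx), if_neg (hι0 u (hUy u (Finset.mem_sdiff.1 hu).1).1)])
    (by
      rw [hAc, hBc]
      have h6 := h56 a ha
      omega)
  have hb : B.card + 1 = b := by omega
  rw [hAc, hb] at main
  exact main

end Pool.Agent.Lib.NG8
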