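import Mathlib

/-!
# NG8 / KerP (quartic Stepanov 2): linear algebra

PROOF IN WORDS (adapt `NG5/Ker.lean`, landed). The linear map from `Fin 4 → Fin J → degreeLT E A` (dimension `4 J A`) to `∀ k : Fin l, degreeLT E (A + k M + J)` has a nonzero kernel. Extend by `0` for `j ≥ J`.
-/

set_option autoImplicit false

namespace Pool.Agent.Lib.NG8

open Polynomial

private theorem ker_mul {F : Type} [Field F] {B J j : ℕ} (hj : j < J) {r : F[X]} (hr : r ∈ degreeLT F B) : r * X ^ j ∈ degreeLT F (B + J) := by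
  rw [mem_degreeLT, degree_lt_iff_coeff_zero] at hr ⊢
  intro m hm
  rw [coeff_mul_X_pow']
  split_ifs with h
  · exact hr _ (by omega)
  · rfl

private instance ker_fd {F : Type} [Field F] (n : ℕ) : FiniteDimensional F (degreeLT F n) := (degreeLTEquiv F n).symm.finiteDimensional

private theorem ker_fr {F : Type} [Field F] (n : ℕ) : Module.finrank F (degreeLT F n) = n := by
  rw [(degreeLTEquiv F n).finrank_eq, Module.finrank_fin_fun]

/-- the linear map -/
private noncomputable def kerT {F : Type} [Field F] (A J : ℕ) (η : F) (L : Fin 4 → F[X] →ₗ[F] F[X]) :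
    (Fin 4 → Fin J → degreeLT F A) →ₗ[F] F[X] :=
  ∑ j : Fin J, (LinearMap.mulRight F (X ^ (j : ℕ) : F[X])).comp
    (∑ i : Fin 4, (LinearMap.mulLeft F (C (η ^ (i : ℕ)))).comp
      ((L i).comp ((degreeLT F A).subtype.comp ((LinearMap.proj j).comp
        (LinearMap.proj (R := F) (φ := fun _ : Fin 4 => Fin J → degreeLT F A) i)))))

private theorem kerT_apply {F : Type} [Field F] (A J : ℕ) (η : F) (L : Fin 4 → F[X] →ₗ[F] F[X])
    (x : Fin 4 → Fin J → degreeLT F A) :
    kerT A J η L x = ∑ j : Fin J, (∑ i : Fin 4, C (η ^ (i : ℕ)) * L i (x i j : F[X])) * X ^ (j : ℕ) := by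
  unfold kerT
  rw [LinearMap.sum_apply]
  refine Finset.sum_congr rfl fun j _ => ?_
  rw [LinearMap.comp_apply, LinearMap.mulRight_apply, LinearMap.sum_apply]
  rfl

theorem exists_ker4 {E : Type} [Field E] (l A J M : ℕ) (η : E) (L : ℕ → Fin 4 → E[X] →ₗ[E] E[X])
    (hL : ∀ k < l, ∀ i, ∀ r ∈ degreeLT E A, L k i r ∈ degreeLT E (A + k * M))
    (hc : ∑ k ∈ Finset.range l, (A + k * M + J) < 4 * J * A) :
    ∃ r : Fin 4 → ℕ → E[X], (∀ i j, r i j ∈ degreeLT E A) ∧ (∃ i, ∃ j < J, r i j ≠ 0) ∧
      ∀ k < l, ∑ j ∈ Finset.range J, (∑ i : Fin 4, C (η ^ (i : ℕ)) * L k i (r i j)) * X ^ j = 0 := by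
  classical
  let T : (Fin 4 → Fin J → degreeLT E A) →ₗ[E] ((k : Fin l) → degreeLT E (A + k * M + J)) :=
    LinearMap.pi fun k => LinearMap.codRestrict _ (kerT A J η (L k)) fun x => by
      rw [kerT_apply]
      refine Submodule.sum_mem _ fun j _ => ker_mul j.2 (Submodule.sum_mem _ fun i _ => ?_)
      rw [C_mul']
      exact Submodule.smul_mem _ _ (hL k k.2 i _ (x i j).2)
  have hfr : Module.finrank E ((k : Fin l) → degreeLT E (A + k * M + J)) <
      Module.finrank E (Fin 4 → Fin J → degreeLT E A) := by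
    rw [Module.finrank_pi_fintype, Module.finrank_pi_fintype]
    simp only [Module.finrank_pi_fintype, ker_fr, Finset.sum_const, Finset.card_univ, Fintype.card_fin,
      smul_eq_mul]
    rw [← Finset.sum_range fun k => A + k * M + J]
    calc _ < 4 * J * A := hc
      _ = _ := by ring
  obtain ⟨x, hx, hx0⟩ := (Submodule.ne_bot_iff _).1 (LinearMap.ker_ne_bot_of_finrank_lt (f := T) hfr)
  refine ⟨fun i j => if h : j < J then (x i ⟨j, h⟩ : E[X]) else 0, fun i j => ?_, ?_, fun k hk => ?_⟩
  · by_cases h : j < J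
    · simp only [h, dif_pos]
      exact (x i ⟨j, h⟩).2
    · simp only [h]
      exact Submodule.zero_mem _
  · by_contra hc
    push Not at hc
    refine hx0 (funext fun i => funext fun j => Subtype.ext ?_)
    have := hc i j j.2
    rw [dif_pos j.2] at this
    exact this
  · have h1 : kerT A J η (L k) x = 0 := by
      have h2 := congrFun (LinearMap.mem_ker.1 hx) ⟨k, hk⟩
      exact congrArg Subtype.val h2
    rw [kerT_apply] at h1
    rw [Finset.sum_range]
    refine Eq.trans (Finset.sum_congr rfl fun j _ => ?_) h1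
    beta_reduce
    congr 1
    refine Finset.sum_congr rfl fun i _ => ?_
    rw [dif_pos j.2]

end Pool.Agent.Lib.NG8
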