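import Pool.Agent.Lib.NG8.VanA

/-!
# NG8 / VanB (quartic Stepanov 4): the auxiliary polynomial does not vanish

PROOF IN WORDS. `q = card F` is a power of the characteristic of `E`, so `f^q ≡ C (f(0)^q)` modulo `X^q` for `f` in `E[X]` (`f^q = ∑ a_i^q X^(iq)`; `expand`, `Polynomial.map` of the Frobenius, or `add_pow_char_pow`). `Y₁ = f₁^n g^h`, `h = (q-1)/2`, `Y₂ = f₂^n`; `q` is odd by `hn`, `4 h = 2 (q - 1)`. `c₁ = f₁(0)^q g(0)^(2q)`,
`c₂ = f₂(0)^q`, both nonzero. If `4n + 1 = q`: `V₁ = C c₂ * (f₁ g^2)`, `V₂ = C c₁ * f₂`: `Y₁^4 V₁ = c₂ f₁^q g^(2q) ≡ c₁ c₂ ≡ Y₂^4 V₂`. If `4n = q + 1`: `V₁ = C c₂ * (f₂ g^2)`, `V₂ = C c₁ * f₁`: `Y₁^4 V₁ = c₂ f₁ f₂ (f₁^q g^(2q)) ≡ c₁ c₂ f₁ f₂ ≡ Y₂^4 V₂`. The hypotheses `h1`, `h2` of `cong_zero`: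
`c f₁ (g x)^2 = c' f₂ y^2`, `x ≠ 0`, multiplied by `f₂`: `(g x)^2 ∣ (f₂ y)^2`, `f₂ y = g x G`, `f₁ f₂ = (c'/c) G^2` against `hns`; so `x = 0`, `y = 0` (the other case the same with `f₁`). Induction on `J`: modulo `X^q` only `j = 0` counts, `cong_zero` gives `r i 0 = 0`; cancel `X^q`, shift.
-/

set_option autoImplicit false

namespace Pool.Agent.Lib.NG8

open Polynomial

private lemma vb_dvd {F E : Type} [Field F] [Fintype F] [Field E] [Algebra F E] (f : E[X]) :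
    X ^ Fintype.card F ∣ f ^ Fintype.card F - C (f.eval 0 ^ Fintype.card F) := by
  classical
  obtain ⟨p, hp⟩ := CharP.exists F
  have := hp
  obtain ⟨n, hpp, hn⟩ := FiniteField.card F p
  have : Fact p.Prime := ⟨hpp⟩
  have : CharP E p := charP_of_injective_algebraMap (algebraMap F E).injective p
  have h1 := divX_mul_X_add f
  have h2 : f ^ Fintype.card F = (divX f) ^ Fintype.card F * X ^ Fintype.card F + C (f.coeff 0 ^ Fintype.card F) := by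
    conv_lhs => rw [← h1]
    rw [hn, add_pow_char_pow, mul_pow, C_pow]
  rw [h2, ← coeff_zero_eq_eval_zero, add_sub_cancel_right]
  exact Dvd.intro_left _ rfl

private lemma vb_mul {E : Type} [Field E] {q : ℕ} {a b : E[X]} {x y : E} (h1 : X ^ q ∣ a - C x)
    (h2 : X ^ q ∣ b - C y) : X ^ q ∣ a * b - C (x * y) := by
  have e : a * b - C (x * y) = (a - C x) * b + C x * (b - C y) := by
    rw [C_mul]
    ring
  rw [e]
  exact dvd_add (dvd_mul_of_dvd_left h1 _) (dvd_mul_of_dvd_right h2 _)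

private lemma vb_ns {E : Type} [Field E] {f f' g : E[X]} (hf' : f' ≠ 0) (hg : g ≠ 0)
    (hns : ∀ (c : E) (G : E[X]), f * f' ≠ C c * G ^ 2) {c c' : E} (hc : c ≠ 0) (hc' : c' ≠ 0) (x y : E[X])
    (h : C c * (f * g ^ 2) * x ^ 2 = C c' * f' * y ^ 2) : x = 0 ∧ y = 0 := by
  have hC' : C c' ≠ (0 : E[X]) := by rwa [Ne, C_eq_zero]
  rcases eq_or_ne x 0 with rfl | hx
  · refine ⟨rfl, ?_⟩
    rw [zero_pow (by norm_num), mul_zero] at h
    rcases mul_eq_zero.1 h.symm with h4 | h4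
    · exact absurd h4 (mul_ne_zero hC' hf')
    · exact pow_eq_zero_iff (by norm_num) |>.1 h4
  · exfalso
    have hgx : g * x ≠ 0 := mul_ne_zero hg hx
    have h5 : (f' * y) ^ 2 = C (c'⁻¹ * c) * (f * f') * (g * x) ^ 2 := by
      have e1 : C c' * (f' * y) ^ 2 = C c * (f * f') * (g * x) ^ 2 := by
        linear_combination (-f') * h
      have e2 : C c'⁻¹ * C c' = (1 : E[X]) := by rw [← C_mul, inv_mul_cancel₀ hc', C_1]
      rw [C_mul]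
      linear_combination C c'⁻¹ * e1 - (f' * y) ^ 2 * e2
    have h4 : (g * x) ^ 2 ∣ (f' * y) ^ 2 := by
      rw [h5]
      exact Dvd.intro_left _ rfl
    obtain ⟨G, hG⟩ := (UniqueFactorizationMonoid.pow_dvd_pow_iff_dvd (by norm_num)).1 h4
    rw [hG] at h5
    have h6 : G ^ 2 = C (c'⁻¹ * c) * (f * f') := by
      refine mul_right_cancel₀ (pow_ne_zero 2 hgx) ?_
      linear_combination h5
    refine hns (c⁻¹ * c') G ?_
    rw [h6]
    have e3 : C (c⁻¹ * c') * C (c'⁻¹ * c) = (1 : E[X]) := by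
      rw [← C_mul]
      have : c⁻¹ * c' * (c'⁻¹ * c) = 1 := by field_simp
      rw [this, C_1]
    linear_combination (-(f * f')) * e3

private lemma vb_step {F E : Type} [Field F] [Fintype F] [Field E] [Algebra F E] (f₁ f₂ g : E[X]) (h1 : f₁.eval 0 ≠ 0)
    (h2 : f₂.eval 0 ≠ 0) (h3 : g.eval 0 ≠ 0) (hns : ∀ (c : E) (G : E[X]), f₁ * f₂ ≠ C c * G ^ 2) (n : ℕ)
    (hn : 4 * n + 1 = Fintype.card F ∨ 4 * n = Fintype.card F + 1) (A v : ℕ)
    (hv : f₁.natDegree + f₂.natDegree + 2 * g.natDegree ≤ v) (hA : 4 * A + 3 * v ≤ Fintype.card F)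
    (a : Fin 4 → E[X]) (ha : ∀ i, a i ∈ degreeLT E A)
    (h : X ^ Fintype.card F ∣ ∑ i : Fin 4, a i * (f₁ ^ n * g ^ ((Fintype.card F - 1) / 2)) ^ (i : ℕ) *
      (f₂ ^ n) ^ (3 - (i : ℕ))) : ∀ i, a i = 0 := by
  have nf1 : f₁ ≠ 0 := by rintro rfl; simp at h1
  have nf2 : f₂ ≠ 0 := by rintro rfl; simp at h2
  have ng : g ≠ 0 := by rintro rfl; simp at h3
  obtain ⟨q, hq⟩ : ∃ q, q = Fintype.card F := ⟨_, rfl⟩
  have d1 : X ^ q ∣ f₁ ^ q - C (f₁.eval 0 ^ q) := by rw [hq]; exact vb_dvd f₁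
  have d2 : X ^ q ∣ f₂ ^ q - C (f₂.eval 0 ^ q) := by rw [hq]; exact vb_dvd f₂
  have d3 : X ^ q ∣ g ^ q - C (g.eval 0 ^ q) := by rw [hq]; exact vb_dvd g
  have d4 := vb_mul d1 (vb_mul d3 d3)
  obtain ⟨c₁, hc₁⟩ : ∃ c, c = f₁.eval 0 ^ q * (g.eval 0 ^ q * g.eval 0 ^ q) := ⟨_, rfl⟩
  obtain ⟨c₂, hc₂⟩ : ∃ c, c = f₂.eval 0 ^ q := ⟨_, rfl⟩
  rw [← hc₁] at d4
  rw [← hc₂] at d2
  have n1 : c₁ ≠ 0 := by
    rw [hc₁]
    exact mul_ne_zero (pow_ne_zero _ h1) (mul_ne_zero (pow_ne_zero _ h3) (pow_ne_zero _ h3))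
  have n2 : c₂ ≠ 0 := by
    rw [hc₂]
    exact pow_ne_zero _ h2
  have hd : X ^ q ∣ C c₂ * (f₁ ^ q * (g ^ q * g ^ q)) - C c₁ * f₂ ^ q := by
    have e : C c₂ * (f₁ ^ q * (g ^ q * g ^ q)) - C c₁ * f₂ ^ q =
        C c₂ * (f₁ ^ q * (g ^ q * g ^ q) - C c₁) - C c₁ * (f₂ ^ q - C c₂) := by ring
    rw [e]
    exact dvd_sub (dvd_mul_of_dvd_right d4 _) (dvd_mul_of_dvd_right d2 _)
  have hY2 : (f₂ ^ n).eval 0 ≠ 0 := by
    rw [eval_pow]
    exact pow_ne_zero _ h2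
  have hgg : (g ^ ((q - 1) / 2)) ^ 4 * g ^ 2 = g ^ q * g ^ q := by
    rw [← pow_mul, ← pow_add, ← pow_add]
    congr 1
    omega
  have hdeg2 : (g ^ 2).natDegree ≤ 2 * g.natDegree := natDegree_pow_le
  rw [← hq] at hn hA h
  rcases hn with hn | hn
  · have hf1 : (f₁ ^ n) ^ 4 * f₁ = f₁ ^ q := by
      rw [← pow_mul, ← pow_succ]
      congr 1
      omega
    have hf2 : (f₂ ^ n) ^ 4 * f₂ = f₂ ^ q := by
      rw [← pow_mul, ← pow_succ]
      congr 1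
      omega
    refine cong_zero q (f₁ ^ n * g ^ ((q - 1) / 2)) (f₂ ^ n) (C c₂ * (f₁ * g ^ 2)) (C c₁ * f₂) ?_ hY2
      (fun x y hxy => vb_ns nf2 ng hns n2 n1 x y hxy)
      (fun x y hxy => vb_ns nf2 ng hns n2 (neg_ne_zero.2 n1) x y (by rw [hxy, C_neg]; ring)) A v ?_ ?_ hA a ha h
    · have e : (f₁ ^ n * g ^ ((q - 1) / 2)) ^ 4 * (C c₂ * (f₁ * g ^ 2)) - (f₂ ^ n) ^ 4 * (C c₁ * f₂) =
          C c₂ * (f₁ ^ q * (g ^ q * g ^ q)) - C c₁ * f₂ ^ q := by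
        rw [← hgg, ← hf1, ← hf2]
        ring
      rw [e]
      exact hd
    · refine (natDegree_C_mul_le _ _).trans ((natDegree_mul_le).trans ?_)
      omega
    · refine (natDegree_C_mul_le _ _).trans ?_
      omega
  · have hf1 : (f₁ ^ n) ^ 4 = f₁ ^ q * f₁ := by
      rw [← pow_mul, ← pow_succ]
      congr 1
      omega
    have hf2 : (f₂ ^ n) ^ 4 = f₂ ^ q * f₂ := by
      rw [← pow_mul, ← pow_succ]
      congr 1
      omega
    have hns' : ∀ (c : E) (G : E[X]), f₂ * f₁ ≠ C c * G ^ 2 := fun c G hh => hns c G (by rw [mul_comm]; exact hh)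
    refine cong_zero q (f₁ ^ n * g ^ ((q - 1) / 2)) (f₂ ^ n) (C c₂ * (f₂ * g ^ 2)) (C c₁ * f₁) ?_ hY2
      (fun x y hxy => vb_ns nf1 ng hns' n2 n1 x y hxy)
      (fun x y hxy => vb_ns nf1 ng hns' n2 (neg_ne_zero.2 n1) x y (by rw [hxy, C_neg]; ring)) A v ?_ ?_ hA a ha h
    · have e : (f₁ ^ n * g ^ ((q - 1) / 2)) ^ 4 * (C c₂ * (f₂ * g ^ 2)) - (f₂ ^ n) ^ 4 * (C c₁ * f₁) =
          f₁ * f₂ * (C c₂ * (f₁ ^ q * (g ^ q * g ^ q)) - C c₁ * f₂ ^ q) := by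
        rw [← hgg, hf2, mul_pow, hf1]
        ring
      rw [e]
      exact dvd_mul_of_dvd_right hd _
    · refine (natDegree_C_mul_le _ _).trans ((natDegree_mul_le).trans ?_)
      omega
    · refine (natDegree_C_mul_le _ _).trans ?_
      omega

theorem nonvanish4 {F E : Type} [Field F] [Fintype F] [Field E] [Algebra F E] (f₁ f₂ g : E[X]) (h1 : f₁.eval 0 ≠ 0)
    (h2 : f₂.eval 0 ≠ 0) (h3 : g.eval 0 ≠ 0) (hns : ∀ (c : E) (G : E[X]), f₁ * f₂ ≠ C c * G ^ 2) (n : ℕ)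
    (hn : 4 * n + 1 = Fintype.card F ∨ 4 * n = Fintype.card F + 1) (A v : ℕ)
    (hv : f₁.natDegree + f₂.natDegree + 2 * g.natDegree ≤ v) (hA : 4 * A + 3 * v ≤ Fintype.card F) (J : ℕ)
    (r : Fin 4 → ℕ → E[X]) (hr : ∀ i j, r i j ∈ degreeLT E A)
    (h : ∑ j ∈ Finset.range J, (∑ i : Fin 4, r i j * (f₁ ^ n * g ^ ((Fintype.card F - 1) / 2)) ^ (i : ℕ) *
      (f₂ ^ n) ^ (3 - (i : ℕ))) * X ^ (j * Fintype.card F) = 0) : ∀ i, ∀ j < J, r i j = 0 := by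
  induction J generalizing r with
  | zero => intro i j hj; omega
  | succ J ih =>
    rw [Finset.sum_range_succ'] at h
    have e1 : ∑ j ∈ Finset.range J, (∑ i : Fin 4, r i (j + 1) * (f₁ ^ n * g ^ ((Fintype.card F - 1) / 2)) ^ (i : ℕ) *
        (f₂ ^ n) ^ (3 - (i : ℕ))) * X ^ ((j + 1) * Fintype.card F) =
        X ^ Fintype.card F * ∑ j ∈ Finset.range J, (∑ i : Fin 4, r i (j + 1) *
          (f₁ ^ n * g ^ ((Fintype.card F - 1) / 2)) ^ (i : ℕ) * (f₂ ^ n) ^ (3 - (i : ℕ))) *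
            X ^ (j * Fintype.card F) := by
      rw [Finset.mul_sum]
      refine Finset.sum_congr rfl fun j _ => ?_
      have e2 : (X : E[X]) ^ ((j + 1) * Fintype.card F) = X ^ Fintype.card F * X ^ (j * Fintype.card F) := by
        rw [add_mul, one_mul, pow_add, mul_comm]
      rw [e2]
      ring
    rw [e1, zero_mul, pow_zero, mul_one] at h
    have h0 : ∀ i, r i 0 = 0 := by
      refine vb_step f₁ f₂ g h1 h2 h3 hns n hn A v hv hA (fun i => r i 0) (fun i => hr i 0) ?_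
      rw [eq_neg_of_add_eq_zero_right h]
      exact (Dvd.intro _ rfl).neg_right
    have e3 : ∑ i : Fin 4, r i 0 * (f₁ ^ n * g ^ ((Fintype.card F - 1) / 2)) ^ (i : ℕ) *
        (f₂ ^ n) ^ (3 - (i : ℕ)) = 0 :=
      Finset.sum_eq_zero fun i _ => by rw [h0 i, zero_mul, zero_mul]
    rw [e3, add_zero] at h
    have h5 := (mul_eq_zero.1 h).resolve_left (pow_ne_zero _ X_ne_zero)
    have h6 := ih (fun i j => r i (j + 1)) (fun i j => hr i (j + 1)) h5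
    intro i j hj
    rcases Nat.eq_zero_or_pos j with rfl | hj0
    · exact h0 i
    · obtain ⟨k, rfl⟩ : ∃ k, j = k + 1 := ⟨j - 1, by omega⟩
      exact h6 i k (by omega)

end Pool.Agent.Lib.NG8
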