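import Pool.Agent.Lib.NG8.QuoP
import Pool.Agent.Lib.NG8.KerP
import Pool.Agent.Lib.NG8.VanB

/-!
# NG8 / AxpP (quartic Stepanov 5): the auxiliary polynomial

PROOF IN WORDS (adapt `NG5/Axp.lean`, landed). `q = card F`, `h = (q-1)/2`, `u = f₁ f₂ g`. For `k < l`: `L k i` from `exists_quo3` with the exponents `i n + l`, `(3-i) n + l`, `i h + l` (`0` for `k ≥ l`), they lie in `degreeLT (A + k (μ-1))`, `μ - 1 ≤ v`. `exists_ker4` with `M = v` gives `r`.
`R = ∑_j (∑_i r_ij (f₁^n g^h)^i (f₂^n)^(3-i)) X^(jq) u^l`, nonzero by `nonvanish4`. Degree: `i n d1 + (3-i) n d2 + i h dg ≤ 3 q v` (`n ≤ q`), `u^l` at most `l v`. At a good `x`: `(f₁^n g^h)^i (f₂^n)^(3-i) = η^i f₂^(3n)`; with `Rx = ∑_j C (x^j) (..) u^l` the `k`-th Hasse derivative at `x` is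
`u(x)^(l-k) f₂(x)^(3n) ∑_j x^j ∑_i η^i (L k i r_ij)(x) = 0`. So `(X - x)^l ∣ Rx`, and `X^(jq) - x^j` is divisible by `X^q - x = (X - x)^q` (`x^q = x` for `x` in `F`, characteristic `p`, `q = p^e`), `l ≤ q`.
-/

set_option autoImplicit false

namespace Pool.Agent.Lib.NG8

open Polynomial

private lemma ap_dvd {E : Type} [Field E] (p : E[X]) (x : E) (l : ℕ) (h : ∀ k < l, (hasseDeriv k p).eval x = 0) :
    (X - C x) ^ l ∣ p := by
  rw [X_sub_C_pow_dvd_iff, ← taylor_apply, X_pow_dvd_iff]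
  intro d hd
  rw [taylor_coeff]
  exact h d hd

private lemma ap_frob {F E : Type} [Field F] [Fintype F] [Field E] [Algebra F E] (x : F) :
    (X - C (algebraMap F E x) : E[X]) ^ Fintype.card F = X ^ Fintype.card F - C (algebraMap F E x) := by
  have h : (X - C x : F[X]) ^ Fintype.card F = X ^ Fintype.card F - C x := by
    rw [← FiniteField.expand_card, map_sub, expand_X, expand_C]
  have h2 := congrArg (Polynomial.map (algebraMap F E)) h
  simpa only [Polynomial.map_pow, Polynomial.map_sub, map_X, map_C] using h2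

private lemma ap_pow {F E : Type} [Field F] [Fintype F] [Field E] [Algebra F E] (x : F) (j l : ℕ)
    (hl : l ≤ Fintype.card F) :
    (X - C (algebraMap F E x) : E[X]) ^ l ∣ X ^ (j * Fintype.card F) - C (algebraMap F E x ^ j) := by
  refine (pow_dvd_pow _ hl).trans ?_
  rw [ap_frob, mul_comm j, pow_mul, C_pow]
  exact sub_dvd_pow_sub_pow _ _ _

private lemma ap_deg {E : Type} [Field E] {A : ℕ} {r : E[X]} (hr : r ∈ degreeLT E A) : r.natDegree ≤ A := by
  rw [mem_degreeLT] at hr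
  exact natDegree_le_of_degree_le hr.le

private lemma ap_term {E : Type} [Field E] (f₁ f₂ g r : E[X]) (n h l i : ℕ) :
    (f₁ * f₂ * g) ^ l * (r * (f₁ ^ n * g ^ h) ^ i * (f₂ ^ n) ^ (3 - i)) =
      f₁ ^ (n * i + l) * f₂ ^ (n * (3 - i) + l) * g ^ (h * i + l) * r := by
  rw [pow_add, pow_add, pow_add, pow_mul, pow_mul, pow_mul, mul_pow, mul_pow, mul_pow]
  ring

theorem axp4 {F E : Type} [Field F] [Fintype F] [Field E] [Algebra F E] (f₁ f₂ g : E[X]) (h1 : f₁.eval 0 ≠ 0)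
    (h2 : f₂.eval 0 ≠ 0) (h3 : g.eval 0 ≠ 0) (hns : ∀ (c : E) (G : E[X]), f₁ * f₂ ≠ C c * G ^ 2) (n : ℕ)
    (hn : 4 * n + 1 = Fintype.card F ∨ 4 * n = Fintype.card F + 1) (l A J v : ℕ) (hl : l ≤ Fintype.card F)
    (hv : f₁.natDegree + f₂.natDegree + 2 * g.natDegree ≤ v) (hA : 4 * A + 3 * v ≤ Fintype.card F)
    (hc : ∑ k ∈ Finset.range l, (A + k * v + J) < 4 * J * A) (η : E) :
    ∃ R : E[X], R ≠ 0 ∧ R.natDegree ≤ (l + 3 * Fintype.card F) * v + A + (J - 1) * Fintype.card F ∧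
      ∀ x : F, f₁.eval (algebraMap F E x) ^ n * g.eval (algebraMap F E x) ^ ((Fintype.card F - 1) / 2) =
        η * f₂.eval (algebraMap F E x) ^ n → (X - C (algebraMap F E x)) ^ l ∣ R := by
  classical
  have e1 : f₁ ≠ 0 := by rintro rfl; exact h1 eval_zero
  have e2 : f₂ ≠ 0 := by rintro rfl; exact h2 eval_zero
  have e3 : g ≠ 0 := by rintro rfl; exact h3 eval_zero
  set q := Fintype.card F with hq
  set h := (q - 1) / 2 with hh
  have hch : ∀ (k : ℕ) (i : Fin 4), ∃ L : E[X] →ₗ[E] E[X], k < l →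
      ((∀ r, hasseDeriv k (f₁ ^ (n * (i : ℕ) + l) * f₂ ^ (n * (3 - (i : ℕ)) + l) * g ^ (h * (i : ℕ) + l) * r) =
        f₁ ^ (n * (i : ℕ) + l - k) * f₂ ^ (n * (3 - (i : ℕ)) + l - k) * g ^ (h * (i : ℕ) + l - k) * L r) ∧
      ∀ (A : ℕ) (r : E[X]), r ∈ degreeLT E A →
        L r ∈ degreeLT E (A + k * (f₁.natDegree + f₂.natDegree + g.natDegree - 1))) := by
    intro k i
    by_cases hk : k < l
    · obtain ⟨L, hL⟩ := exists_quo3 f₁ f₂ g e1 e2 e3 (n * (i : ℕ) + l) (n * (3 - (i : ℕ)) + l) (h * (i : ℕ) + l) k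
        (by omega) (by omega) (by omega)
      exact ⟨L, fun _ => hL⟩
    · exact ⟨0, fun h' => absurd h' hk⟩
  choose L hL using hch
  obtain ⟨r, hr, ⟨i0, j0, hj0, hne⟩, hker⟩ := exists_ker4 l A J v η L
    (fun k hk i r hr => by
      refine degreeLT_mono ?_ ((hL k i hk).2 A r hr)
      exact Nat.add_le_add_left (Nat.mul_le_mul_left _ (by omega)) _) hc
  have hn' : n ≤ q := by
    rcases hn with h' | h'
    · omega
    · omega
  refine ⟨(f₁ * f₂ * g) ^ l * ∑ j ∈ Finset.range J, (∑ i : Fin 4, r i j * (f₁ ^ n * g ^ h) ^ (i : ℕ) *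
      (f₂ ^ n) ^ (3 - (i : ℕ))) * X ^ (j * q), ?_, ?_, ?_⟩
  · intro h0
    rcases mul_eq_zero.1 h0 with h4 | h4
    · exact pow_ne_zero _ (mul_ne_zero (mul_ne_zero e1 e2) e3) h4
    · exact hne (nonvanish4 f₁ f₂ g h1 h2 h3 hns n hn A v hv hA J r hr h4 i0 j0 hj0)
  · have hA1 : ∀ j (i : Fin 4), (r i j * (f₁ ^ n * g ^ h) ^ (i : ℕ) * (f₂ ^ n) ^ (3 - (i : ℕ))).natDegree ≤
        A + 3 * q * v := by
      intro j i
      have hi : (i : ℕ) ≤ 3 := by omega
      have b1 : ((f₁ ^ n * g ^ h) ^ (i : ℕ)).natDegree ≤ 3 * (q * (f₁.natDegree + g.natDegree)) := by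
        refine natDegree_pow_le.trans (Nat.mul_le_mul hi ?_)
        refine natDegree_mul_le.trans ?_
        rw [mul_add]
        exact Nat.add_le_add (natDegree_pow_le.trans (Nat.mul_le_mul_right _ hn'))
          (natDegree_pow_le.trans (Nat.mul_le_mul_right _ (by omega)))
      have b2 : ((f₂ ^ n) ^ (3 - (i : ℕ))).natDegree ≤ 3 * (q * f₂.natDegree) := by
        refine natDegree_pow_le.trans (Nat.mul_le_mul (by omega) ?_)
        exact natDegree_pow_le.trans (Nat.mul_le_mul_right _ hn')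
      have b3 := ap_deg (hr i j)
      have b4 : (r i j * (f₁ ^ n * g ^ h) ^ (i : ℕ) * (f₂ ^ n) ^ (3 - (i : ℕ))).natDegree ≤
          A + 3 * (q * (f₁.natDegree + g.natDegree)) + 3 * (q * f₂.natDegree) :=
        natDegree_mul_le.trans (Nat.add_le_add (natDegree_mul_le.trans (Nat.add_le_add b3 b1)) b2)
      refine b4.trans ?_
      have b5 : q * (f₁.natDegree + g.natDegree + f₂.natDegree) ≤ q * v := Nat.mul_le_mul_left _ (by omega)
      nlinarith
    have hS : (∑ j ∈ Finset.range J, (∑ i : Fin 4, r i j * (f₁ ^ n * g ^ h) ^ (i : ℕ) *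
      (f₂ ^ n) ^ (3 - (i : ℕ))) * X ^ (j * q)).natDegree ≤ A + 3 * q * v + (J - 1) * q := by
      refine natDegree_sum_le_of_forall_le _ _ fun j hj => ?_
      rw [Finset.mem_range] at hj
      refine natDegree_mul_le.trans (Nat.add_le_add ?_ ?_)
      · exact natDegree_sum_le_of_forall_le _ _ fun i _ => hA1 j i
      · rw [natDegree_X_pow]
        exact Nat.mul_le_mul_right _ (by omega)
    have hu : ((f₁ * f₂ * g) ^ l).natDegree ≤ l * v := by
      refine natDegree_pow_le.trans (Nat.mul_le_mul_left _ ?_)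
      refine natDegree_mul_le.trans ?_
      have := natDegree_mul_le (p := f₁) (q := f₂)
      omega
    refine natDegree_mul_le.trans ((Nat.add_le_add hu hS).trans (le_of_eq ?_))
    ring
  · intro x hx
    set x' := algebraMap F E x with hx'
    have hR : (f₁ * f₂ * g) ^ l * ∑ j ∈ Finset.range J, (∑ i : Fin 4, r i j * (f₁ ^ n * g ^ h) ^ (i : ℕ) *
      (f₂ ^ n) ^ (3 - (i : ℕ))) * X ^ (j * q) =
        ∑ j ∈ Finset.range J, (X ^ (j * q) - C (x' ^ j)) *
          (∑ i : Fin 4, f₁ ^ (n * (i : ℕ) + l) * f₂ ^ (n * (3 - (i : ℕ)) + l) * g ^ (h * (i : ℕ) + l) * r i j) +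
        ∑ j ∈ Finset.range J, C (x' ^ j) *
          (∑ i : Fin 4, f₁ ^ (n * (i : ℕ) + l) * f₂ ^ (n * (3 - (i : ℕ)) + l) * g ^ (h * (i : ℕ) + l) * r i j) := by
      rw [← Finset.sum_add_distrib, Finset.mul_sum]
      refine Finset.sum_congr rfl fun j _ => ?_
      have h5 : (∑ i : Fin 4, f₁ ^ (n * (i : ℕ) + l) * f₂ ^ (n * (3 - (i : ℕ)) + l) * g ^ (h * (i : ℕ) + l) * r i j) =
          (f₁ * f₂ * g) ^ l * ∑ i : Fin 4, r i j * (f₁ ^ n * g ^ h) ^ (i : ℕ) * (f₂ ^ n) ^ (3 - (i : ℕ)) := by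
        rw [Finset.mul_sum]
        exact Finset.sum_congr rfl fun i _ => (ap_term f₁ f₂ g (r i j) n h l i).symm
      rw [h5]
      ring
    rw [hR]
    refine dvd_add (Finset.dvd_sum fun j _ => Dvd.dvd.mul_right (ap_pow x j l hl) _)
      (ap_dvd _ x' l fun k hk => ?_)
    have h6 : hasseDeriv k (∑ j ∈ Finset.range J, C (x' ^ j) *
          (∑ i : Fin 4, f₁ ^ (n * (i : ℕ) + l) * f₂ ^ (n * (3 - (i : ℕ)) + l) * g ^ (h * (i : ℕ) + l) * r i j)) =
        ∑ j ∈ Finset.range J, C (x' ^ j) * ∑ i : Fin 4,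
          f₁ ^ (n * (i : ℕ) + l - k) * f₂ ^ (n * (3 - (i : ℕ)) + l - k) * g ^ (h * (i : ℕ) + l - k) * L k i (r i j) := by
      rw [map_sum]
      refine Finset.sum_congr rfl fun j _ => ?_
      rw [C_mul', map_smul, map_sum, C_mul']
      congr 1
      exact Finset.sum_congr rfl fun i _ => (hL k i hk).1 _
    have h7 := congrArg (eval x') (hker k hk)
    rw [eval_finsetSum, eval_zero] at h7
    rw [h6, eval_finsetSum]
    have h8 : ∀ j ∈ Finset.range J, eval x' (C (x' ^ j) * ∑ i : Fin 4,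
          f₁ ^ (n * (i : ℕ) + l - k) * f₂ ^ (n * (3 - (i : ℕ)) + l - k) * g ^ (h * (i : ℕ) + l - k) * L k i (r i j)) =
        (f₁.eval x' * f₂.eval x' * g.eval x') ^ (l - k) * (f₂.eval x' ^ n) ^ 3 *
          eval x' ((∑ i : Fin 4, C (η ^ (i : ℕ)) * L k i (r i j)) * X ^ j) := by
      intro j _
      simp only [eval_mul, eval_finsetSum, eval_pow, eval_C, eval_X]
      rw [Finset.mul_sum, Finset.sum_mul, Finset.mul_sum]
      refine Finset.sum_congr rfl fun i _ => ?_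
      have hi : (i : ℕ) ≤ 3 := by omega
      rw [show n * (i : ℕ) + l - k = n * (i : ℕ) + (l - k) by omega,
        show n * (3 - (i : ℕ)) + l - k = n * (3 - (i : ℕ)) + (l - k) by omega,
        show h * (i : ℕ) + l - k = h * (i : ℕ) + (l - k) by omega]
      have h9 : (f₁.eval x' ^ n) ^ (i : ℕ) * (g.eval x' ^ h) ^ (i : ℕ) = η ^ (i : ℕ) * (f₂.eval x' ^ n) ^ (i : ℕ) := by
        rw [← mul_pow, hx, mul_pow]
      have h10 : (f₂.eval x' ^ n) ^ 3 = (f₂.eval x' ^ n) ^ (i : ℕ) * (f₂.eval x' ^ n) ^ (3 - (i : ℕ)) := by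
        rw [← pow_add]
        congr 1
        omega
      rw [pow_add, pow_add, pow_add, pow_mul, pow_mul, pow_mul, mul_pow, mul_pow, h10]
      linear_combination (x' ^ j * (eval x' f₂ ^ n) ^ (3 - (i : ℕ)) * eval x' f₁ ^ (l - k) * eval x' f₂ ^ (l - k) *
        eval x' g ^ (l - k) * eval x' (L k i (r i j))) * h9
    rw [Finset.sum_congr rfl h8, ← Finset.mul_sum, h7, mul_zero]

end Pool.Agent.Lib.NG8
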