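import Pool.Agent.Lib.NG8.AxpP

/-!
# NG8 / CntP (quartic Stepanov 6): the number of points

PROOF IN WORDS (adapt `NG5/Cnt.lean`, landed). `q = card F ≥ q1(v)` (for smaller `q` the trivial bound `card s ≤ q ≤ √q1 √q`). `l = Nat.sqrt q`, `A = (q - 3v)/4`, `J = (l + 4v + 12)/4` (floors). Condition of `axp4`: the left side is `≤ lA + v l^2/2 + lJ`, and `4JA - lJ - lA ≥ ((l + 4v + 9)(q - 3v - 3 - l) - l (q - 3v))/4
= ((4v+9) q - (l + 4v + 9)(3v + 3 + l) + 3vl)/4`, which is `> v q/2 ≥ v l^2/2` for large `q` (`l^2 ≤ q`). Then `l * card s ≤ natDegree R ≤ (l + 3q) v + A + (J-1) q`, so `card s ≤ q/4 + v + (3v + 1/4 + v + 2) q/l`, and `q/l ≤ 2 √q`: `C = 9v + 6` for large `q`. (`algebraMap` is injective, the `(X - x)^l` are pairwise coprime.)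
-/

set_option autoImplicit false

namespace Pool.Agent.Lib.NG8

open Polynomial

private theorem ct_sum (l A J M : ℕ) :
    2 * ∑ k ∈ Finset.range l, (A + k * M + J) = 2 * l * (A + J) + l * (l - 1) * M := by
  have h1 : ∑ k ∈ Finset.range l, (A + k * M + J) = l * (A + J) + (∑ k ∈ Finset.range l, k) * M := by
    rw [Finset.sum_mul]
    have h2 : l * (A + J) = ∑ _k ∈ Finset.range l, (A + J) := by
      rw [Finset.sum_const, Finset.card_range, smul_eq_mul]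
    rw [h2, ← Finset.sum_add_distrib]
    exact Finset.sum_congr rfl fun k _ => by ring
  rw [h1, mul_add, ← mul_assoc 2 (∑ k ∈ Finset.range l, k) M, mul_comm 2 (∑ k ∈ Finset.range l, k),
    Finset.sum_range_id_mul_two]
  ring

private theorem ct_cond (q v l A J : ℕ) (hq : 16 * (v + 1) ^ 2 ≤ q) (hl1 : l * l ≤ q) (hl4 : 4 ≤ l)
    (hA : q ≤ 4 * A + 3 * v + 3) (hJ : l + 4 * v + 9 ≤ 4 * J) :
    ∑ k ∈ Finset.range l, (A + k * v + J) < 4 * J * A := by
  have h1 := ct_sum l A J v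
  have h0 : l * (l - 1) * v ≤ l * l * v := by
    apply Nat.mul_le_mul_right
    exact Nat.mul_le_mul_left _ (Nat.sub_le _ _)
  have h2 : 2 * l * (A + J) + l * l * v < 2 * (4 * J * A) := by
    zify at *
    have hl0 : (0 : ℤ) ≤ l := by positivity
    have hv0 : (0 : ℤ) ≤ v := by positivity
    have hq0 : (0 : ℤ) ≤ q := by positivity
    -- `4 A ≥ q - 3v - 3`
    have hA' : (q : ℤ) - (3 * v + 3) ≤ 4 * A := by linarith
    have h6 : 4 * (l : ℤ) ≤ l * l := mul_le_mul_of_nonneg_right hl4 hl0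
    have hql : (l : ℤ) ≤ 4 * A := by nlinarith
    have h3 : ((l : ℤ) + 4 * v + 9) * (4 * A - l) ≤ 4 * J * (4 * A - l) :=
      mul_le_mul_of_nonneg_right hJ (by linarith)
    have h4 : (4 * (v : ℤ) + 9) * (q - (3 * v + 3)) ≤ (4 * (v : ℤ) + 9) * (4 * A) :=
      mul_le_mul_of_nonneg_left hA' (by positivity)
    have h5 : (v : ℤ) * (l * l) ≤ v * q := mul_le_mul_of_nonneg_left hl1 (by positivity)
    have h7 : (4 * (v : ℤ) + 9) * (4 * l) ≤ (4 * (v : ℤ) + 9) * q :=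
      mul_le_mul_of_nonneg_left (h6.trans hl1) (by positivity)
    have h8 : (v : ℤ) * (16 * (v + 1) ^ 2) ≤ v * q := mul_le_mul_of_nonneg_left hq hv0
    nlinarith
  omega

private theorem ct_roots {F E : Type} [Field F] [Field E] [Algebra F E] (T : Finset F) (R : E[X]) (hR : R ≠ 0) (l : ℕ)
    (h : ∀ x ∈ T, (X - C (algebraMap F E x)) ^ l ∣ R) : l * T.card ≤ R.natDegree := by
  have h1 : (∏ x ∈ T, (X - C (algebraMap F E x)) ^ l) ∣ R := by
    refine Finset.prod_dvd_of_coprime ?_ h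
    intro x _ y _ hxy
    have hne : algebraMap F E x - algebraMap F E y ≠ 0 :=
      sub_ne_zero.2 fun hh => hxy ((algebraMap F E).injective hh)
    exact (Polynomial.isCoprime_X_sub_C_of_isUnit_sub hne.isUnit).pow
  have h2 := natDegree_le_of_dvd h1 hR
  rw [natDegree_prod_of_monic _ _ (fun x _ => (monic_X_sub_C (algebraMap F E x)).pow l)] at h2
  have h3 : ∀ x ∈ T, ((X - C (algebraMap F E x)) ^ l).natDegree = l := by
    intro x _
    rw [natDegree_pow, natDegree_X_sub_C, mul_one]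
  rw [Finset.sum_congr rfl h3, Finset.sum_const, smul_eq_mul, mul_comm] at h2
  exact h2

theorem count4 (v : ℕ) : ∃ C : ℝ, 0 ≤ C ∧ ∀ (F E : Type) [Field F] [Fintype F] [Field E] [Algebra F E] (f₁ f₂ g : E[X]),
    f₁.eval 0 ≠ 0 → f₂.eval 0 ≠ 0 → g.eval 0 ≠ 0 → (∀ (c : E) (G : E[X]), f₁ * f₂ ≠ Polynomial.C c * G ^ 2) →
      f₁.natDegree + f₂.natDegree + 2 * g.natDegree ≤ v → ∀ n : ℕ,
        (4 * n + 1 = Fintype.card F ∨ 4 * n = Fintype.card F + 1) → ∀ (η : E) (s : Finset F),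
          (∀ x ∈ s, f₁.eval (algebraMap F E x) ^ n * g.eval (algebraMap F E x) ^ ((Fintype.card F - 1) / 2) =
            η * f₂.eval (algebraMap F E x) ^ n) →
              (s.card : ℝ) ≤ (Fintype.card F : ℝ) / 4 + C * Real.sqrt (Fintype.card F) := by
  refine ⟨13 * v + 10, by positivity, ?_⟩
  intro F E _ _ _ _ f₁ f₂ g h1 h2 h3 hns hv n hn η s hs
  obtain ⟨q, hqq⟩ : ∃ q, q = Fintype.card F := ⟨_, rfl⟩
  have hcard : s.card ≤ q := by
    rw [hqq]
    exact s.card_le_univ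
  have hq0 : (0 : ℝ) ≤ q := Nat.cast_nonneg q
  have hv0 : (0 : ℝ) ≤ v := Nat.cast_nonneg v
  have hs0 : 0 ≤ Real.sqrt q := Real.sqrt_nonneg _
  have hss : Real.sqrt q * Real.sqrt q = q := Real.mul_self_sqrt hq0
  have hcardR : (s.card : ℝ) ≤ q := by exact_mod_cast hcard
  rw [← hqq]
  by_cases hq : 16 * (v + 1) ^ 2 ≤ q
  swap
  · -- small `q`
    have hq1 : (q : ℝ) ≤ (4 * ((v : ℝ) + 1)) ^ 2 := by
      have : q ≤ 16 * (v + 1) ^ 2 := by omega
      have h7 : (q : ℝ) ≤ 16 * ((v : ℝ) + 1) ^ 2 := by exact_mod_cast this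
      linarith
    have hs1 : Real.sqrt q ≤ 4 * ((v : ℝ) + 1) := by
      rw [Real.sqrt_le_left (by positivity)]
      exact hq1
    have h8 : Real.sqrt q * Real.sqrt q ≤ 4 * ((v : ℝ) + 1) * Real.sqrt q :=
      mul_le_mul_of_nonneg_right hs1 hs0
    have h9 : 4 * ((v : ℝ) + 1) * Real.sqrt q ≤ (13 * v + 10) * Real.sqrt q :=
      mul_le_mul_of_nonneg_right (by linarith) hs0
    linarith
  obtain ⟨l, hll⟩ : ∃ l, l = Nat.sqrt q := ⟨_, rfl⟩
  have hl1 : l * l ≤ q := hll ▸ Nat.sqrt_le q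
  have hl2 : q < (l + 1) * (l + 1) := hll ▸ Nat.lt_succ_sqrt q
  have hq16 : 16 ≤ q := by nlinarith
  have hl4 : 4 ≤ l := by
    by_contra hcon
    have h3 : l ≤ 3 := by omega
    have h4 : (l + 1) * (l + 1) ≤ 4 * 4 := Nat.mul_le_mul (by omega) (by omega)
    omega
  have hvq : 3 * v ≤ q := by nlinarith
  have hlq : l ≤ q := by nlinarith
  obtain ⟨A, hA⟩ : ∃ A, A = (q - 3 * v) / 4 := ⟨_, rfl⟩
  obtain ⟨J, hJ⟩ : ∃ J, J = (l + 4 * v + 12) / 4 := ⟨_, rfl⟩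
  have hA1 : 4 * A + 3 * v ≤ q := by omega
  have hA2 : q ≤ 4 * A + 3 * v + 3 := by omega
  have hJ1 : l + 4 * v + 9 ≤ 4 * J := by omega
  have hJ2 : 4 * J ≤ l + 4 * v + 12 := by omega
  have hc := ct_cond q v l A J hq hl1 hl4 hA2 hJ1
  obtain ⟨R, hR0, hR1, hR2⟩ := axp4 f₁ f₂ g h1 h2 h3 hns n hn l A J v (by rw [← hqq]; exact hlq) hv
    (by rw [← hqq]; exact hA1) hc η
  have h5 := ct_roots s R hR0 l fun x hx => hR2 x (hs x hx)
  rw [← hqq] at hR1
  have h6 : l * s.card ≤ (l + 3 * q) * v + A + (J - 1) * q := h5.trans hR1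
  -- real numbers
  have b1 : ((A : ℕ) : ℝ) ≤ (q : ℝ) / 4 := by
    have : 4 * A ≤ q := by omega
    have h7 : (4 : ℝ) * A ≤ q := by exact_mod_cast this
    linarith
  have b3 : ((J - 1 : ℕ) : ℝ) ≤ ((l : ℝ) + 4 * v + 8) / 4 := by
    have : 4 * (J - 1) ≤ l + 4 * v + 8 := by omega
    have h7 : (4 : ℝ) * ((J - 1 : ℕ) : ℝ) ≤ (l : ℝ) + 4 * v + 8 := by exact_mod_cast this
    linarith
  have b4 : (l : ℝ) * s.card ≤ ((l : ℝ) + 3 * q) * v + A + ((J - 1 : ℕ) : ℝ) * q := by exact_mod_cast h6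
  have hl0 : (0 : ℝ) < l := by
    have : 0 < l := by omega
    exact_mod_cast this
  set t : ℝ := Real.sqrt q with ht
  have hs4 : 4 ≤ t := by
    rw [ht]
    refine Real.le_sqrt_of_sq_le ?_
    have : (16 : ℝ) ≤ q := by exact_mod_cast hq16
    linarith
  have hsl : t ≤ (l : ℝ) + 1 := by
    rw [ht]
    refine Real.sqrt_le_iff.2 ⟨by positivity, ?_⟩
    have : (q : ℝ) ≤ ((l : ℝ) + 1) * (l + 1) := by exact_mod_cast hl2.le
    linarith
  have hsl2 : t ≤ 2 * l := by linarith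
  have b5 : (l : ℝ) * s.card ≤ ((l : ℝ) + 3 * q) * v + q / 4 + ((l : ℝ) + 4 * v + 8) / 4 * q := by
    have c2 := mul_le_mul_of_nonneg_right b3 hq0
    linarith
  have b6 : (q : ℝ) ≤ 2 * l * t := by
    rw [← hss]
    exact mul_le_mul_of_nonneg_right hsl2 hs0
  have b7 : (l : ℝ) * s.card ≤ l * (v + q / 4 + (8 * v + 9 / 2) * t) := by
    have c3 : (4 * (v : ℝ) + 9 / 4) * q ≤ (4 * v + 9 / 4) * (2 * l * t) := mul_le_mul_of_nonneg_left b6 (by positivity)
    linarith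
  have b8 := le_of_mul_le_mul_left b7 hl0
  have b9 : (v : ℝ) ≤ v * t := by nlinarith
  nlinarith

end Pool.Agent.Lib.NG8
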