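import Pool.Agent.Lib.NG5.Defs

/-!
# NG8: K_{8,8} in the projective norm graph NG(q, 5) for every large odd q, definitions

Continues NG5: two more conditions on the parameter give four more points `y` with `σ y = α y + 1/y`, `σ^2 y = -y`.
-/

set_option autoImplicit false

namespace Pool.Agent.Lib.NG8

open Polynomial

/-- the conditions for the eight points -/
def GoodA (F : Type) [Field F] (α : F) : Prop :=
  (2 : F) ≠ 0 ∧ ¬ IsSquare (4 * α ^ 4 + 1) ∧ ∃ e : F, e ≠ 0 ∧ e ^ 2 = -(α * (2 * α ^ 2 + 1) * (2 * α ^ 2 + 2 * α + 1))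

/-- the conditions for the fourteen points -/
def Good2 (F : Type) [Field F] (α : F) : Prop :=
  GoodA F α ∧ ¬ IsSquare (-(1 + α)) ∧ ¬ IsSquare (1 + α ^ 2) ∧
    ∃ z : F, z ≠ 0 ∧ z ^ 2 - 1 = 2 * z * (α * (2 * α ^ 2 + 1)) ∧ ¬ IsSquare (z ^ 2 + 1)

/-- the four polynomials -/
noncomputable def PP2 (F : Type) [Field F] : Fin 4 → F[X] :=
  ![4 * X ^ 4 + 1, -(X * (2 * X ^ 2 + 1) * (2 * X ^ 2 + 2 * X + 1)), -(1 + X), 1 + X ^ 2]

end Pool.Agent.Lib.NG8
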