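import Pool.Agent.Lib.NG8.AsmP
import Pool.Agent.Lib.NG8.AlpP

/-!
# NG8 / Main: K_{a,b}, a <= 8, a + b = 16, in NG(q, 5) for every large odd q (helper74)
-/

set_option autoImplicit false

namespace Pool.Agent.Lib.NG8

open SimpleGraph Pool.Agent.Lib Pool.Agent.Lib.MP_f4a4e4_co.NGX

theorem ng8_odd : ∃ q0 : ℕ, ∀ (F K : Type) [Field F] [Field K] [Finite K] [Algebra F K], Module.finrank F K = 4 →
    Nat.card F % 2 = 1 → q0 ≤ Nat.card F → ∀ a b : ℕ, a ≤ 8 → a + b = 16 →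
      completeBipartiteGraph (Fin a) (Fin b) ⊑ NormGraph F K := by
  obtain ⟨q0, h⟩ := exists_alpha2
  refine ⟨q0, fun F K _ _ _ _ hK hodd hq a b ha hab => ?_⟩
  have hF := Finite.of_injective _ (FaithfulSMul.algebraMap_injective F K)
  have := Fintype.ofFinite F
  rw [Nat.card_eq_fintype_card] at hodd hq
  obtain ⟨α, hα⟩ := h F hodd hq
  exact asm2 hK α hα a b ha hab

end Pool.Agent.Lib.NG8
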