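import Pool.Agent.Lib.NGE.Main
import Pool.Agent.Lib.NG8.Main

/-!
# NG8 / Fin: the largest bicliques of NG(q, 5) for every large odd q (helper74)
-/

set_option autoImplicit false

namespace Pool.Agent.Lib.NG8

open SimpleGraph Pool.Agent.Lib.MP_f4a4e4_co.NGX

theorem greatest_odd8 {F K : Type} [Field F] [Field K] [Finite K] [Algebra F K]
    (hm : Module.finrank F K = 4) (h8 : completeBipartiteGraph (Fin 8) (Fin 8) ⊑ NormGraph F K) :
    IsGreatest {r : ℕ | completeBipartiteGraph (Fin r) (Fin r) ⊑ NormGraph F K} 8 := by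
  refine ⟨h8, ?_⟩
  intro r hr
  have h1 := min_le (m := 3) hm hr
  rw [min_self] at h1
  exact h1.trans (by norm_num)

end Pool.Agent.Lib.NG8
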