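import Pool.Agent.Lib.MP_f4a4e4_co.NGX.Infinity

/-!
# NG8 / Pow2: q = 2^j modulo 2^m - 1 with j coprime to m (helper74)

`u ^ (2 ^ m) = u`: then `u ^ q = u ^ (2 ^ j)` and `N(u + v) = ∏ (u ^ (2 ^ (i j)) + v ^ (2 ^ (i j)))`, the exponents `i j` run through all residues modulo `m`.
-/

set_option autoImplicit false

namespace Pool.Agent.Lib.NG8

open SimpleGraph Finset Pool.Agent.Lib.MP_f4a4e4_co.NGX

private theorem pow_mod {K : Type} [Field K] {m a b : ℕ} (hab : a ≡ b [MOD 2 ^ m - 1]) (ha : a ≠ 0) (hb : b ≠ 0) {u : K}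
    (hu : u ^ (2 ^ m) = u) : u ^ a = u ^ b := by
  rcases eq_or_ne u 0 with h0 | h0
  · subst h0
    rw [zero_pow ha, zero_pow hb]
  · have h1 : u ^ (2 ^ m - 1) = 1 := by
      have h2 : u ^ (2 ^ m - 1) * u = 1 * u := by
        rw [← pow_succ, Nat.sub_add_cancel Nat.one_le_two_pow, one_mul, hu]
      exact mul_right_cancel₀ h0 h2
    exact pow_eq_pow_of_modEq hab h1

private theorem two_pow_mod (m : ℕ) : 2 ^ m ≡ 1 [MOD 2 ^ m - 1] := by
  refine ((Nat.modEq_iff_dvd' Nat.one_le_two_pow).2 ?_).symm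
  exact dvd_refl _

private theorem two_pow_mod' (m a : ℕ) : 2 ^ a ≡ 2 ^ (a % m) [MOD 2 ^ m - 1] := by
  have h1 : 2 ^ a = 2 ^ (a % m) * (2 ^ m) ^ (a / m) := by
    rw [← pow_mul, ← pow_add, Nat.mod_add_div]
  rw [h1]
  have h2 := ((two_pow_mod m).pow (a / m)).mul_left (2 ^ (a % m))
  rwa [one_pow, mul_one] at h2

/-- `N(u + v) = 1` -/
theorem norm_eq_one' {F K : Type} [Field F] [Field K] [Finite K] [Algebra F K] {m j : ℕ}
    (hm : Module.finrank F K = m) (hm1 : 1 ≤ m) (hj : Nat.Coprime j m) (hq : Nat.card F ≡ 2 ^ j [MOD 2 ^ m - 1]) {u v : K}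
    (hu : u ^ (2 ^ m) = u) (hv : v ^ (2 ^ m) = v) (huv : u ≠ v) :
    Algebra.norm F (u + v) = 1 := by
  have := Finite.of_injective _ (FaithfulSMul.algebraMap_injective F K)
  have hq2 : 2 ≤ Nat.card F := Finite.one_lt_card
  apply FaithfulSMul.algebraMap_injective F K
  rw [FiniteField.algebraMap_norm_eq_prod_pow, hm, map_one]
  have h1 : ∏ i ∈ range m, (u + v) ^ (Nat.card F ^ i) =
      ∏ i ∈ range m, (u ^ (2 ^ ((i * j) % m)) + v ^ (2 ^ ((i * j) % m))) := by
    refine Finset.prod_congr rfl fun i _ => ?_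
    have h2 : Nat.card F ^ i ≡ 2 ^ ((i * j) % m) [MOD 2 ^ m - 1] := by
      refine (hq.pow i).trans ?_
      rw [← pow_mul, mul_comm j i]
      exact two_pow_mod' m (i * j)
    have hi0 : Nat.card F ^ i ≠ 0 := pow_ne_zero _ (by omega)
    have hi1 : 2 ^ ((i * j) % m) ≠ 0 := pow_ne_zero _ (by norm_num)
    rw [frob_add F K, pow_mod h2 hi0 hi1 hu, pow_mod h2 hi0 hi1 hv]
  rw [h1]
  have h5 : ∏ i ∈ range m, (u ^ (2 ^ ((i * j) % m)) + v ^ (2 ^ ((i * j) % m))) =
      ∏ i ∈ range m, (u ^ (2 ^ i) + v ^ (2 ^ i)) := by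
    have hmaps : ∀ i ∈ range m, (i * j) % m ∈ range m := fun i _ => mem_range.2 (Nat.mod_lt _ (by omega))
    have hinj : Set.InjOn (fun i => (i * j) % m) (range m : Finset ℕ) := by
      intro x hx y hy hxy
      have hx' := mem_range.1 (Finset.mem_coe.1 hx)
      have hy' := mem_range.1 (Finset.mem_coe.1 hy)
      have h6 : x * j ≡ y * j [MOD m] := hxy
      have h7 : x ≡ y [MOD m] := Nat.ModEq.cancel_right_of_coprime (by rw [Nat.gcd_comm]; exact hj) h6
      exact Nat.ModEq.eq_of_lt_of_lt h7 hx' hy'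
    have himg : (range m).image (fun i => (i * j) % m) = range m := by
      refine Finset.eq_of_subset_of_card_le ?_ ?_
      · intro x hx
        obtain ⟨i, hi, rfl⟩ := mem_image.1 hx
        exact hmaps i hi
      · rw [card_image_of_injOn hinj]
    conv_rhs => rw [← himg]
    rw [Finset.prod_image hinj]
  rw [h5]
  have h2 := telescope u v m
  rw [hu, hv] at h2
  have h3 : u - v ≠ 0 := sub_ne_zero.2 huv
  have h4 : (u - v) * ∏ i ∈ range m, (u ^ (2 ^ i) + v ^ (2 ^ i)) = (u - v) * 1 := by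
    rw [h2, mul_one]
  exact mul_left_cancel₀ h3 h4

/-- there are `2 ^ m` solutions of `u ^ (2 ^ m) = u` -/
theorem exists_points' {F K : Type} [Field F] [Field K] [Finite K] [Algebra F K] {m j : ℕ}
    (hm : Module.finrank F K = m) (hm1 : 1 ≤ m) (hq : Nat.card F ≡ 2 ^ j [MOD 2 ^ m - 1]) :
    ∃ u : Fin (2 ^ m) → K, Function.Injective u ∧ ∀ i, u i ^ (2 ^ m) = u i := by
  have hFfin := Finite.of_injective _ (FaithfulSMul.algebraMap_injective F K)
  have hcard : Nat.card K = Nat.card F ^ m := by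
    rw [← hm]
    exact Module.natCard_eq_pow_finrank
  have h2m : 2 ≤ 2 ^ m := by
    calc 2 = 2 ^ 1 := rfl
      _ ≤ 2 ^ m := Nat.pow_le_pow_right (by norm_num) hm1
  have hdvd : (2 ^ m - 1) ∣ Nat.card Kˣ := by
    have h1 : Nat.card Kˣ = Nat.card K - 1 := Nat.card_units K
    rw [h1, hcard]
    have h2 : Nat.card F ^ m ≡ (2 ^ j) ^ m [MOD 2 ^ m - 1] := hq.pow m
    have h3 : (2 ^ j) ^ m ≡ 1 [MOD 2 ^ m - 1] := by
      rw [← pow_mul, mul_comm, pow_mul]
      have h9 := (two_pow_mod m).pow j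
      rwa [one_pow] at h9
    have h4 := (h2.trans h3).symm
    exact (Nat.modEq_iff_dvd' (Nat.one_le_iff_ne_zero.2 (pow_ne_zero _ (by
      have := Finite.one_lt_card (α := F)
      omega)))).1 h4
  obtain ⟨ζ, hζ⟩ : ∃ ζ : Kˣ, orderOf ζ = 2 ^ m - 1 := by
    obtain ⟨g, hg⟩ := IsCyclic.exists_ofOrder_eq_natCard (α := Kˣ)
    obtain ⟨k, hk⟩ := hdvd
    have hpos : 0 < Nat.card Kˣ := Nat.card_pos
    have hk0 : k ≠ 0 := by
      rintro rfl
      rw [mul_zero] at hk
      omega
    refine ⟨g ^ k, ?_⟩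
    rw [orderOf_pow' g hk0, hg, hk, Nat.gcd_mul_left_left, Nat.mul_div_cancel _ (Nat.pos_of_ne_zero hk0)]
  have hζ1 : ((ζ : K)) ^ (2 ^ m - 1) = 1 := by
    have := pow_orderOf_eq_one ζ
    rw [hζ] at this
    have h2 := congrArg Units.val this
    rwa [Units.val_pow_eq_pow_val, Units.val_one] at h2
  refine ⟨fun i => if i.1 = 0 then 0 else (ζ : K) ^ i.1, ?_, ?_⟩
  · intro i j hij
    simp only at hij
    by_cases hi : i.1 = 0
    · by_cases hj : j.1 = 0
      · exact Fin.ext (hi.trans hj.symm)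
      · rw [if_pos hi, if_neg hj] at hij
        exact absurd hij.symm (pow_ne_zero _ ζ.ne_zero)
    · by_cases hj : j.1 = 0
      · rw [if_neg hi, if_pos hj] at hij
        exact absurd hij (pow_ne_zero _ ζ.ne_zero)
      · rw [if_neg hi, if_neg hj] at hij
        have h1 : ζ ^ i.1 = ζ ^ j.1 := Units.ext (by push_cast; exact hij)
        have h2 := pow_eq_pow_iff_modEq.1 h1
        rw [hζ] at h2
        have hi2 := i.2
        have hj2 := j.2
        have h3 : (i.1 - 1) + 1 ≡ (j.1 - 1) + 1 [MOD 2 ^ m - 1] := by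
          rwa [Nat.sub_add_cancel (by omega), Nat.sub_add_cancel (by omega)]
        have h4 := Nat.ModEq.add_right_cancel' 1 h3
        have h5 := Nat.ModEq.eq_of_lt_of_lt h4 (by omega) (by omega)
        exact Fin.ext (by omega)
  · intro i
    by_cases hi : i.1 = 0
    · simp only [if_pos hi]
      exact zero_pow (by omega)
    · simp only [if_neg hi]
      rw [← pow_mul, mul_comm, pow_mul]
      congr 1
      have h5 : (ζ : K) ^ (2 ^ m) = (ζ : K) ^ (2 ^ m - 1) * (ζ : K) := by
        rw [← pow_succ, Nat.sub_add_cancel Nat.one_le_two_pow]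
      rw [h5, hζ1, one_mul]

/-- `2 ^ m` pairwise adjacent vertices. -/
theorem clique' {F K : Type} [Field F] [Field K] [Finite K] [Algebra F K] {m j : ℕ}
    (hm : Module.finrank F K = m) (hm1 : 1 ≤ m) (hj : Nat.Coprime j m)
    (hq : Nat.card F ≡ 2 ^ j [MOD 2 ^ m - 1]) :
    (⊤ : SimpleGraph (Fin (2 ^ m))) ⊑ NormGraph F K := by
  obtain ⟨u, hu, hu2⟩ := exists_points' hm hm1 hq
  have hinj : Function.Injective (fun i : Fin (2 ^ m) => ((u i, 1) : K × Fˣ)) := by
    intro i k hij
    exact hu (Prod.ext_iff.1 hij).1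
  refine ⟨⟨⟨fun i => (u i, 1), ?_⟩, hinj⟩⟩
  intro i k hij
  have hne : i ≠ k := hij
  refine ⟨fun h => hne (hinj h), ?_⟩
  rw [norm_eq_one' hm hm1 hj hq (hu2 i) (hu2 k) (fun h => hne (hu h))]
  simp

/-- a suitable translation -/
theorem exists_shift' {F K : Type} [Field F] [Field K] [Finite K] [Algebra F K] {m j : ℕ}
    (hm : Module.finrank F K = m) (hm2 : 2 ≤ m) (hj : Nat.Coprime j m) (hq : Nat.card F ≡ 2 ^ j [MOD 2 ^ m - 1])
    (hq2 : Nat.card F ≠ 2) (u : Fin (2 ^ m) → K) :
    ∃ c : K, (∀ i, u i + c ≠ 0) ∧ (∀ i, u i - c ≠ 0) ∧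
      ∀ i k, u i ≠ u k → u k - c ≠ u i + c := by
  classical
  have hFfin := Finite.of_injective _ (FaithfulSMul.algebraMap_injective F K)
  have := Fintype.ofFinite K
  have hcard : Fintype.card K = Nat.card F ^ m := by
    rw [← Nat.card_eq_fintype_card, ← hm]
    exact Module.natCard_eq_pow_finrank
  have hF2 : 2 ≤ Nat.card F := Finite.one_lt_card
  have h2m : 4 ≤ 2 ^ m := by
    calc 4 = 2 ^ 2 := rfl
      _ ≤ 2 ^ m := Nat.pow_le_pow_right (by norm_num) hm2
  rcases eq_or_ne (2 : K) 0 with h20 | h20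
  · -- characteristic 2
    set S : Finset K := univ.image u with hS
    have hScard : S.card < Fintype.card K := by
      have h1 : S.card ≤ 2 ^ m := by
        refine card_image_le.trans ?_
        simp
      have h2 : 2 ^ m < 3 ^ m := Nat.pow_lt_pow_left (by norm_num) (by omega)
      have h3 : 3 ^ m ≤ Nat.card F ^ m := Nat.pow_le_pow_left (by omega) m
      omega
    obtain ⟨c, hc⟩ : ∃ c : K, c ∉ S := by
      by_contra hno
      push Not at hno
      have h1 : S = univ := Finset.eq_univ_iff_forall.2 hno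
      rw [h1, card_univ] at hScard
      exact lt_irrefl _ hScard
    have hcc : ∀ i, u i ≠ c := fun i h => hc (mem_image.2 ⟨i, mem_univ i, h⟩)
    have hneg : ∀ x : K, -x = x := by
      intro x
      have h1 : x + x = 0 := by
        rw [← two_mul, h20, zero_mul]
      exact neg_eq_of_add_eq_zero_left h1
    refine ⟨c, ?_, ?_, ?_⟩
    · intro i h
      apply hcc i
      rw [← hneg c]
      exact eq_neg_of_add_eq_zero_left h
    · intro i h
      exact hcc i (sub_eq_zero.1 h)
    · intro i k hik h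
      have h1 : 2 * c = u k - u i := by linear_combination -h
      rw [h20, zero_mul] at h1
      exact hik (sub_eq_zero.1 h1.symm).symm
  · -- odd characteristic
    have hodd : Nat.card F % 2 = 1 := by
      by_contra hne
      have h0 : Nat.card F % 2 = 0 := by omega
      have := Fintype.ofFinite F
      rw [Nat.card_eq_fintype_card] at h0
      have hchar : ringChar F = 2 := FiniteField.even_card_iff_char_two.mpr h0
      have h2F : (2 : F) = 0 := by
        have h3 : ((ringChar F : ℕ) : F) = 0 := ringChar.Nat.cast_ringChar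
        rw [hchar] at h3
        exact_mod_cast h3
      apply h20
      have h4 : algebraMap F K 2 = 0 := by rw [h2F, map_zero]
      rwa [map_ofNat] at h4
    have hbig : 2 ^ m + 1 ≤ Nat.card F := by
      have hk1 : j % m < m := Nat.mod_lt _ (by omega)
      have hk0 : j % m ≠ 0 := by
        intro h
        have h1 : m ∣ j := Nat.dvd_of_mod_eq_zero h
        have h2 : m ∣ Nat.gcd j m := Nat.dvd_gcd h1 (dvd_refl m)
        rw [Nat.Coprime] at hj
        rw [hj] at h2
        have := Nat.le_of_dvd one_pos h2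
        omega
      have hq' : Nat.card F ≡ 2 ^ (j % m) [MOD 2 ^ m - 1] := hq.trans (two_pow_mod' m j)
      have hlow : 2 ≤ 2 ^ (j % m) := by
        calc 2 = 2 ^ 1 := rfl
          _ ≤ 2 ^ (j % m) := Nat.pow_le_pow_right (by norm_num) (by omega)
      have hev : 2 ^ (j % m) % 2 = 0 := by
        obtain ⟨t, ht⟩ : ∃ t, j % m = t + 1 := ⟨j % m - 1, by omega⟩
        rw [ht, pow_succ]
        omega
      have hup : 2 * 2 ^ (j % m) ≤ 2 ^ m := by
        rw [← pow_succ']
        exact Nat.pow_le_pow_right (by norm_num) (by omega)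
      rcases Nat.le_total (2 ^ (j % m)) (Nat.card F) with hle | hle
      · obtain ⟨k, hk⟩ := (Nat.modEq_iff_dvd' hle).1 hq'.symm
        have hk0 : k ≠ 0 := by
          rintro rfl
          omega
        have h1 : (2 ^ m - 1) * 1 ≤ (2 ^ m - 1) * k := Nat.mul_le_mul_left _ (by omega)
        omega
      · obtain ⟨k, hk⟩ := (Nat.modEq_iff_dvd' hle).1 hq'
        rcases Nat.eq_zero_or_pos k with h0 | h0
        · rw [h0] at hk
          omega
        · have h1 : (2 ^ m - 1) * 1 ≤ (2 ^ m - 1) * k := Nat.mul_le_mul_left _ h0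
          omega
    set S : Finset K := (univ.image fun i => -u i) ∪ (univ.image u) ∪
      (univ.image fun p : Fin (2 ^ m) × Fin (2 ^ m) => (u p.2 - u p.1) / 2) with hS
    have hScard : S.card < Fintype.card K := by
      have h1 : S.card ≤ 2 ^ m + 2 ^ m + 2 ^ m * 2 ^ m := by
        refine (card_union_le _ _).trans (Nat.add_le_add ((card_union_le _ _).trans
          (Nat.add_le_add ?_ ?_)) ?_)
        · refine card_image_le.trans ?_
          simp
        · refine card_image_le.trans ?_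
          simp
        · refine card_image_le.trans ?_
          simp
      have h2 : (2 ^ m + 1) ^ 2 ≤ Nat.card F ^ m := by
        calc (2 ^ m + 1) ^ 2 ≤ (2 ^ m + 1) ^ m := Nat.pow_le_pow_right (by omega) hm2
          _ ≤ Nat.card F ^ m := Nat.pow_le_pow_left hbig m
      rw [hcard]
      nlinarith [h1, h2]
    obtain ⟨c, hc⟩ : ∃ c : K, c ∉ S := by
      by_contra hno
      push Not at hno
      have h1 : S = univ := Finset.eq_univ_iff_forall.2 hno
      rw [h1, card_univ] at hScard
      exact lt_irrefl _ hScard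
    refine ⟨c, ?_, ?_, ?_⟩
    · intro i h
      refine hc (mem_union_left _ (mem_union_left _ (mem_image.2 ⟨i, mem_univ i, ?_⟩)))
      exact neg_eq_of_add_eq_zero_right h
    · intro i h
      refine hc (mem_union_left _ (mem_union_right _ (mem_image.2 ⟨i, mem_univ i, ?_⟩)))
      exact sub_eq_zero.1 h
    · intro i j hij h
      have h1 : 2 * c = u j - u i := by linear_combination -h
      rcases eq_or_ne (2 : K) 0 with h2 | h2
      · rw [h2, zero_mul] at h1
        exact hij (sub_eq_zero.1 h1.symm).symm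
      · refine hc (mem_union_right _ (mem_image.2 ⟨(i, j), mem_univ _, ?_⟩))
        simp only
        rw [← h1]
        field_simp

/-- `K_{a, b}` with `a + b = 2 ^ m + 1`, `b ≥ 1`, in the form of points. -/
theorem biclique_succ' {F K : Type} [Field F] [Field K] [Finite K] [Algebra F K] {m e : ℕ}
    (hm : Module.finrank F K = m) (hm2 : 2 ≤ m) (he : Nat.Coprime e m)
    (hq : Nat.card F ≡ 2 ^ e [MOD 2 ^ m - 1])
    (hq2 : Nat.card F ≠ 2) (a b : ℕ) (hab : a + b ≤ 2 ^ m) :
    completeBipartiteGraph (Fin a) (Fin (b + 1)) ⊑ NormGraph F K := by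
  classical
  obtain ⟨u, hu, hu2⟩ := exists_points' hm (by omega) hq
  obtain ⟨c, hc1, hc2, hc3⟩ := exists_shift' hm hm2 he hq hq2 u
  set A : Fin a → Fin (2 ^ m) := fun i => ⟨i.1, by omega⟩ with hA
  set B : Fin b → Fin (2 ^ m) := fun j => ⟨a + j.1, by omega⟩ with hB
  have hAB : ∀ i j, u (A i) ≠ u (B j) := by
    intro i j h
    have h1 := congrArg Fin.val (hu h)
    simp only [hA, hB] at h1
    omega
  have hAinj : Function.Injective A := by
    intro i j h
    exact Fin.ext (by simpa [hA] using h)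
  have hBinj : Function.Injective B := by
    intro i j h
    exact Fin.ext (by simpa [hB] using h)
  -- the norm on units
  set n : Kˣ →* Fˣ := Units.map (Algebra.norm F) with hn
  set α : Fin a → Kˣ := fun i => Units.mk0 (-(u (A i) + c)) (neg_ne_zero.2 (hc1 _)) with hα
  set β : Fin b → Kˣ := fun j => Units.mk0 (u (B j) - c) (hc2 _) with hβ
  set f : Fin a ⊕ Fin (b + 1) → K × Fˣ := Sum.elim (fun i => ((α i : K)⁻¹, (n (α i))⁻¹))
    (Fin.cons (0, 1) fun j => (-(β j : K)⁻¹, (n (β j))⁻¹)) with hf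
  have hl : ∀ i, f (Sum.inl i) = ((α i : K)⁻¹, (n (α i))⁻¹) := fun i => rfl
  have hr0 : f (Sum.inr 0) = (0, 1) := rfl
  have hr : ∀ j : Fin b, f (Sum.inr j.succ) = (-(β j : K)⁻¹, (n (β j))⁻¹) := fun j => rfl
  have hne : ∀ i j, f (Sum.inl i) ≠ f (Sum.inr j) := by
    intro i j
    rw [hl]
    refine Fin.cases ?_ (fun j => ?_) j
    · rw [hr0]
      intro h
      exact inv_ne_zero (α i).ne_zero (Prod.ext_iff.1 h).1
    · rw [hr]
      intro h
      have h1 : (α i : K)⁻¹ = -(β j : K)⁻¹ := (Prod.ext_iff.1 h).1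
      have h2 : (α i : K) = -(β j : K) := by
        rw [← inv_neg] at h1
        exact inv_injective h1
      rw [hα, hβ] at h2
      simp only [Units.val_mk0] at h2
      exact hc3 (A i) (B j) (hAB i j) (by linear_combination h2)
  have hadj : ∀ i j, (NormGraph F K).Adj (f (Sum.inl i)) (f (Sum.inr j)) := by
    intro i j
    refine ⟨hne i j, ?_⟩
    have hni : Algebra.norm F (α i : K) = (n (α i) : Fˣ) := rfl
    refine Fin.cases ?_ (fun j => ?_) j
    · rw [hl, hr0]
      simp only [add_zero, Units.val_one, mul_one]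
      have h1 : Algebra.norm F ((α i : K)⁻¹) * Algebra.norm F (α i : K) = 1 := by
        rw [← map_mul, inv_mul_cancel₀ (α i).ne_zero, map_one]
      rw [hni] at h1
      rw [Units.val_inv_eq_inv_val]
      exact eq_inv_of_mul_eq_one_left h1
    · rw [hl, hr]
      simp only
      have hnj : Algebra.norm F (β j : K) = (n (β j) : Fˣ) := rfl
      have h1 : ((α i : K)⁻¹ + -(β j : K)⁻¹) * ((α i : K) * (β j : K)) = u (A i) + u (B j) := by
        have h2 := (α i).ne_zero
        have h3 := (β j).ne_zero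
        have h4 : ((α i : K)⁻¹ + -(β j : K)⁻¹) * ((α i : K) * (β j : K)) =
            (β j : K) - (α i : K) := by
          field_simp
          ring
        rw [h4, hα, hβ]
        simp only [Units.val_mk0]
        ring
      have h5 : Algebra.norm F ((α i : K)⁻¹ + -(β j : K)⁻¹) *
          (Algebra.norm F (α i : K) * Algebra.norm F (β j : K)) = 1 := by
        rw [← map_mul, ← map_mul, h1, norm_eq_one' hm (by omega) he hq (hu2 _) (hu2 _) (hAB i j)]
      rw [hni, hnj] at h5
      rw [Units.val_inv_eq_inv_val, Units.val_inv_eq_inv_val, ← mul_inv]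
      exact eq_inv_of_mul_eq_one_left h5
  have hinj : Function.Injective f := by
    intro x y hxy
    rcases x with x | x <;> rcases y with y | y
    · rw [hl, hl] at hxy
      have h1 : (α x : K) = (α y : K) := inv_injective (Prod.ext_iff.1 hxy).1
      rw [hα] at h1
      simp only [Units.val_mk0, neg_inj, add_left_inj] at h1
      exact congrArg _ (hAinj (hu h1))
    · exact absurd hxy (hne x y)
    · exact absurd hxy.symm (hne y x)
    · revert hxy
      refine Fin.cases ?_ (fun x => ?_) x <;> refine Fin.cases ?_ (fun y => ?_) y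
      · intro _
        rfl
      · rw [hr0, hr]
        intro h
        have h1 := (Prod.ext_iff.1 h).1
        exact absurd h1.symm (neg_ne_zero.2 (inv_ne_zero (β y).ne_zero))
      · rw [hr0, hr]
        intro h
        have h1 := (Prod.ext_iff.1 h).1
        exact absurd h1 (neg_ne_zero.2 (inv_ne_zero (β x).ne_zero))
      · rw [hr, hr]
        intro h
        have h1 : (β x : K) = (β y : K) := inv_injective (neg_injective (Prod.ext_iff.1 h).1)
        rw [hβ] at h1
        simp only [Units.val_mk0, sub_left_inj] at h1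
        rw [hBinj (hu h1)]
  refine ⟨⟨⟨f, ?_⟩, hinj⟩⟩
  intro x y hxy
  rcases x with x | x <;> rcases y with y | y
  · simp at hxy
  · exact hadj x y
  · exact (hadj y x).symm
  · simp at hxy

/-- infinitely many primes `p ≡ 2 ^ j` modulo `2 ^ m - 1` -/
theorem primes' (m j : ℕ) (hm : 1 ≤ m) : {p : ℕ | p.Prime ∧ p ≡ 2 ^ j [MOD 2 ^ m - 1]}.Infinite := by
  have h2m : 2 ≤ 2 ^ m := by
    calc 2 = 2 ^ 1 := rfl
      _ ≤ 2 ^ m := Nat.pow_le_pow_right (by norm_num) hm
  refine Nat.infinite_setOfPred_prime_and_modEq (by omega) ?_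
  have h1 : Nat.Coprime 2 (2 ^ m - 1) := by
    rw [Nat.coprime_two_left, Nat.odd_iff]
    obtain ⟨k, rfl⟩ : ∃ k, m = k + 1 := ⟨m - 1, by omega⟩
    rw [pow_succ] at h2m ⊢
    omega
  exact Nat.Coprime.pow_left j h1

end Pool.Agent.Lib.NG8
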