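import Mathlib

/-!
# NG8 / QuoP (quartic Stepanov 1): Hasse derivatives of `f₁^a f₂^b g^c r`, linearly in `r`

PROOF IN WORDS (adapt `NG5/Quo.lean`, landed). Divisibility `f₁^(a-k) f₂^(b-k) g^(c-k) ∣ E^k(f₁^a f₂^b g^c r)`: `Polynomial.hasseDeriv_mul`: `E^k(f^n s) = ∑_{i+j=k} E^i(f^n) E^j(s)`, `f^(n-i) ∣ E^i(f^n)` (`quo_dvd` of NG5/Quo, copy it: case `r = 1`), so three times: every term is divisible by `f₁^(a-i) f₂^(b-j) g^(c-l)`
with `i, j, l ≤ k`. The quotient is unique (domain, all nonzero), so linear in `r`. Degree: `natDegree (E^k h) ≤ natDegree h - k`, so `deg (L r) ≤ deg r + k μ - k`, `μ` the sum of the three degrees (if `μ = 0` then `deg (L r) ≤ deg r`).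
-/

set_option autoImplicit false

namespace Pool.Agent.Lib.NG8

open Polynomial

private theorem quo_dvd {F : Type} [Field F] (f : F[X]) (n : ℕ) : ∀ (k : ℕ) (r : F[X]), f ^ (n - k) ∣ hasseDeriv k (f ^ n * r) := by
  induction n with
  | zero =>
    intro k r
    rw [Nat.zero_sub, pow_zero]
    exact one_dvd _
  | succ n ih =>
    intro k r
    rw [show f ^ (n + 1) * r = f * (f ^ n * r) by ring, hasseDeriv_mul]
    refine Finset.dvd_sum fun ij hij => ?_
    rw [Finset.HasAntidiagonal.mem_antidiagonal] at hij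
    rcases Nat.eq_zero_or_pos ij.1 with h0 | h0
    · rw [h0, hasseDeriv_zero', show ij.2 = k by omega]
      rcases Nat.lt_or_ge n k with h1 | h1
      · rw [show n + 1 - k = 0 by omega, pow_zero]
        exact one_dvd _
      · rw [show n + 1 - k = (n - k) + 1 by omega, pow_succ, mul_comm (f ^ (n - k)) f]
        exact mul_dvd_mul_left f (ih k r)
    · refine Dvd.dvd.mul_left ?_ _
      exact (pow_dvd_pow f (by omega : n + 1 - k ≤ n - ij.2)).trans (ih ij.2 r)

private theorem quo_step {F : Type} [Field F] (f s : F[X]) (D : ℕ → F[X]) (hD : ∀ j k, j ≤ k → D k ∣ D j)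
    (h : ∀ j, D j ∣ hasseDeriv j s) (n k : ℕ) : f ^ (n - k) * D k ∣ hasseDeriv k (f ^ n * s) := by
  rw [hasseDeriv_mul]
  refine Finset.dvd_sum fun ij hij => ?_
  rw [Finset.HasAntidiagonal.mem_antidiagonal] at hij
  have h1 : f ^ (n - ij.1) ∣ hasseDeriv ij.1 (f ^ n) := by
    have := quo_dvd f n ij.1 1
    rwa [mul_one] at this
  exact mul_dvd_mul ((pow_dvd_pow f (by omega : n - k ≤ n - ij.1)).trans h1) ((hD _ _ (by omega)).trans (h ij.2))

private theorem quo_dvd3 {F : Type} [Field F] (f₁ f₂ g : F[X]) (a b c k : ℕ) (r : F[X]) :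
    f₁ ^ (a - k) * f₂ ^ (b - k) * g ^ (c - k) ∣ hasseDeriv k (f₁ ^ a * f₂ ^ b * g ^ c * r) := by
  have s1 : ∀ j, g ^ (c - j) ∣ hasseDeriv j (g ^ c * r) := fun j => quo_dvd g c j r
  have s2 : ∀ j, f₂ ^ (b - j) * g ^ (c - j) ∣ hasseDeriv j (f₂ ^ b * (g ^ c * r)) := fun j =>
    quo_step f₂ (g ^ c * r) (fun j => g ^ (c - j)) (fun i j hij => pow_dvd_pow g (by omega)) s1 b j
  have s3 := quo_step f₁ (f₂ ^ b * (g ^ c * r)) (fun j => f₂ ^ (b - j) * g ^ (c - j))
    (fun i j hij => mul_dvd_mul (pow_dvd_pow f₂ (by omega)) (pow_dvd_pow g (by omega))) s2 a k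
  rw [mul_assoc, show f₁ ^ a * f₂ ^ b * g ^ c * r = f₁ ^ a * (f₂ ^ b * (g ^ c * r)) by ring]
  exact s3

private theorem natDegree_prod4 {F : Type} [Field F] {f₁ f₂ g r : F[X]} (h1 : f₁ ≠ 0) (h2 : f₂ ≠ 0) (h3 : g ≠ 0) (hr : r ≠ 0)
    {a b c : ℕ} : (f₁ ^ a * f₂ ^ b * g ^ c * r).natDegree =
      a * f₁.natDegree + b * f₂.natDegree + c * g.natDegree + r.natDegree := by
  rw [natDegree_mul (mul_ne_zero (mul_ne_zero (pow_ne_zero _ h1) (pow_ne_zero _ h2)) (pow_ne_zero _ h3)) hr,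
    natDegree_mul (mul_ne_zero (pow_ne_zero _ h1) (pow_ne_zero _ h2)) (pow_ne_zero _ h3),
    natDegree_mul (pow_ne_zero _ h1) (pow_ne_zero _ h2), natDegree_pow, natDegree_pow, natDegree_pow]

theorem exists_quo3 {E : Type} [Field E] (f₁ f₂ g : E[X]) (h1 : f₁ ≠ 0) (h2 : f₂ ≠ 0) (h3 : g ≠ 0) (a b c k : ℕ)
    (ha : k ≤ a) (hb : k ≤ b) (hc : k ≤ c) :
    ∃ L : E[X] →ₗ[E] E[X], (∀ r, hasseDeriv k (f₁ ^ a * f₂ ^ b * g ^ c * r) =
        f₁ ^ (a - k) * f₂ ^ (b - k) * g ^ (c - k) * L r) ∧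
      ∀ (A : ℕ) (r : E[X]), r ∈ degreeLT E A →
        L r ∈ degreeLT E (A + k * (f₁.natDegree + f₂.natDegree + g.natDegree - 1)) := by
  have hfp : f₁ ^ (a - k) * f₂ ^ (b - k) * g ^ (c - k) ≠ 0 :=
    mul_ne_zero (mul_ne_zero (pow_ne_zero _ h1) (pow_ne_zero _ h2)) (pow_ne_zero _ h3)
  have hch : ∀ r, ∃ q, hasseDeriv k (f₁ ^ a * f₂ ^ b * g ^ c * r) = f₁ ^ (a - k) * f₂ ^ (b - k) * g ^ (c - k) * q :=
    fun r => quo_dvd3 f₁ f₂ g a b c k r
  choose q hq using hch
  refine ⟨{ toFun := q, map_add' := fun r s => ?_, map_smul' := fun t r => ?_ }, fun r => hq r, fun A r hr => ?_⟩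
  · apply mul_left_cancel₀ hfp
    rw [mul_add, ← hq, ← hq, ← hq, mul_add, map_add]
  · apply mul_left_cancel₀ hfp
    rw [RingHom.id_apply, mul_smul_comm, ← hq, ← hq, mul_smul_comm, map_smul]
  · show q r ∈ degreeLT E (A + k * (f₁.natDegree + f₂.natDegree + g.natDegree - 1))
    by_cases hq0 : q r = 0
    · rw [hq0]
      exact Submodule.zero_mem _
    · have hne : hasseDeriv k (f₁ ^ a * f₂ ^ b * g ^ c * r) ≠ 0 := by
        rw [hq]
        exact mul_ne_zero hfp hq0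
      have hr0 : r ≠ 0 := by
        rintro rfl
        rw [mul_zero, map_zero] at hne
        exact hne rfl
      rw [mem_degreeLT, degree_eq_natDegree hr0] at hr
      rw [mem_degreeLT, degree_eq_natDegree hq0]
      have hr' : r.natDegree < A := by exact_mod_cast hr
      have h4 : k ≤ (f₁ ^ a * f₂ ^ b * g ^ c * r).natDegree := by
        by_contra h
        exact hne (hasseDeriv_eq_zero_of_lt_natDegree _ _ (not_le.1 h))
      have h5 := natDegree_hasseDeriv_le (f₁ ^ a * f₂ ^ b * g ^ c * r) k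
      rw [hq] at h5
      rw [natDegree_prod4 h1 h2 h3 hr0] at h4 h5
      rw [natDegree_prod4 h1 h2 h3 hq0] at h5
      have h6 : (q r).natDegree < A + k * (f₁.natDegree + f₂.natDegree + g.natDegree - 1) := by
        obtain ⟨a', rfl⟩ : ∃ l, a = k + l := ⟨a - k, by omega⟩
        obtain ⟨b', rfl⟩ : ∃ l, b = k + l := ⟨b - k, by omega⟩
        obtain ⟨c', rfl⟩ : ∃ l, c = k + l := ⟨c - k, by omega⟩
        rw [show k + a' - k = a' by omega, show k + b' - k = b' by omega, show k + c' - k = c' by omega] at h5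
        generalize f₁.natDegree = d₁ at *
        generalize f₂.natDegree = d₂ at *
        generalize g.natDegree = d₃ at *
        rw [Nat.add_mul, Nat.add_mul, Nat.add_mul] at h4 h5
        rcases Nat.eq_zero_or_pos (d₁ + d₂ + d₃) with hm | hm
        · obtain ⟨rfl, rfl, rfl⟩ : d₁ = 0 ∧ d₂ = 0 ∧ d₃ = 0 := by omega
          simp only [Nat.mul_zero] at h4 h5 ⊢
          omega
        · obtain ⟨m, hm'⟩ : ∃ m, d₁ + d₂ + d₃ = m + 1 := ⟨d₁ + d₂ + d₃ - 1, by omega⟩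
          have e1 : k * d₁ + k * d₂ + k * d₃ = k * m + k := by
            rw [← Nat.mul_add, ← Nat.mul_add, hm', Nat.mul_succ]
          rw [hm', Nat.add_sub_cancel]
          omega
      exact_mod_cast h6

end Pool.Agent.Lib.NG8
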