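import Mathlib

/-!
# NG8 / VanA (quartic Stepanov 3): one congruence

PROOF IN WORDS. If `A = 0` all `a i = 0`. Put `s₁ = Y₁^4`, `s₂ = Y₂^4`, `b = a2^2 - 2 a1 a3`, `d = a1^2 - 2 a0 a2`. Modulo `X^q`: `Y₂ (a0 Y₂^2 + a2 Y₁^2) ≡ -Y₁ (a1 Y₂^2 + a3 Y₁^2)`; square and sort: `Y₂^2 (a0^2 s₂ + b s₁) ≡ Y₁^2 (d s₂ + a3^2 s₁)`; square: `s₂ (a0^2 s₂ + b s₁)^2 ≡ s₁ (d s₂ + a3^2 s₁)^2`. Multiply by `V₁^3` and use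
`s₁ V₁ ≡ s₂ V₂`: `s₂^3 V₁ (a0^2 V₁ + b V₂)^2 ≡ s₂^3 V₂ (d V₁ + a3^2 V₂)^2`; `s₂` has nonzero constant term, so it is coprime to `X^q` and cancels. Both sides have degree `≤ v + 2 (2 (A-1) + v) < q`, so they are equal. `h1`: `a0^2 V₁ + b V₂ = 0` and `d V₁ + a3^2 V₂ = 0`, that is
`a0^2 V₁ + a2^2 V₂ = 2 a1 a3 V₂`, `2 a0 a2 V₁ = a1^2 V₁ + a3^2 V₂`. Then `V₁ (a0^2 V₁ - a2^2 V₂)^2 = V₁ ((a0^2 V₁ + a2^2 V₂)^2 - 4 a0^2 a2^2 V₁ V₂) = -V₂ (a1^2 V₁ - a3^2 V₂)^2` (insert both relations). `h2`: `a0^2 V₁ = a2^2 V₂` and `a1^2 V₁ = a3^2 V₂`; `h1`: all `a i = 0`.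
-/

set_option autoImplicit false

namespace Pool.Agent.Lib.NG8

open Polynomial

private theorem van_deg {E : Type} [Field E] {B : ℕ} {f : E[X]} (hf : f ∈ degreeLT E (B + 1)) :
    f.natDegree ≤ B := by
  rw [natDegree_le_iff_coeff_eq_zero]
  intro N hN
  refine coeff_eq_zero_of_degree_lt (lt_of_lt_of_le (mem_degreeLT.1 hf) ?_)
  exact_mod_cast hN

/-- twice squaring -/
private theorem van_id {R : Type*} [CommRing R] (u w V₁ V₂ a0 a1 a2 a3 : R) :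
    w ^ 12 * (V₁ * (a0 ^ 2 * V₁ + (a2 ^ 2 - 2 * a1 * a3) * V₂) ^ 2 -
      V₂ * ((a1 ^ 2 - 2 * a0 * a2) * V₁ + a3 ^ 2 * V₂) ^ 2) =
    (a0 * w ^ 3 + a1 * u * w ^ 2 + a2 * u ^ 2 * w + a3 * u ^ 3) *
      (V₁ ^ 3 * (w * (a0 * w ^ 2 + a2 * u ^ 2) - u * (a1 * w ^ 2 + a3 * u ^ 2)) *
        (w ^ 2 * (a0 ^ 2 * w ^ 4 + (a2 ^ 2 - 2 * a1 * a3) * u ^ 4) +
          u ^ 2 * ((a1 ^ 2 - 2 * a0 * a2) * w ^ 4 + a3 ^ 2 * u ^ 4))) -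
    (u ^ 4 * V₁ - w ^ 4 * V₂) *
      (w ^ 4 * V₁ * (a2 ^ 2 - 2 * a1 * a3) * (2 * (a0 ^ 2 * w ^ 4 * V₁) +
          (a2 ^ 2 - 2 * a1 * a3) * (u ^ 4 * V₁ + w ^ 4 * V₂)) -
        (((a1 ^ 2 - 2 * a0 * a2) * w ^ 4 * V₁) ^ 2 +
          2 * ((a1 ^ 2 - 2 * a0 * a2) * w ^ 4 * V₁) * a3 ^ 2 * (u ^ 4 * V₁ + w ^ 4 * V₂) +
          a3 ^ 4 * ((u ^ 4 * V₁) ^ 2 + (u ^ 4 * V₁) * (w ^ 4 * V₂) + (w ^ 4 * V₂) ^ 2))) := by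
  ring

theorem cong_zero {E : Type} [Field E] (q : ℕ) (Y₁ Y₂ V₁ V₂ : E[X]) (hY : X ^ q ∣ Y₁ ^ 4 * V₁ - Y₂ ^ 4 * V₂)
    (hY2 : Y₂.eval 0 ≠ 0) (h1 : ∀ x y : E[X], V₁ * x ^ 2 = V₂ * y ^ 2 → x = 0 ∧ y = 0)
    (h2 : ∀ x y : E[X], V₁ * x ^ 2 = -(V₂ * y ^ 2) → x = 0 ∧ y = 0) (A v : ℕ) (hv1 : V₁.natDegree ≤ v)
    (hv2 : V₂.natDegree ≤ v) (hA : 4 * A + 3 * v ≤ q) (a : Fin 4 → E[X]) (ha : ∀ i, a i ∈ degreeLT E A)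
    (h : X ^ q ∣ ∑ i : Fin 4, a i * Y₁ ^ (i : ℕ) * Y₂ ^ (3 - (i : ℕ))) : ∀ i, a i = 0 := by
  classical
  rcases A with _ | B
  · intro i
    have h3 := mem_degreeLT.1 (ha i)
    by_contra hne
    rw [degree_eq_natDegree hne] at h3
    exact absurd (by exact_mod_cast h3 : (a i).natDegree < 0) (Nat.not_lt_zero _)
  obtain ⟨a0, h0⟩ : ∃ x, x = a 0 := ⟨_, rfl⟩
  obtain ⟨a1, h1'⟩ : ∃ x, x = a 1 := ⟨_, rfl⟩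
  obtain ⟨a2, h2'⟩ : ∃ x, x = a 2 := ⟨_, rfl⟩
  obtain ⟨a3, h3'⟩ : ∃ x, x = a 3 := ⟨_, rfl⟩
  have d0 : a0.natDegree ≤ B := by rw [h0]; exact van_deg (ha 0)
  have d1 : a1.natDegree ≤ B := by rw [h1']; exact van_deg (ha 1)
  have d2 : a2.natDegree ≤ B := by rw [h2']; exact van_deg (ha 2)
  have d3 : a3.natDegree ≤ B := by rw [h3']; exact van_deg (ha 3)
  have hP : X ^ q ∣ a0 * Y₂ ^ 3 + a1 * Y₁ * Y₂ ^ 2 + a2 * Y₁ ^ 2 * Y₂ + a3 * Y₁ ^ 3 := by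
    have h4 : ∑ i : Fin 4, a i * Y₁ ^ (i : ℕ) * Y₂ ^ (3 - (i : ℕ)) =
        a0 * Y₂ ^ 3 + a1 * Y₁ * Y₂ ^ 2 + a2 * Y₁ ^ 2 * Y₂ + a3 * Y₁ ^ 3 := by
      rw [Fin.sum_univ_four, h0, h1', h2', h3']
      simp
    rwa [h4] at h
  -- the product with `Y₂ ^ 12` is divisible by `X ^ q`
  have hT : X ^ q ∣ V₁ * (a0 ^ 2 * V₁ + (a2 ^ 2 - 2 * a1 * a3) * V₂) ^ 2 -
      V₂ * ((a1 ^ 2 - 2 * a0 * a2) * V₁ + a3 ^ 2 * V₂) ^ 2 := by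
    refine prime_X.pow_dvd_of_dvd_mul_left q (a := Y₂ ^ 12) ?_ ?_
    · rw [X_dvd_iff, coeff_zero_eq_eval_zero, eval_pow]
      exact pow_ne_zero _ hY2
    · rw [van_id Y₁ Y₂ V₁ V₂ a0 a1 a2 a3]
      exact dvd_sub (dvd_mul_of_dvd_left hP _) (dvd_mul_of_dvd_left hY _)
  have hsq : ∀ {f : E[X]} {n : ℕ}, f.natDegree ≤ n → (f ^ 2).natDegree ≤ 2 * n := fun hf =>
    natDegree_pow_le_of_le 2 hf
  have hmul : ∀ {f g : E[X]} {m n : ℕ}, f.natDegree ≤ m → g.natDegree ≤ n →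
      (f * g).natDegree ≤ m + n := fun hf hg => natDegree_mul_le_of_le hf hg
  have hsub : ∀ {f g : E[X]} {n : ℕ}, f.natDegree ≤ n → g.natDegree ≤ n →
      (f - g).natDegree ≤ n := fun hf hg => (natDegree_sub_le _ _).trans (max_le hf hg)
  have hadd : ∀ {f g : E[X]} {n : ℕ}, f.natDegree ≤ n → g.natDegree ≤ n →
      (f + g).natDegree ≤ n := fun hf hg => (natDegree_add_le _ _).trans (max_le hf hg)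
  have h22 : ∀ {f g : E[X]}, f.natDegree ≤ B → g.natDegree ≤ B → (2 * f * g).natDegree ≤ 2 * B := by
    intro f g hf hg
    have h4 : (2 * f).natDegree ≤ B := by
      have h5 : (2 : E[X]) = C 2 := (map_ofNat (C : E →+* E[X]) 2).symm
      rw [h5]
      exact (natDegree_C_mul_le _ _).trans hf
    exact (hmul h4 hg).trans (by omega)
  have hx : (a0 ^ 2 * V₁ + (a2 ^ 2 - 2 * a1 * a3) * V₂).natDegree ≤ 2 * B + v :=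
    hadd (hmul (hsq d0) hv1) (hmul (hsub (hsq d2) (h22 d1 d3)) hv2)
  have hy : ((a1 ^ 2 - 2 * a0 * a2) * V₁ + a3 ^ 2 * V₂).natDegree ≤ 2 * B + v :=
    hadd (hmul (hsub (hsq d1) (h22 d0 d2)) hv1) (hmul (hsq d3) hv2)
  have hdeg : (V₁ * (a0 ^ 2 * V₁ + (a2 ^ 2 - 2 * a1 * a3) * V₂) ^ 2 -
      V₂ * ((a1 ^ 2 - 2 * a0 * a2) * V₁ + a3 ^ 2 * V₂) ^ 2).natDegree ≤ v + 2 * (2 * B + v) :=
    hsub (hmul hv1 (hsq hx)) (hmul hv2 (hsq hy))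
  have hT0 : V₁ * (a0 ^ 2 * V₁ + (a2 ^ 2 - 2 * a1 * a3) * V₂) ^ 2 -
      V₂ * ((a1 ^ 2 - 2 * a0 * a2) * V₁ + a3 ^ 2 * V₂) ^ 2 = 0 := by
    refine eq_zero_of_dvd_of_natDegree_lt hT ?_
    rw [natDegree_X_pow]
    omega
  obtain ⟨e1, e2⟩ := h1 _ _ (sub_eq_zero.1 hT0)
  obtain ⟨f1, f2⟩ := h2 (a0 ^ 2 * V₁ - a2 ^ 2 * V₂) (a1 ^ 2 * V₁ - a3 ^ 2 * V₂) (by
    linear_combination V₁ * (a0 ^ 2 * V₁ + a2 ^ 2 * V₂ + 2 * a1 * a3 * V₂) * e1 +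
      V₂ * (a1 ^ 2 * V₁ + a3 ^ 2 * V₂ + 2 * a0 * a2 * V₁) * e2)
  obtain ⟨g0, g2⟩ := h1 a0 a2 (by linear_combination f1)
  obtain ⟨g1, g3⟩ := h1 a1 a3 (by linear_combination f2)
  intro i
  fin_cases i
  · show a 0 = 0
    rw [← h0, g0]
  · show a 1 = 0
    rw [← h1', g1]
  · show a 2 = 0
    rw [← h2', g2]
  · show a 3 = 0
    rw [← h3', g3]

end Pool.Agent.Lib.NG8
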